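import Pool.Agent.Lib.MP_069854_nt.R9.V0

/-! # Definitions for the unbalanced sign patterns -/

set_option autoImplicit false

open Complex MeasureTheory Set Filter Topology
open scoped ComplexConjugate

namespace OL

/-- a factor `ζ(1/2 + z + it)` (`e = true`) or `ζ(1/2 + z - it)` (`e = false`) -/
noncomputable def zf (e : Bool) (z : ℂ) (t : ℝ) : ℂ :=
  if e then riemannZeta (1 / 2 + z + t * I) else riemannZeta (1 / 2 + z - t * I)

/-- its smoothed series -/
noncomputable def sf (e : Bool) (z : ℂ) (X t : ℝ) : ℂ :=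
  if e then Sx (1 / 2 + z.re) X (t + z.im) else conj (Sx (1 / 2 + z.re) X (t + -z.im))

/-- `f` is a sum of exponentials of total mass at most `M` -/
def AP (M : ℝ) (f : ℝ → ℂ) : Prop := ∃ (c : ℕ → ℂ) (u : ℕ → ℝ), (Summable fun n => ‖c n‖) ∧
  ∑' n, ‖c n‖ ≤ M ∧ ∀ t, f t = ∑' n, c n * ei (t * u n)

/-- the factor of the functional equation on the critical line -/
noncomputable def gc (t : ℝ) : ℂ := cH (1 / 2 - t * I)

/-- the product of the factors of the functional equation -/
noncomputable def XX {k : ℕ} (S S' : Finset (Fin k)) (a b : Fin k → ℂ) (t : ℝ) : ℂ :=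
  (∏ j ∈ S, cH (1 / 2 + a j - t * I)) * ∏ j ∈ S', cH (1 / 2 + b j + t * I)

end OL
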