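import Pool.Agent.Lib.MP_069854_nt.R9.V4
import Pool.Agent.Lib.MP_069854_nt.R9.U0

/-! # Approximation in mean of products with signs -/

set_option autoImplicit false

open Complex MeasureTheory Set Filter Topology
open scoped ComplexConjugate

namespace OL

/-- Row `u-1`, part 1. PROOF: this is `V3_prod` (`R9/V3.lean`) with the norm inside the integral; its proof bounds exactly this quantity
(`v3_tel`, `v3_term`). -/
theorem U1_prod {ι : Type*} [Fintype ι] [DecidableEq ι] {p : ι → ℝ} (hp : ∀ i, 1 ≤ p i)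
    (hs : ∑ i, 1 / p i ≤ 1) {M : ℝ} (hM : 1 ≤ M) :
    ∃ C q : ℝ, 0 ≤ C ∧ 0 < q ∧ ∀ (A B : ι → ℝ → ℂ), (∀ i, Continuous (A i)) → (∀ i, Continuous (B i)) →
      ∀ (T D : ℝ), 0 < T → 0 < D → D ≤ 1 →
      (∀ i, T⁻¹ * (∫ t in (0 : ℝ)..T, ‖A i t - B i t‖ ^ p i) ≤ D) →
      (∀ i, T⁻¹ * (∫ t in (0 : ℝ)..T, ‖A i t‖ ^ p i) ≤ M) →
      (∀ i, T⁻¹ * (∫ t in (0 : ℝ)..T, ‖B i t‖ ^ p i) ≤ M) →
      T⁻¹ * (∫ t in (0 : ℝ)..T, ‖∏ i, A i t - ∏ i, B i t‖) ≤ C * D ^ q := by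
  obtain ⟨P, hPdef⟩ : ∃ P, P = 1 + ∑ i, p i := ⟨_, rfl⟩
  have hpp : ∀ i, 0 ≤ p i := fun i => zero_le_one.trans (hp i)
  have hsum : 0 ≤ ∑ i, p i := Finset.sum_nonneg fun i _ => hpp i
  have hP0 : 0 < P := by rw [hPdef]; linarith
  have hP : ∀ i, p i ≤ P := by
    intro i
    have := Finset.single_le_sum (f := p) (fun j _ => hpp j) (Finset.mem_univ i)
    rw [hPdef]; linarith
  obtain ⟨n, hn⟩ : ∃ n : ℝ, n = Fintype.card ι := ⟨_, rfl⟩
  have hn0 : 0 ≤ n := by rw [hn]; positivity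
  have hM0 : 0 ≤ M := by linarith
  refine ⟨n * (2 + n * (2 * M)), 1 / P, by positivity, by positivity, ?_⟩
  intro A B hA hB T D hT hD hD1 h1 h2 h3
  have cA : ∀ i, Continuous fun t => ‖A i t‖ ^ p i := fun i => (hA i).norm.rpow_const fun _ => Or.inr (hpp i)
  have cB : ∀ i, Continuous fun t => ‖B i t‖ ^ p i := fun i => (hB i).norm.rpow_const fun _ => Or.inr (hpp i)
  have cAB : ∀ i, Continuous fun t => ‖A i t - B i t‖ ^ p i := fun i =>
    ((hA i).sub (hB i)).norm.rpow_const fun _ => Or.inr (hpp i)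
  have pA : Continuous fun t => ∏ i, A i t := continuous_finsetProd _ fun i _ => hA i
  have pB : Continuous fun t => ∏ i, B i t := continuous_finsetProd _ fun i _ => hB i
  have cS : Continuous fun t => ∑ j, (‖A j t‖ ^ p j + ‖B j t‖ ^ p j) :=
    continuous_finsetSum _ fun j _ => (cA j).add (cB j)
  have cG : ∀ i, Continuous fun t => D ^ (1 / P) * (D⁻¹ * ‖A i t - B i t‖ ^ p i +
      ∑ j, (‖A j t‖ ^ p j + ‖B j t‖ ^ p j) + 1) := fun i =>
    continuous_const.mul (((continuous_const.mul (cAB i)).add cS).add continuous_const)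
  have s2 : v3J T (fun t => ‖∏ i, A i t - ∏ i, B i t‖) ≤ v3J T fun t => ∑ i, D ^ (1 / P) *
      (D⁻¹ * ‖A i t - B i t‖ ^ p i + ∑ j, (‖A j t‖ ^ p j + ‖B j t‖ ^ p j) + 1) := by
    refine v3J_mono hT (pA.sub pB).norm (continuous_finsetSum _ fun i _ => cG i) fun t => ?_
    refine (v3_tel (fun i => A i t) (fun i => B i t) Finset.univ).trans ?_
    exact Finset.sum_le_sum fun i _ => v3_term hp hs hP hP0 hD hD1 (fun i => A i t) (fun i => B i t) i
  rw [v3J_sum T cG] at s2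
  have s3 : ∀ i, v3J T (fun t => D ^ (1 / P) * (D⁻¹ * ‖A i t - B i t‖ ^ p i +
      ∑ j, (‖A j t‖ ^ p j + ‖B j t‖ ^ p j) + 1)) ≤ D ^ (1 / P) * (2 + n * (2 * M)) := by
    intro i
    have cD : Continuous fun t => D⁻¹ * ‖A i t - B i t‖ ^ p i := continuous_const.mul (cAB i)
    have cE : Continuous fun t => D⁻¹ * ‖A i t - B i t‖ ^ p i + ∑ j, (‖A j t‖ ^ p j + ‖B j t‖ ^ p j) :=
      cD.add cS
    have cF : ∀ j, Continuous fun t => ‖A j t‖ ^ p j + ‖B j t‖ ^ p j := fun j => (cA j).add (cB j)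
    rw [v3J_mul, v3J_add T (g := fun _ => 1) cE continuous_const, v3J_add T cD cS, v3J_mul, v3J_sum T cF,
      v3J_const hT]
    refine mul_le_mul_of_nonneg_left ?_ (Real.rpow_nonneg hD.le _)
    have q1 : D⁻¹ * v3J T (fun t => ‖A i t - B i t‖ ^ p i) ≤ 1 := by
      rw [inv_mul_le_iff₀ hD, mul_one]
      exact h1 i
    have q2 : ∑ j, v3J T (fun t => ‖A j t‖ ^ p j + ‖B j t‖ ^ p j) ≤ n * (2 * M) := by
      rw [hn]
      calc ∑ j, v3J T (fun t => ‖A j t‖ ^ p j + ‖B j t‖ ^ p j) ≤ ∑ _j : ι, 2 * M := by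
            refine Finset.sum_le_sum fun j _ => ?_
            rw [v3J_add T (cA j) (cB j)]
            have := h2 j
            have := h3 j
            unfold v3J
            linarith
        _ = (Fintype.card ι : ℝ) * (2 * M) := by
            rw [Finset.sum_const, Finset.card_univ, nsmul_eq_mul]
    linarith
  calc T⁻¹ * (∫ t in (0 : ℝ)..T, ‖∏ i, A i t - ∏ i, B i t‖)
      ≤ ∑ i, v3J T (fun t => D ^ (1 / P) * (D⁻¹ * ‖A i t - B i t‖ ^ p i +
          ∑ j, (‖A j t‖ ^ p j + ‖B j t‖ ^ p j) + 1)) := s2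
    _ ≤ ∑ _i : ι, D ^ (1 / P) * (2 + n * (2 * M)) := Finset.sum_le_sum fun i _ => s3 i
    _ = n * (2 + n * (2 * M)) * D ^ (1 / P) := by
        rw [Finset.sum_const, Finset.card_univ, nsmul_eq_mul, hn]
        ring

/-- the shift of the variable in a factor -/
noncomputable def u1_x (e : Bool) (z : ℂ) : ℝ := if e then z.im else -z.im

lemma u1_x_abs (e : Bool) (z : ℂ) : |u1_x e z| = |z.im| := by
  cases e
  · exact abs_neg _
  · rfl

lemma u1_zf_true (z : ℂ) (t : ℝ) :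
    zf true z t = riemannZeta ((1 / 2 + z.re : ℝ) + (t + z.im : ℝ) * I) := by
  unfold zf
  rw [if_pos rfl]
  congr 1
  conv_lhs => rw [← Complex.re_add_im z]
  push_cast
  ring

lemma u1_zf_false (z : ℂ) (t : ℝ) :
    zf false z t = conj (riemannZeta ((1 / 2 + z.re : ℝ) + (t + -z.im : ℝ) * I)) := by
  unfold zf
  rw [if_neg (by decide), ← riemannZeta_conj]
  congr 1
  conv_lhs => rw [← Complex.re_add_im z]
  simp only [map_add, map_mul, conj_ofReal, conj_I]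
  push_cast
  ring

lemma u1_nz (e : Bool) (z : ℂ) (t : ℝ) :
    ‖zf e z t‖ = ‖riemannZeta ((1 / 2 + z.re : ℝ) + (t + u1_x e z : ℝ) * I)‖ := by
  cases e
  · rw [u1_zf_false, Complex.norm_conj]
    rfl
  · rw [u1_zf_true]
    rfl

lemma u1_ns (e : Bool) (z : ℂ) (X t : ℝ) :
    ‖sf e z X t‖ = ‖Sx (1 / 2 + z.re) X (t + u1_x e z)‖ := by
  cases e
  · exact Complex.norm_conj _
  · rfl

lemma u1_nd (e : Bool) (z : ℂ) (X t : ℝ) :
    ‖zf e z t - sf e z X t‖ = ‖riemannZeta ((1 / 2 + z.re : ℝ) + (t + u1_x e z : ℝ) * I) -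
      Sx (1 / 2 + z.re) X (t + u1_x e z)‖ := by
  cases e
  · rw [u1_zf_false]
    change ‖conj _ - conj _‖ = _
    rw [← map_sub, Complex.norm_conj]
    rfl
  · rw [u1_zf_true]
    rfl

lemma u1_cz (e : Bool) {z : ℂ} (hz : z.re < 1 / 2) : Continuous (zf e z) := by
  have h : ∀ x : ℝ, Continuous fun t : ℝ =>
      riemannZeta ((1 / 2 + z.re : ℝ) + (t + x : ℝ) * I) := fun x =>
    (zeta_cont (by linarith : 1 / 2 + z.re < 1)).comp (continuous_id.add continuous_const)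
  cases e
  · rw [funext (u1_zf_false z)]
    exact Complex.continuous_conj.comp (h _)
  · rw [funext (u1_zf_true z)]
    exact h _

lemma u1_cs (e : Bool) (z : ℂ) {X : ℝ} (hX : 0 < X) : Continuous (sf e z X) := by
  have h : ∀ x : ℝ, Continuous fun t : ℝ => Sx (1 / 2 + z.re) X (t + x) := fun x =>
    (Sx_cont hX _).comp (continuous_id.add continuous_const)
  cases e
  · exact Complex.continuous_conj.comp (h _)
  · exact h _

lemma u1_min {ι : Type*} [Fintype ι] (r : ι → ℝ) (hr : ∀ i, 0 < r i) :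
    ∃ r0 : ℝ, 0 < r0 ∧ ∀ i, r0 ≤ r i := by
  rcases isEmpty_or_nonempty ι with h | h
  · exact ⟨1, one_pos, fun i => h.elim i⟩
  · obtain ⟨i0, -, hi0⟩ := Finset.exists_min_image (Finset.univ : Finset ι) r
      Finset.univ_nonempty
    exact ⟨r i0, hr i0, fun i => hi0 i (Finset.mem_univ i)⟩

/-- part 2. PROOF: pattern: the first half of `V4_rel` (`R9/V4.lean`). Let `m ≥ 1` be a natural number with `2m ≥ A i` for all `i` and
`δ = min δ0 (1/(4m))`; `zf e z t` is `ζ(1/2+Re z + i(t + Im z))` or the complex conjugate of `ζ(1/2 + Re z + i(t - Im z))`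
(`riemannZeta_conj`), so `‖zf - sf‖` is `‖ζ - Sx‖` at `(σ, x) = (1/2 + Re z, ± Im z)`: `V1_diff` between `1/2 + r i` and `1 - d` (if
`1/2 + r i > 1 - d` for some `i` there is no such `z`), bounds by `V4_zeta` and `V2_S`, scaling as in `V4_rel` (`v4_scale`) to have `D ≤ 1`, then part 1. -/
theorem U1_approx {ι : Type*} [Fintype ι] [DecidableEq ι] {d : ℝ} (hd : 0 < d) (e : ι → Bool)
    {s A r : ι → ℝ} (hs : ∀ i, 1 / 2 ≤ s i ∧ 1 ≤ A i ∧ MB (s i) (A i) ∧ s i < 1 / 2 + r i)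
    (hsum : ∑ i, 1 / A i ≤ 1) {δ0 : ℝ} (hδ0 : 0 < δ0) :
    ∃ δ η C : ℝ, 0 < δ ∧ δ ≤ δ0 ∧ 0 < η ∧ 0 ≤ C ∧ ∀ T : ℝ, 1 ≤ T → ∀ z : ι → ℂ,
      (∀ i, r i ≤ (z i).re ∧ (z i).re ≤ 1 / 2 - d ∧ |(z i).im| ≤ T) →
      T⁻¹ * (∫ t in (0 : ℝ)..T, ‖∏ i, zf (e i) (z i) t - ∏ i, sf (e i) (z i) (T ^ δ) t‖) ≤
        C * T ^ (-η) := by
  by_cases hall : ∀ i, 1 / 2 + r i ≤ 1 - d
  swap
  · refine ⟨δ0, 1, 0, hδ0, le_rfl, one_pos, le_rfl, fun T hT z hz => ?_⟩
    exfalso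
    apply hall
    intro i
    linarith [(hz i).1, (hz i).2.1]
  obtain ⟨m, hm, -, hpm⟩ := v4_exists_nat 0 A
  have hm0 : (0 : ℝ) < m := by exact_mod_cast hm
  obtain ⟨δ, hδdef⟩ : ∃ δ : ℝ, δ = min δ0 (1 / (4 * m)) := ⟨_, rfl⟩
  have hδ : 0 < δ := by rw [hδdef]; exact lt_min hδ0 (by positivity)
  have hδ1 : δ ≤ 1 / (4 * m) := by rw [hδdef]; exact min_le_right _ _
  have hδA : ∀ i, δ * A i ≤ 1 / 2 := fun i =>
    (mul_le_mul_of_nonneg_right hδ1 (zero_le_one.trans (hs i).2.1)).trans (v4_delta hm (hpm i))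
  have hd1 : 1 - d < 1 := by linarith
  have hp1 : ∀ i, 1 ≤ A i := fun i => (hs i).2.1
  have hD := fun i => V1_diff (hp1 i) (hs i).1 (hs i).2.2.2 (hall i) hd1 hδ (hδA i) (hs i).2.2.1
  choose r1 C1 hr1 hC1 hdf using hD
  have hZ := fun i => V4_zeta (hp1 i) (hs i).1 (hs i).2.2.2 (hall i) hd1 (hs i).2.2.1
  choose C2 hC2 hz2 using hZ
  have hS := fun i => V2_S hm (σ1 := 1 / 2 + r i) (by linarith [(hs i).1, (hs i).2.2.2])
    (by linarith [hall i]) hδ hδ1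
  choose C3 hC3 hz3 using hS
  obtain ⟨r0, hr0, hr0i⟩ := u1_min r1 hr1
  obtain ⟨M, hM⟩ : ∃ M : ℝ, M = ∑ i, (C1 i + C2 i + C3 i) + 1 := ⟨_, rfl⟩
  have hsingle : ∀ i, C1 i + C2 i + C3 i ≤ ∑ i, (C1 i + C2 i + C3 i) := fun i =>
    Finset.single_le_sum (f := fun i => C1 i + C2 i + C3 i)
      (fun i _ => add_nonneg (add_nonneg (hC1 i) (hC2 i)) (hC3 i)) (Finset.mem_univ i)
  have hM1 : 1 ≤ M := by
    have := Finset.sum_nonneg (s := (Finset.univ : Finset ι)) (f := fun i => C1 i + C2 i + C3 i)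
      fun i _ => add_nonneg (add_nonneg (hC1 i) (hC2 i)) (hC3 i)
    rw [hM]
    linarith
  have hM0 : 0 < M := by linarith
  have hC1M : ∀ i, C1 i ≤ M := fun i => by
    have := hsingle i
    have h2 := hC2 i
    have h3 := hC3 i
    rw [hM]; linarith
  have hC2M : ∀ i, C2 i ≤ M := fun i => by
    have := hsingle i
    have h2 := hC1 i
    have h3 := hC3 i
    rw [hM]; linarith
  have hC3M : ∀ i, C3 i ≤ M := fun i => by
    have := hsingle i
    have h2 := hC1 i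
    have h3 := hC2 i
    rw [hM]; linarith
  obtain ⟨C5, q, hC5, hq, h5⟩ := U1_prod hp1 hsum (le_refl (1 : ℝ))
  refine ⟨δ, r0 * q, M ^ Fintype.card ι * C5, hδ, by rw [hδdef]; exact min_le_left _ _,
    by positivity, by positivity, fun T hT z hz => ?_⟩
  have hT0 : 0 < T := by linarith
  have hX0 : 0 < T ^ δ := by positivity
  have hx : ∀ i, |u1_x (e i) (z i)| ≤ T := fun i => by rw [u1_x_abs]; exact (hz i).2.2
  have hz1 : ∀ i, 1 / 2 + r i ≤ 1 / 2 + (z i).re := fun i => by linarith [(hz i).1]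
  have hz2' : ∀ i, 1 / 2 + (z i).re ≤ 1 - d := fun i => by linarith [(hz i).2.1]
  have cF : ∀ i, Continuous (zf (e i) (z i)) := fun i => u1_cz _ (by linarith [(hz i).2.1])
  have cB : ∀ i, Continuous (sf (e i) (z i) (T ^ δ)) := fun i => u1_cs _ _ hX0
  have b1 : ∀ i, T⁻¹ * (∫ t in (0 : ℝ)..T, ‖zf (e i) (z i) t - sf (e i) (z i) (T ^ δ) t‖ ^ A i) ≤
      M * T ^ (-r0) := by
    intro i
    have e1 : T ^ (-(r1 i)) ≤ T ^ (-r0) :=
      Real.rpow_le_rpow_of_exponent_le hT (neg_le_neg (hr0i i))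
    have e2 : C1 i * T ^ (-(r1 i)) ≤ M * T ^ (-r0) :=
      mul_le_mul (hC1M i) e1 (by positivity) hM0.le
    refine le_trans ?_ e2
    simp_rw [u1_nd]
    exact hdf i _ (hz1 i) (hz2' i) T hT _ (hx i)
  have b2 : ∀ i, T⁻¹ * (∫ t in (0 : ℝ)..T, ‖zf (e i) (z i) t‖ ^ A i) ≤ M := by
    intro i
    refine le_trans ?_ (hC2M i)
    simp_rw [u1_nz]
    exact hz2 i _ (hz1 i) (hz2' i) T hT _ (hx i)
  have b3 : ∀ i, T⁻¹ * (∫ t in (0 : ℝ)..T, ‖sf (e i) (z i) (T ^ δ) t‖ ^ A i) ≤ M := by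
    intro i
    refine le_trans ?_ (hC3M i)
    simp_rw [u1_ns]
    exact hz3 i (A i) (hp1 i) (hpm i) _ (hz1 i) T hT _
  have k5 := h5 (fun i t => ((M : ℝ) : ℂ)⁻¹ * zf (e i) (z i) t)
    (fun i t => ((M : ℝ) : ℂ)⁻¹ * sf (e i) (z i) (T ^ δ) t)
    (fun i => continuous_const.mul (cF i)) (fun i => continuous_const.mul (cB i))
    T (T ^ (-r0)) hT0 (by positivity)
    (Real.rpow_le_one_of_one_le_of_nonpos hT (by linarith))
    (by
      intro i
      have e : ∀ t, ((M : ℝ) : ℂ)⁻¹ * zf (e i) (z i) t - ((M : ℝ) : ℂ)⁻¹ * sf (e i) (z i) (T ^ δ) t =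
          ((M : ℝ) : ℂ)⁻¹ * (zf (e i) (z i) t - sf (e i) (z i) (T ^ δ) t) := fun t => by ring
      simp_rw [e]
      exact v4_scale hM1 (hp1 i) hT0 (b1 i))
    (by
      intro i
      exact v4_scale hM1 (hp1 i) hT0 (by rw [mul_one]; exact b2 i))
    (by
      intro i
      exact v4_scale hM1 (hp1 i) hT0 (by rw [mul_one]; exact b3 i))
  have hprod : ∀ t : ℝ, ‖∏ i, ((M : ℝ) : ℂ)⁻¹ * zf (e i) (z i) t -
      ∏ i, ((M : ℝ) : ℂ)⁻¹ * sf (e i) (z i) (T ^ δ) t‖ =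
      (M ^ Fintype.card ι)⁻¹ * ‖∏ i, zf (e i) (z i) t - ∏ i, sf (e i) (z i) (T ^ δ) t‖ := by
    intro t
    rw [Finset.prod_mul_distrib, Finset.prod_mul_distrib, Finset.prod_const, Finset.card_univ,
      ← mul_sub, norm_mul, norm_pow, norm_inv, Complex.norm_real, Real.norm_of_nonneg hM0.le,
      inv_pow]
  simp_rw [hprod] at k5
  rw [intervalIntegral.integral_const_mul] at k5
  have hMk : 0 < M ^ Fintype.card ι := by positivity
  have e : T⁻¹ * ((M ^ Fintype.card ι)⁻¹ * (∫ t in (0 : ℝ)..T,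
      ‖∏ i, zf (e i) (z i) t - ∏ i, sf (e i) (z i) (T ^ δ) t‖)) =
      (M ^ Fintype.card ι)⁻¹ * (T⁻¹ * ∫ t in (0 : ℝ)..T,
      ‖∏ i, zf (e i) (z i) t - ∏ i, sf (e i) (z i) (T ^ δ) t‖) := by ring
  rw [e, inv_mul_le_iff₀ hMk, ← Real.rpow_mul hT0.le] at k5
  refine k5.trans (le_of_eq ?_)
  rw [← mul_assoc]
  congr 2
  ring

end OL
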