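import Pool.Agent.Lib.MP_069854_nt.R9.U0
import Pool.Agent.Lib.MP_069854_nt.R8.M6

/-! # Sums of exponentials -/

set_option autoImplicit false

open Complex MeasureTheory Set Filter Topology
open scoped ComplexConjugate

namespace OL

lemma u2_norm (c : ℂ) (x : ℝ) : ‖c * ei x‖ = ‖c‖ := by
  rw [norm_mul, ei_norm, mul_one]

lemma u2_summable {c : ℕ → ℂ} (hc : Summable fun n => ‖c n‖) (u : ℕ → ℝ) (t : ℝ) :
    Summable fun n => ‖c n * ei (t * u n)‖ := by
  simp_rw [u2_norm]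
  exact hc

lemma u2_nonneg {M : ℝ} {f : ℝ → ℂ} (hf : AP M f) : 0 ≤ M := by
  obtain ⟨c, _, _, hM, _⟩ := hf
  exact (tsum_nonneg fun n => norm_nonneg (c n)).trans hM

/-- the constant `1` -/
lemma u2_one : AP 1 (fun _ => (1 : ℂ)) := by
  have h1 : HasSum (fun n : ℕ => ‖(if n = 0 then (1 : ℂ) else 0)‖) 1 := by
    have h2 : (fun n : ℕ => ‖(if n = 0 then (1 : ℂ) else 0)‖) = fun n : ℕ => if n = 0 then (1 : ℝ) else 0 := by
      funext n
      split_ifs <;> simp
    rw [h2]
    exact hasSum_ite_eq 0 1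
  refine ⟨fun n => if n = 0 then 1 else 0, fun _ => 0, h1.summable, h1.tsum_eq.le, fun t => ?_⟩
  have h3 : (fun n : ℕ => (if n = 0 then (1 : ℂ) else 0) * ei (t * 0)) = fun n : ℕ => if n = 0 then (1 : ℂ) else 0 := by
    funext n
    rw [mul_zero, ei_zero, mul_one]
  rw [h3, tsum_ite_eq]

/-- translation -/
lemma u2_shift {M : ℝ} {f : ℝ → ℂ} (hf : AP M f) (x : ℝ) : AP M (fun t => f (t + x)) := by
  obtain ⟨c, u, hc, hM, h⟩ := hf
  refine ⟨fun n => c n * ei (x * u n), u, ?_, ?_, fun t => ?_⟩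
  · simp_rw [u2_norm]
    exact hc
  · simp_rw [u2_norm]
    exact hM
  · show f (t + x) = ∑' n, c n * ei (x * u n) * ei (t * u n)
    rw [h]
    congr 1
    funext n
    rw [mul_assoc, ← ei_add]
    congr 2
    ring

/-- complex conjugation -/
lemma u2_conj {M : ℝ} {f : ℝ → ℂ} (hf : AP M f) : AP M (fun t => conj (f t)) := by
  obtain ⟨c, u, hc, hM, h⟩ := hf
  refine ⟨fun n => conj (c n), fun n => -u n, ?_, ?_, fun t => ?_⟩
  · simp_rw [Complex.norm_conj]
    exact hc
  · simp_rw [Complex.norm_conj]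
    exact hM
  · show conj (f t) = ∑' n, conj (c n) * ei (t * -u n)
    rw [h, Complex.conj_tsum]
    congr 1
    funext n
    rw [map_mul, ei_conj]
    congr 2
    ring

/-- the smoothed series -/
lemma u2_Sx {σ X : ℝ} (hX : 0 < X) (hσ : 0 ≤ σ) : AP X (fun t => Sx σ X t) := by
  obtain ⟨g1, g2⟩ := E2_geo hX
  have hle : ∀ n : ℕ, ‖((Real.exp (-((n + 1 : ℝ) / X)) * (n + 1 : ℝ) ^ (-σ) : ℝ) : ℂ)‖ ≤
      Real.exp (-((n + 1 : ℝ) / X)) := by
    intro n
    have hn : (0 : ℝ) ≤ (n : ℝ) := Nat.cast_nonneg n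
    have h1 : (n + 1 : ℝ) ^ (-σ) ≤ 1 :=
      Real.rpow_le_one_of_one_le_of_nonpos (by linarith) (by linarith)
    rw [Complex.norm_real, Real.norm_of_nonneg (mul_nonneg (Real.exp_pos _).le
      (Real.rpow_nonneg (by linarith) _))]
    exact mul_le_of_le_one_right (Real.exp_pos _).le h1
  have hs : Summable fun n : ℕ =>
      ‖((Real.exp (-((n + 1 : ℝ) / X)) * (n + 1 : ℝ) ^ (-σ) : ℝ) : ℂ)‖ :=
    Summable.of_nonneg_of_le (fun n => norm_nonneg _) hle g1
  refine ⟨fun n => ((Real.exp (-((n + 1 : ℝ) / X)) * (n + 1 : ℝ) ^ (-σ) : ℝ) : ℂ),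
    fun n => -Real.log (n + 1 : ℝ), hs, (hs.tsum_le_tsum hle g1).trans g2, fun t => ?_⟩
  show Sx σ X t = ∑' n : ℕ, ((Real.exp (-((n + 1 : ℝ) / X)) * (n + 1 : ℝ) ^ (-σ) : ℝ) : ℂ) *
    ei (t * -Real.log (n + 1 : ℝ))
  unfold Sx
  congr 1
  funext n
  congr 2
  ring

/-- Row `u-2`, part 1. PROOF: `c n d m`, frequencies `u n + v m`, over `ℕ × ℕ ≃ ℕ` (`Nat.pairEquiv` or `Denumerable`); `tsum_mul_tsum_of_summable_norm`,
`Summable.mul_norm`, `ei_add`. -/
theorem AP_mul {M N : ℝ} {f g : ℝ → ℂ} (hf : AP M f) (hg : AP N g) : AP (M * N) (fun t => f t * g t) := by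
  have hM0 := u2_nonneg hf
  obtain ⟨c, u, hc, hM, h⟩ := hf
  obtain ⟨d, v, hd, hN, h'⟩ := hg
  obtain ⟨φ, _⟩ : ∃ φ : ℕ ≃ ℕ × ℕ, φ = Nat.pairEquiv.symm := ⟨_, rfl⟩
  have hcd : Summable fun x : ℕ × ℕ => ‖c x.1 * d x.2‖ := hc.mul_norm hd
  refine ⟨fun n => c (φ n).1 * d (φ n).2, fun n => u (φ n).1 + v (φ n).2, ?_, ?_, fun t => ?_⟩
  · exact (Equiv.summable_iff φ).2 hcd
  · have e1 : ∑' n : ℕ, ‖c (φ n).1 * d (φ n).2‖ = ∑' x : ℕ × ℕ, ‖c x.1 * d x.2‖ :=
      φ.tsum_eq fun x : ℕ × ℕ => ‖c x.1 * d x.2‖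
    have hc' : Summable fun n => ‖(‖c n‖ : ℝ)‖ := by simpa using hc
    have hd' : Summable fun n => ‖(‖d n‖ : ℝ)‖ := by simpa using hd
    have e2 : ∑' x : ℕ × ℕ, ‖c x.1 * d x.2‖ = (∑' n, ‖c n‖) * ∑' n, ‖d n‖ := by
      rw [tsum_mul_tsum_of_summable_norm hc' hd']
      congr 1
      funext x
      exact norm_mul _ _
    rw [e1, e2]
    exact mul_le_mul hM hN (tsum_nonneg fun n => norm_nonneg _) hM0
  · have e1 : ∑' n : ℕ, c (φ n).1 * d (φ n).2 * ei (t * (u (φ n).1 + v (φ n).2)) =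
        ∑' x : ℕ × ℕ, c x.1 * d x.2 * ei (t * (u x.1 + v x.2)) :=
      φ.tsum_eq fun x : ℕ × ℕ => c x.1 * d x.2 * ei (t * (u x.1 + v x.2))
    show f t * g t = _
    rw [e1, h, h', tsum_mul_tsum_of_summable_norm (u2_summable hc u t) (u2_summable hd v t)]
    congr 1
    funext x
    rw [mul_add, ei_add]
    ring

/-- part 2. PROOF: `AP 1` for the constant `1` (one exponential of frequency `0`), induction over the finset with part 1. -/
theorem AP_prod {ι : Type*} [Fintype ι] {M : ℝ} {f : ι → ℝ → ℂ} (h : ∀ i, AP M (f i)) :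
    AP (M ^ Fintype.card ι) (fun t => ∏ i, f i t) := by
  classical
  have key : ∀ s : Finset ι, AP (M ^ s.card) (fun t => ∏ i ∈ s, f i t) := by
    intro s
    induction s using Finset.induction_on with
    | empty =>
      simp only [Finset.card_empty, pow_zero, Finset.prod_empty]
      exact u2_one
    | insert i s hi ih =>
      have h1 := AP_mul (h i) ih
      rw [Finset.card_insert_of_notMem hi, pow_succ']
      have h2 : (fun t => ∏ j ∈ insert i s, f j t) = fun t => f i t * ∏ j ∈ s, f j t := by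
        funext t
        rw [Finset.prod_insert hi]
      rw [h2]
      exact h1
  exact key Finset.univ

/-- part 3. PROOF: definition of `Sx` (`OL/Defs.lean`): coefficients `e^{-(n+1)/X} (n+1)^{-σ} ei(-x log(n+1))`, frequencies `- log (n+1)`; total mass
`≤ ∑ e^{-(n+1)/X} ≤ X` (`E2_geo`, as in `M3_sum0`). The conjugate: conjugate coefficients, opposite frequencies (`ei_conj`). -/
theorem AP_sf (e : Bool) {z : ℂ} {X : ℝ} (hX : 0 < X) (hz : 0 ≤ z.re) : AP X (fun t => sf e z X t) := by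
  have h1 : AP X (fun t => Sx (1 / 2 + z.re) X t) := u2_Sx hX (by linarith)
  cases e with
  | true =>
    have : (fun t => sf true z X t) = fun t => Sx (1 / 2 + z.re) X (t + z.im) := by
      funext t
      simp [sf]
    rw [this]
    exact u2_shift h1 z.im
  | false =>
    have : (fun t => sf false z X t) = fun t => conj (Sx (1 / 2 + z.re) X (t + -z.im)) := by
      funext t
      simp [sf]
    rw [this]
    exact u2_conj (u2_shift h1 (-z.im))

/-- part 4 -/
theorem AP_norm {M : ℝ} {f : ℝ → ℂ} (hf : AP M f) (t : ℝ) : ‖f t‖ ≤ M := by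
  obtain ⟨c, u, hc, hM, h⟩ := hf
  rw [h]
  refine (norm_tsum_le_tsum_norm (u2_summable hc u t)).trans ?_
  simp_rw [u2_norm]
  exact hM

/-- part 5 -/
theorem AP_cont {M : ℝ} {f : ℝ → ℂ} (hf : AP M f) : Continuous f := by
  obtain ⟨c, u, hc, hM, h⟩ := hf
  have h1 : f = fun t => ∑' n, c n * ei (t * u n) := funext h
  rw [h1]
  refine continuous_tsum (fun n => ?_) hc (fun n t => (u2_norm _ _).le)
  exact continuous_const.mul (ei_cont.comp (continuous_id.mul continuous_const))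

/-- part 6. PROOF: exchange sum and integral (`intervalIntegral.hasSum_integral_of_dominated_convergence`, the sum of the norms is summable and `G` is
bounded on the compact interval): `∫ G f = ∑ c n ∫ G ei(t u n)`. -/
theorem AP_int {M K : ℝ} {f G : ℝ → ℂ} (hf : AP M f) {a b : ℝ} (hG : ContinuousOn G (Set.uIcc a b))
    (hK : ∀ u : ℝ, ‖∫ t in a..b, G t * ei (t * u)‖ ≤ K) : ‖∫ t in a..b, G t * f t‖ ≤ M * K := by
  obtain ⟨c, u, hc, hM, h⟩ := hf
  have hK0 : 0 ≤ K := (norm_nonneg _).trans (hK 0)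
  obtain ⟨B, hB⟩ := isCompact_uIcc.exists_bound_of_continuousOn hG
  have hmem : ∀ t, t ∈ Set.uIoc a b → t ∈ Set.uIcc a b := fun t ht => Set.uIoc_subset_uIcc ht
  have hs : HasSum (fun n => ∫ t in a..b, G t * (c n * ei (t * u n))) (∫ t in a..b, G t * f t) := by
    refine intervalIntegral.hasSum_integral_of_dominated_convergence (fun n _ => B * ‖c n‖) ?_ ?_ ?_ ?_ ?_
    · intro n
      have h1 : ContinuousOn (fun t : ℝ => G t * (c n * ei (t * u n))) (Set.uIcc a b) :=
        hG.mul (continuous_const.mul (ei_cont.comp (continuous_id.mul continuous_const))).continuousOn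
      exact (h1.mono Set.uIoc_subset_uIcc).aestronglyMeasurable measurableSet_uIoc
    · intro n
      refine Eventually.of_forall fun t ht => ?_
      rw [norm_mul, u2_norm]
      exact mul_le_mul_of_nonneg_right (hB t (hmem t ht)) (norm_nonneg _)
    · exact Eventually.of_forall fun t _ => hc.mul_left B
    · exact intervalIntegrable_const
    · refine Eventually.of_forall fun t _ => ?_
      rw [h t]
      exact ((u2_summable hc u t).of_norm.hasSum).mul_left (G t)
  have hterm : ∀ n, ‖∫ t in a..b, G t * (c n * ei (t * u n))‖ ≤ ‖c n‖ * K := by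
    intro n
    have e1 : ∫ t in a..b, G t * (c n * ei (t * u n)) = c n * ∫ t in a..b, G t * ei (t * u n) := by
      rw [← intervalIntegral.integral_const_mul]
      congr 1
      funext t
      ring
    rw [e1, norm_mul]
    exact mul_le_mul_of_nonneg_left (hK (u n)) (norm_nonneg _)
  rw [← hs.tsum_eq]
  have hsn : Summable fun n => ‖∫ t in a..b, G t * (c n * ei (t * u n))‖ :=
    Summable.of_nonneg_of_le (fun n => norm_nonneg _) hterm (hc.mul_right K)
  calc ‖∑' n, ∫ t in a..b, G t * (c n * ei (t * u n))‖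
      ≤ ∑' n, ‖∫ t in a..b, G t * (c n * ei (t * u n))‖ := norm_tsum_le_tsum_norm hsn
    _ ≤ ∑' n, ‖c n‖ * K := hsn.tsum_le_tsum hterm (hc.mul_right K)
    _ = (∑' n, ‖c n‖) * K := tsum_mul_right
    _ ≤ M * K := mul_le_mul_of_nonneg_right hM hK0

end OL
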