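import Pool.Agent.Lib.MP_069854_nt.R9.V7a

/-! # The digamma function and quotients of Gamma functions in a strip -/

set_option autoImplicit false

open Complex MeasureTheory Set Filter Topology
open scoped ComplexConjugate

namespace OL

/-- Row `v-7b`. PROOF: put `f(x) = Γ(s + x w)`, `x ∈ [0,1]`; `Γ ≠ 0` and differentiable there, `f' = w ψ(s+xw) f`, so
`Γ(s+w) = Γ(s) exp(w ∫_0^1 ψ(s+xw) dx)` (the derivative of `f(x) exp(-w ∫_0^x ψ(s+yw) dy)` vanishes; `ψ` is continuous on the segment).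
For `Im s ≥ T0 ≥ 2L+2` the points `s + xw` have imaginary part `≥ Im s / 2 ≥ 1` and real part in `(0,1)` (convexity), so by `V7_digamma` and
`‖log(s+xw) - log s‖ ≤ 2 ‖w‖ / Im s`: `w ∫ ψ = w log s + ε`, `‖ε‖ ≤ C'/Im s ≤ 1`, and `‖exp(w log s)(exp ε - 1)‖ ≤ 2 ‖ε‖ ‖s^w‖`. -/
theorem V7_ratio {L : ℝ} (hL : 0 ≤ L) : ∃ C T0 : ℝ, 0 ≤ C ∧ 1 ≤ T0 ∧ ∀ s w : ℂ, 0 < s.re → s.re < 1 →
    0 < (s + w).re → (s + w).re < 1 → T0 ≤ s.im → ‖w‖ ≤ L →
    ‖Gamma (s + w) / Gamma s - s ^ w‖ ≤ C / s.im * ‖s ^ w‖ := by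
  obtain ⟨C1, hC1, hψ⟩ := V7_digamma
  have hA0 : 0 < L * (2 * C1 + 2 * L) + 1 := by positivity
  refine ⟨2 * (L * (2 * C1 + 2 * L) + 1), max (2 * L + 2) (L * (2 * C1 + 2 * L) + 1), by positivity,
    le_max_of_le_left (by linarith), ?_⟩
  intro s w hs0 hs1 hsw0 hsw1 hT hw
  have hT1 : 2 * L + 2 ≤ s.im := (le_max_left _ _).trans hT
  have hT2 : L * (2 * C1 + 2 * L) + 1 ≤ s.im := (le_max_right _ _).trans hT
  have hsim : 0 < s.im := by linarith
  have hs_ne : s ≠ 0 := by
    intro h
    rw [h] at hs0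
    simp at hs0
  have hwim : |w.im| ≤ L := (abs_im_le_norm w).trans hw
  rw [abs_le] at hwim
  -- points of the segment
  have hre : ∀ x : ℝ, 0 ≤ x → x ≤ 1 → 0 < (s + x * w).re ∧ (s + x * w).re < 1 := by
    intro x h0 h1
    have e1 : (s + x * w).re = (1 - x) * s.re + x * (s + w).re := by
      simp
      ring
    rw [e1]
    constructor
    · rcases h0.eq_or_lt with h | h
      · rw [← h]
        simpa using hs0
      · have h2 := mul_pos h hsw0
        have h3 : 0 ≤ (1 - x) * s.re := mul_nonneg (by linarith) hs0.le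
        linarith
    · rcases h0.eq_or_lt with h | h
      · rw [← h]
        simpa using hs1
      · have h2 := mul_lt_mul_of_pos_left hsw1 h
        have h3 : (1 - x) * s.re ≤ (1 - x) * 1 := mul_le_mul_of_nonneg_left hs1.le (by linarith)
        linarith
  have him : ∀ x : ℝ, 0 ≤ x → x ≤ 1 → s.im / 2 ≤ (s + x * w).im := by
    intro x h0 h1
    have e1 : (s + x * w).im = s.im + x * w.im := by
      simp
    rw [e1]
    have h2 : x * (-L) ≤ x * w.im := mul_le_mul_of_nonneg_left hwim.1 h0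
    have h3 : x * L ≤ 1 * L := mul_le_mul_of_nonneg_right h1 hL
    linarith
  have hG : ∀ z : ℂ, 0 < z.re → Gamma z ≠ 0 := fun z hz => Gamma_ne_zero_of_re_pos hz
  have hGd : ∀ z : ℂ, 0 < z.re → HasDerivAt Gamma (digamma z * Gamma z) z := by
    intro z hz
    have h1 : DifferentiableAt ℂ Gamma z := by
      refine differentiableAt_Gamma _ fun m hm => ?_
      rw [hm] at hz
      simp at hz
      have : (0:ℝ) ≤ m := Nat.cast_nonneg m
      linarith
    have h2 := h1.hasDerivAt
    have h3 : digamma z * Gamma z = deriv Gamma z := by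
      rw [digamma, logDeriv_apply, div_mul_cancel₀ _ (hG z hz)]
    rw [h3]
    exact h2
  -- the logarithm
  have hlog : ∀ x : ℝ, 0 ≤ x → x ≤ 1 → ‖log (s + x * w) - log s‖ ≤ 2 * L / s.im := by
    intro x h0 h1
    have hconv : Convex ℝ {z : ℂ | s.im / 2 ≤ z.im} := by
      have : {z : ℂ | s.im / 2 ≤ z.im} = Complex.imLm ⁻¹' (Ici (s.im / 2)) := rfl
      rw [this]
      exact (convex_Ici _).linear_preimage Complex.imLm
    have key := Convex.norm_image_sub_le_of_norm_hasDerivWithin_le (𝕜 := ℂ)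
      (f := fun z : ℂ => log z) (f' := fun z : ℂ => z⁻¹) (C := 2 / s.im)
      (s := {z : ℂ | s.im / 2 ≤ z.im}) (x := s) (y := s + x * w)
      (fun z hz => by
        have hz1 : s.im / 2 ≤ z.im := hz
        have hz2 : z ∈ slitPlane := by
          rw [mem_slitPlane_iff]
          right
          intro h
          linarith
        exact (hasDerivAt_log hz2).hasDerivWithinAt)
      (fun z hz => by
        have hz1 : s.im / 2 ≤ z.im := hz
        have hz2 : s.im / 2 ≤ ‖z‖ := hz1.trans ((le_abs_self _).trans (abs_im_le_norm z))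
        rw [norm_inv]
        have e1 : 2 / s.im = (s.im / 2)⁻¹ := by
          rw [inv_div]
        rw [e1]
        exact inv_anti₀ (by positivity) hz2)
      hconv (by
        show s.im / 2 ≤ s.im
        linarith) (him x h0 h1)
    refine key.trans ?_
    have e2 : s + x * w - s = x * w := by ring
    rw [e2, norm_mul, norm_real, Real.norm_eq_abs, abs_of_nonneg h0]
    have h3 : x * ‖w‖ ≤ 1 * L := mul_le_mul h1 hw (norm_nonneg _) zero_le_one
    calc 2 / s.im * (x * ‖w‖) ≤ 2 / s.im * (1 * L) :=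
          mul_le_mul_of_nonneg_left h3 (by positivity)
      _ = 2 * L / s.im := by ring
  -- the function g
  obtain ⟨K, hK⟩ : ∃ K : ℝ, K = (L * (2 * C1 + 2 * L) + 1) / s.im := ⟨_, rfl⟩
  have hK0 : 0 < K := by
    rw [hK]
    exact div_pos hA0 hsim
  have hK1 : K ≤ 1 := by
    rw [hK, div_le_one hsim]
    exact hT2
  have hbd : ∀ x : ℝ, 0 ≤ x → x ≤ 1 → ‖w * (digamma (s + x * w) - log s)‖ ≤ K := by
    intro x h0 h1
    have h2 := hψ (s + x * w) (hre x h0 h1).1 (hre x h0 h1).2 (by
      have := him x h0 h1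
      linarith)
    have h3 : C1 / (s + x * w).im ≤ C1 / (s.im / 2) :=
      div_le_div_of_nonneg_left hC1 (by positivity) (him x h0 h1)
    have h4 := hlog x h0 h1
    have h5 : ‖digamma (s + x * w) - log s‖ ≤ (2 * C1 + 2 * L) / s.im := by
      calc ‖digamma (s + x * w) - log s‖
          = ‖(digamma (s + x * w) - log (s + x * w)) + (log (s + x * w) - log s)‖ := by
            congr 1
            ring
        _ ≤ C1 / (s.im / 2) + 2 * L / s.im := (norm_add_le _ _).trans (add_le_add (h2.trans h3) h4)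
        _ = (2 * C1 + 2 * L) / s.im := by
            field_simp
    rw [norm_mul, hK]
    calc ‖w‖ * ‖digamma (s + x * w) - log s‖ ≤ L * ((2 * C1 + 2 * L) / s.im) :=
          mul_le_mul hw h5 (norm_nonneg _) hL
      _ = (L * (2 * C1 + 2 * L)) / s.im := by ring
      _ ≤ (L * (2 * C1 + 2 * L) + 1) / s.im := by
          apply div_le_div_of_nonneg_right _ hsim.le
          linarith
  let g : ℝ → ℂ := fun x => Gamma (s + x * w) * exp (-(x * (w * log s)))
  have hgd : ∀ x : ℝ, 0 ≤ x → x ≤ 1 →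
      HasDerivAt g (w * (digamma (s + x * w) - log s) * g x) x := by
    intro x h0 h1
    have h2 : HasDerivAt (fun x : ℝ => s + (x : ℂ) * w) w x := by
      have h3 := ((hasDerivAt_id x).ofReal_comp.mul_const w).const_add s
      simpa using h3
    have h4 : HasDerivAt (fun x : ℝ => Gamma (s + (x : ℂ) * w))
        (digamma (s + x * w) * Gamma (s + x * w) * w) x :=
      (hGd _ (hre x h0 h1).1).comp_of_eq x h2 rfl
    have h5 : HasDerivAt (fun x : ℝ => exp (-((x : ℂ) * (w * log s))))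
        (exp (-((x : ℂ) * (w * log s))) * (-(w * log s))) x := by
      have h6 := ((hasDerivAt_id x).ofReal_comp.mul_const (w * log s)).neg
      have h7 := h6.cexp
      simpa using h7
    have h8 := h4.mul h5
    have e1 : w * (digamma (s + x * w) - log s) * g x =
        digamma (s + x * w) * Gamma (s + x * w) * w * exp (-((x : ℂ) * (w * log s))) +
        Gamma (s + (x : ℂ) * w) * (exp (-((x : ℂ) * (w * log s))) * (-(w * log s))) := by
      show w * (digamma (s + x * w) - log s) * (Gamma (s + x * w) * exp (-(x * (w * log s)))) = _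
      ring
    rw [e1]
    exact h8
  have hgr := norm_le_gronwallBound_of_norm_deriv_right_le (f := fun x => g x - g 0)
    (f' := fun x => w * (digamma (s + x * w) - log s) * g x) (δ := 0) (K := K) (ε := K * ‖g 0‖)
    (a := 0) (b := 1)
    (fun x hx => ((hgd x hx.1 hx.2).continuousAt.sub continuousAt_const).continuousWithinAt)
    (fun x hx => ((hgd x hx.1 hx.2.le).sub_const (g 0)).hasDerivWithinAt)
    (by simp)
    (fun x hx => by
      rw [norm_mul]
      have h1 := hbd x hx.1 hx.2.le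
      have h2 : ‖g x‖ ≤ ‖g x - g 0‖ + ‖g 0‖ := by
        calc ‖g x‖ = ‖(g x - g 0) + g 0‖ := by rw [sub_add_cancel]
          _ ≤ _ := norm_add_le _ _
      calc ‖w * (digamma (s + x * w) - log s)‖ * ‖g x‖ ≤ K * (‖g x - g 0‖ + ‖g 0‖) :=
            mul_le_mul h1 h2 (norm_nonneg _) hK0.le
        _ = K * ‖g x - g 0‖ + K * ‖g 0‖ := by ring) 1 ⟨zero_le_one, le_refl 1⟩
  rw [gronwallBound_of_K_ne_0 hK0.ne'] at hgr
  have e0 : g 0 = Gamma s := by
    show Gamma (s + ((0 : ℝ) : ℂ) * w) * exp (-(((0 : ℝ) : ℂ) * (w * log s))) = Gamma s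
    simp
  have e1 : g 1 = Gamma (s + w) * exp (-(w * log s)) := by
    show Gamma (s + ((1 : ℝ) : ℂ) * w) * exp (-(((1 : ℝ) : ℂ) * (w * log s))) = _
    simp
  have hGs : Gamma s ≠ 0 := hG s hs0
  have hGs' : 0 < ‖Gamma s‖ := norm_pos_iff.2 hGs
  have h9 : ‖Gamma (s + w) * exp (-(w * log s)) - Gamma s‖ ≤ 2 * K * ‖Gamma s‖ := by
    have h10 : ‖g 1 - g 0‖ ≤ ‖g 0‖ * (Real.exp K - 1) := by
      refine hgr.trans (le_of_eq ?_)
      have : K * ‖g 0‖ / K = ‖g 0‖ := by field_simp
      rw [this]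
      simp
    rw [e0, e1] at h10
    have h11 : Real.exp K - 1 ≤ 2 * K := by
      have h12 := Real.abs_exp_sub_one_le (x := K) (by
        rw [abs_of_pos hK0]
        exact hK1)
      rw [abs_of_pos hK0] at h12
      exact (le_abs_self _).trans h12
    calc _ ≤ ‖Gamma s‖ * (Real.exp K - 1) := h10
      _ ≤ ‖Gamma s‖ * (2 * K) := mul_le_mul_of_nonneg_left h11 hGs'.le
      _ = _ := by ring
  have e2 : s ^ w = exp (w * log s) := by
    rw [cpow_def_of_ne_zero hs_ne, mul_comm]
  have e3 : Gamma (s + w) / Gamma s - s ^ w =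
      (Gamma (s + w) * exp (-(w * log s)) - Gamma s) / Gamma s * s ^ w := by
    rw [e2]
    have h12 : exp (-(w * log s)) * exp (w * log s) = 1 := by
      rw [← exp_add]
      simp
    field_simp
    linear_combination (-Gamma (s + w)) * h12
  rw [e3, norm_mul, norm_div]
  apply mul_le_mul_of_nonneg_right _ (norm_nonneg _)
  rw [div_le_iff₀ hGs']
  refine h9.trans (le_of_eq ?_)
  rw [hK]
  ring

end OL
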