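import Pool.Agent.Lib.MP_069854_nt.R9.V0
import Pool.Agent.Lib.MP_069854_nt.R9.V7

/-! # The factor of the functional equation off the critical line -/

set_option autoImplicit false

open Complex MeasureTheory Set Filter Topology
open scoped ComplexConjugate

namespace OL

theorem v8_two_pi_ne : (2 * (Real.pi : ℂ)) ≠ 0 := by
  have : (Real.pi : ℂ) ≠ 0 := Complex.ofReal_ne_zero.mpr Real.pi_ne_zero
  exact mul_ne_zero two_ne_zero this

theorem v8_log_two_pi : Complex.log (2 * (Real.pi : ℂ)) = ((Real.log (2 * Real.pi) : ℝ) : ℂ) := by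
  rw [Complex.ofReal_log (by positivity)]
  push_cast
  rfl

theorem v8_cH (s : ℂ) : cH s = exp (-((Real.log (2 * Real.pi) : ℝ) : ℂ) * s) * Gamma s *
    (exp (-(Real.pi * s / 2 * I)) * (1 + exp (Real.pi * s * I))) := by
  unfold cH
  rw [Complex.cpow_def_of_ne_zero v8_two_pi_ne, v8_log_two_pi]
  have h1 : cos (Real.pi * s / 2) = exp (-(Real.pi * s / 2 * I)) * (1 + exp (Real.pi * s * I)) / 2 := by
    have h3 : exp (-(Real.pi * s / 2 * I)) * exp (Real.pi * s * I) = exp (Real.pi * s / 2 * I) := by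
      rw [← Complex.exp_add]
      congr 1
      ring
    rw [Complex.cos, mul_add, mul_one, h3, neg_mul]
    ring
  have h2 : ((Real.log (2 * Real.pi) : ℝ) : ℂ) * -s = -((Real.log (2 * Real.pi) : ℝ) : ℂ) * s := by ring
  rw [h1, h2]
  ring

theorem v8_pt {t : ℝ} (ht : 0 < t) (w : ℂ) :
    pt t w = exp (((Real.log t : ℝ) : ℂ) * w - ((Real.log (2 * Real.pi) : ℝ) : ℂ) * w) := by
  have h2 : (0 : ℝ) < 2 * Real.pi := by positivity
  have h3 : (0 : ℝ) < t / (2 * Real.pi) := div_pos ht h2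
  unfold pt
  rw [Complex.cpow_def_of_ne_zero (Complex.ofReal_ne_zero.mpr h3.ne'), ← Complex.ofReal_log h3.le,
    Real.log_div ht.ne' h2.ne']
  push_cast
  congr 1
  ring

theorem v8_norm_pt {t : ℝ} (ht : 0 < t) {w : ℂ} (hw : 0 ≤ w.re) : ‖pt t w‖ ≤ t ^ w.re := by
  have h2 : (1 : ℝ) ≤ 2 * Real.pi := by linarith [Real.pi_gt_three]
  have h3 : (0 : ℝ) < t / (2 * Real.pi) := by positivity
  unfold pt
  rw [Complex.norm_cpow_eq_rpow_re_of_pos h3]
  exact Real.rpow_le_rpow h3.le (div_le_self ht.le h2) hw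

theorem v8_log {t : ℝ} (ht : 0 < t) (u : ℂ) (hu : ‖u‖ / t ≤ 1 / 2) :
    log (u + t * I) = (Real.log t : ℝ) + (Real.pi / 2 * I + log (1 + (-(I * u / t)))) := by
  have htc : (t : ℂ) ≠ 0 := Complex.ofReal_ne_zero.mpr ht.ne'
  set z : ℂ := -(I * u / t) with hz
  have hzn : ‖z‖ ≤ 1 / 2 := by
    rw [hz, norm_neg, norm_div, norm_mul, Complex.norm_I, one_mul, Complex.norm_real,
      Real.norm_of_nonneg ht.le]
    exact hu
  have hre : 0 < (1 + z).re := by
    have h1 := Complex.abs_re_le_norm z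
    have h2 := neg_abs_le z.re
    rw [Complex.add_re, Complex.one_re]
    linarith
  have h1z : (1 + z) ≠ 0 := by
    intro h
    rw [h] at hre
    simp at hre
  have hprod : u + t * I = (t : ℂ) * (I * (1 + z)) := by
    rw [hz]
    field_simp
    have hI : I ^ 2 = -1 := Complex.I_sq
    linear_combination u * hI
  have harg : |(1 + z).arg| < Real.pi / 2 := Complex.abs_arg_lt_pi_div_two_iff.mpr (Or.inl hre)
  have hlog : log (I * (1 + z)) = log I + log (1 + z) := by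
    rw [Complex.log_mul_eq_add_log_iff Complex.I_ne_zero h1z, Complex.arg_I]
    have h3 := abs_lt.mp harg
    have h4 := Real.pi_pos
    exact ⟨by linarith [h3.1], by linarith [h3.2]⟩
  rw [hprod, Complex.log_ofReal_mul ht (mul_ne_zero Complex.I_ne_zero h1z), hlog, Complex.log_I]

theorem v8_three {a b c : ℂ} {m : ℝ} (ha : ‖a‖ ≤ m) (hb : ‖b‖ ≤ m) (hc : ‖c‖ ≤ m) (hm : m ≤ 1) :
    ‖(1 + a) * (1 + b) * (1 + c) - 1‖ ≤ 7 * m := by
  have h0 : 0 ≤ m := (norm_nonneg a).trans ha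
  have h1 : (1 + a) * (1 + b) * (1 + c) - 1 = a + b + c + (a * b + a * c + b * c) + a * b * c := by ring
  have hmm : m * m ≤ m := by nlinarith
  have hab : ‖a * b‖ ≤ m := by
    rw [norm_mul]
    exact (mul_le_mul ha hb (norm_nonneg _) h0).trans hmm
  have hac : ‖a * c‖ ≤ m := by
    rw [norm_mul]
    exact (mul_le_mul ha hc (norm_nonneg _) h0).trans hmm
  have hbc : ‖b * c‖ ≤ m := by
    rw [norm_mul]
    exact (mul_le_mul hb hc (norm_nonneg _) h0).trans hmm
  have habc : ‖a * b * c‖ ≤ m := by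
    rw [norm_mul]
    exact (mul_le_mul hab hc (norm_nonneg _) h0).trans hmm
  rw [h1]
  calc ‖a + b + c + (a * b + a * c + b * c) + a * b * c‖
      ≤ ‖a‖ + ‖b‖ + ‖c‖ + (‖a * b‖ + ‖a * c‖ + ‖b * c‖) + ‖a * b * c‖ := by
        refine (norm_add_le _ _).trans (add_le_add ((norm_add_le _ _).trans (add_le_add ?_ ?_)) le_rfl)
        · exact (norm_add_le _ _).trans (add_le_add (norm_add_le _ _) le_rfl)
        · exact (norm_add_le _ _).trans (add_le_add (norm_add_le _ _) le_rfl)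
    _ ≤ 7 * m := by linarith

theorem v8_exp_small {t : ℝ} (ht : 0 < t) {s : ℂ} (hs : t / 2 ≤ s.im) :
    ‖exp (Real.pi * s * I)‖ ≤ 1 / t := by
  rw [Complex.norm_exp]
  have h1 : (Real.pi * s * I : ℂ).re = -(Real.pi * s.im) := by
    simp
  have h2 : t ≤ Real.pi * s.im := by
    have := Real.pi_gt_three
    nlinarith
  have h3 := Real.add_one_le_exp t
  rw [h1, Real.exp_neg]
  rw [one_div]
  refine inv_anti₀ ht ?_
  have h4 : Real.exp t ≤ Real.exp (Real.pi * s.im) := Real.exp_le_exp.mpr h2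
  linarith

/-- Row `v-8`, part 1. PROOF: `riemannZeta_one_sub`. -/
theorem zeta_cH {s : ℂ} (hs : 0 < s.re) (hs1 : s ≠ 1) : riemannZeta (1 - s) = cH s * riemannZeta s := by
  have h : ∀ n : ℕ, s ≠ -n := by
    intro n h
    rw [h] at hs
    simp only [Complex.neg_re, Complex.natCast_re] at hs
    have := Nat.cast_nonneg (α := ℝ) n
    linarith
  rw [riemannZeta_one_sub h hs1]
  rfl

/-- part 2. PROOF: as `MP069854.chi_mul_one_sub` (`MP_069854_nt/Part03.lean`), `sin (π s) ≠ 0` as `0 < Re s < 1`. -/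
theorem cH_mul {s : ℂ} (hs : 0 < s.re) (hs1 : s.re < 1) : cH s * cH (1 - s) = 1 := by
  have hpi : (Real.pi : ℂ) ≠ 0 := Complex.ofReal_ne_zero.mpr Real.pi_ne_zero
  have hG : Gamma s ≠ 0 := Complex.Gamma_ne_zero_of_re_pos hs
  have hG' : Gamma (1 - s) ≠ 0 := Complex.Gamma_ne_zero_of_re_pos (by
    rw [Complex.sub_re, Complex.one_re]; linarith)
  have hrefl : Gamma s * Gamma (1 - s) = Real.pi / sin (Real.pi * s) := Complex.Gamma_mul_Gamma_one_sub s
  have hsin : sin (Real.pi * s) ≠ 0 := by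
    intro h
    rw [h, div_zero] at hrefl
    exact mul_ne_zero hG hG' hrefl
  have h1 : (2 * (Real.pi : ℂ)) ^ (-s) * (2 * (Real.pi : ℂ)) ^ (-(1 - s)) = (2 * (Real.pi : ℂ))⁻¹ := by
    rw [← Complex.cpow_add _ _ v8_two_pi_ne]
    have : -s + -(1 - s) = -1 := by ring
    rw [this, Complex.cpow_neg_one]
  have h2 : cos (Real.pi * (1 - s) / 2) = sin (Real.pi * s / 2) := by
    have : (Real.pi : ℂ) * (1 - s) / 2 = Real.pi / 2 - Real.pi * s / 2 := by ring
    rw [this, Complex.cos_pi_div_two_sub]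
  have h3 : sin (Real.pi * s) = 2 * sin (Real.pi * s / 2) * cos (Real.pi * s / 2) := by
    rw [← Complex.sin_two_mul]
    congr 1
    ring
  unfold cH
  rw [h2]
  calc 2 * (2 * (Real.pi : ℂ)) ^ (-s) * Gamma s * cos (Real.pi * s / 2) *
        (2 * (2 * (Real.pi : ℂ)) ^ (-(1 - s)) * Gamma (1 - s) * sin (Real.pi * s / 2))
      = 2 * ((2 * (Real.pi : ℂ)) ^ (-s) * (2 * (Real.pi : ℂ)) ^ (-(1 - s))) * (Gamma s * Gamma (1 - s)) *
        (2 * sin (Real.pi * s / 2) * cos (Real.pi * s / 2)) := by ring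
    _ = 1 := by
      rw [h1, hrefl, ← h3]
      field_simp

/-- part 3. PROOF: by part 2 with `s = 1/2 - a + it`: `cH (1/2 + a - it) = 1 / cH (1/2 - a + it)`, so the product is
`(2π)^(-(a+b)) * Γ(1/2+b+it)/Γ(1/2-a+it) * cos(π(1/2+b+it)/2)/cos(π(1/2-a+it)/2)`. `V7_ratio` with `s = 1/2 - a + it`, `w = a + b`:
the Gamma quotient is `s^w (1 + O(1/t))`; `s^w = (it)^w (1 + (1/2-a)/(it))^w = t^w e^{iπw/2} (1 + O(1/t))`; the cosine quotient is
`e^{-iπw/2} (1 + e^{iπ(1/2+b) - πt}) / (1 + e^{iπ(1/2-a) - πt}) = e^{-iπw/2} (1 + O(e^{-πt}))` (`cos z = (e^{iz} + e^{-iz})/2`). All constants depend only on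
`ρ, d, L`; take `T0` large. `‖pt t (a+b)‖ = (t/2π)^(Re (a+b))`. -/
theorem cH_pair {ρ d L : ℝ} (hρ : 0 < ρ) (hd : 0 < d) (hL : 0 ≤ L) : ∃ C T0 : ℝ, 0 ≤ C ∧ 1 ≤ T0 ∧
    ∀ a b : ℂ, ρ ≤ a.re → a.re ≤ 1 / 2 - d → ρ ≤ b.re → b.re ≤ 1 / 2 - d → |a.im| ≤ L → |b.im| ≤ L →
    ∀ t : ℝ, T0 ≤ t → ‖cH (1 / 2 + a - t * I) * cH (1 / 2 + b + t * I) - pt t (a + b)‖ ≤
      C * t ^ ((a + b).re - 1) := by
  obtain ⟨C1, T1, hC1, hT1, hV⟩ := V7_ratio (L := 1 + 2 * L) (by linarith)
  set K : ℝ := 3 / 2 * (1 + 2 * L) * (1 / 2 + L) with hK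
  have hK0 : 0 ≤ K := by positivity
  set M : ℝ := 2 * C1 + 2 * K + 4 with hM
  have hM0 : 0 ≤ M := by positivity
  refine ⟨7 * M, T1 + 4 * L + 2 + M + K, by positivity, by linarith, ?_⟩
  intro a b ha1 ha2 hb1 hb2 hai hbi t ht
  have hai' := abs_le.mp hai
  have hbi' := abs_le.mp hbi
  have ht0 : 0 < t := by linarith
  have hm1 : M / t ≤ 1 := by
    rw [div_le_one ht0]; linarith
  set u : ℂ := 1 / 2 - a with hu
  set s : ℂ := u + t * I with hs
  set w : ℂ := a + b with hw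
  have hure : u.re = 1 / 2 - a.re := by rw [hu]; simp
  have huim : u.im = -a.im := by rw [hu]; simp
  have hsre : s.re = 1 / 2 - a.re := by rw [hs]; simp [hure]
  have hsim : s.im = t - a.im := by rw [hs]; simp [huim]; ring
  have hwre : w.re = a.re + b.re := by rw [hw]; simp
  have hwim : w.im = a.im + b.im := by rw [hw]; simp
  have hswre : (s + w).re = 1 / 2 + b.re := by rw [Complex.add_re, hsre, hwre]; ring
  have hswim : (s + w).im = t + b.im := by rw [Complex.add_im, hsim, hwim]; ring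
  have hun : ‖u‖ ≤ 1 / 2 + L := by
    refine (Complex.norm_le_abs_re_add_abs_im u).trans ?_
    rw [hure, huim, abs_neg, abs_of_nonneg (by linarith)]
    linarith
  have hwn : ‖w‖ ≤ 1 + 2 * L := by
    refine (Complex.norm_le_abs_re_add_abs_im w).trans ?_
    rw [hwre, hwim, abs_of_nonneg (by linarith)]
    have := abs_add_le a.im b.im
    linarith
  have hut : ‖u‖ / t ≤ 1 / 2 := by
    rw [div_le_iff₀ ht0]; linarith
  -- the Gamma quotient
  have hG := hV s w (by rw [hsre]; linarith) (by rw [hsre]; linarith) (by rw [hswre]; linarith)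
    (by rw [hswre]; linarith) (by rw [hsim]; linarith) hwn
  have hs0 : s ≠ 0 := by
    intro h
    have : s.re = 0 := by rw [h]; rfl
    rw [hsre] at this
    linarith
  have hsw0 : s ^ w ≠ 0 := by
    rw [Complex.cpow_def_of_ne_zero hs0]
    exact Complex.exp_ne_zero _
  have hGs : Gamma s ≠ 0 := Complex.Gamma_ne_zero_of_re_pos (by rw [hsre]; linarith)
  set e1 : ℂ := (Gamma (s + w) / Gamma s - s ^ w) / s ^ w with he1
  have he1n : ‖e1‖ ≤ M / t := by
    rw [he1, norm_div, div_le_iff₀ (norm_pos_iff.mpr hsw0)]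
    refine hG.trans (mul_le_mul_of_nonneg_right ?_ (norm_nonneg _))
    have hsimp : t / 2 ≤ s.im := by rw [hsim]; linarith
    calc C1 / s.im ≤ C1 / (t / 2) := div_le_div_of_nonneg_left hC1 (by positivity) hsimp
      _ = 2 * C1 / t := by field_simp
      _ ≤ M / t := by gcongr; linarith
  have hGeq : Gamma (s + w) = Gamma s * (s ^ w * (1 + e1)) := by
    rw [he1]
    field_simp
    ring
  -- the power
  set z : ℂ := -(I * u / t) with hz
  have hzn : ‖z‖ = ‖u‖ / t := by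
    rw [hz, norm_neg, norm_div, norm_mul, Complex.norm_I, one_mul, Complex.norm_real,
      Real.norm_of_nonneg ht0.le]
  have hlog := v8_log ht0 u hut
  rw [← hs, ← hz] at hlog
  set η : ℂ := log (1 + z) * w with hη
  have hηn : ‖η‖ ≤ K / t := by
    rw [hη, norm_mul]
    have h1 := Complex.norm_log_one_add_half_le_self (z := z) (by rw [hzn]; exact hut)
    rw [hzn] at h1
    have h2 : ‖u‖ / t ≤ (1 / 2 + L) / t := by gcongr
    calc ‖log (1 + z)‖ * ‖w‖ ≤ (3 / 2 * ((1 / 2 + L) / t)) * (1 + 2 * L) := by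
          refine mul_le_mul (h1.trans (by linarith)) hwn (norm_nonneg _) (by positivity)
      _ = K / t := by rw [hK]; ring
  have hη1 : ‖η‖ ≤ 1 := hηn.trans (by rw [div_le_one ht0]; linarith)
  set e2 : ℂ := exp η - 1 with he2
  have he2n : ‖e2‖ ≤ M / t := by
    refine (Complex.norm_exp_sub_one_le hη1).trans ?_
    calc 2 * ‖η‖ ≤ 2 * (K / t) := by linarith
      _ = 2 * K / t := by ring
      _ ≤ M / t := by gcongr; linarith
  have hpow : s ^ w = exp (((Real.log t : ℝ) : ℂ) * w) * exp (Real.pi * w / 2 * I) * (1 + e2) := by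
    rw [he2, Complex.cpow_def_of_ne_zero hs0, hlog]
    have h1 : (1 : ℂ) + (exp η - 1) = exp η := by ring
    rw [h1, ← Complex.exp_add, ← Complex.exp_add]
    congr 1
    rw [hη]
    ring
  -- the cosines
  set α : ℂ := exp (Real.pi * (s + w) * I) with hα
  set β : ℂ := exp (Real.pi * s * I) with hβ
  have hαn : ‖α‖ ≤ 1 / t := v8_exp_small ht0 (by rw [hswim]; linarith)
  have hβn : ‖β‖ ≤ 1 / t := v8_exp_small ht0 (by rw [hsim]; linarith)
  have ht2 : 1 / t ≤ 1 / 2 := one_div_le_one_div_of_le two_pos (by linarith)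
  have h1β : 1 / 2 ≤ ‖1 + β‖ := by
    have h1 : ‖(1 : ℂ)‖ ≤ ‖1 + β‖ + ‖β‖ := by
      calc ‖(1 : ℂ)‖ = ‖(1 + β) - β‖ := by congr 1; ring
        _ ≤ ‖1 + β‖ + ‖β‖ := norm_sub_le _ _
    rw [norm_one] at h1
    linarith
  have h1β0 : 1 + β ≠ 0 := by
    intro h
    rw [h, norm_zero] at h1β
    linarith
  set e3 : ℂ := (α - β) / (1 + β) with he3
  have he3n : ‖e3‖ ≤ M / t := by
    rw [he3, norm_div, div_le_iff₀ (by linarith)]
    have h1 : ‖α - β‖ ≤ 1 / t + 1 / t := (norm_sub_le _ _).trans (add_le_add hαn hβn)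
    have h2 : M / t * (1 / 2) ≤ M / t * ‖1 + β‖ := mul_le_mul_of_nonneg_left h1β (by positivity)
    have h3 : 1 / t + 1 / t ≤ M / t * (1 / 2) := by
      have : (4 : ℝ) / t ≤ M / t := by gcongr; linarith
      have h5 : (4 : ℝ) / t = 4 * (1 / t) := by ring
      linarith
    linarith
  have h13 : 1 + α = (1 + β) * (1 + e3) := by
    rw [he3]
    field_simp
    ring
  -- assembly
  have hs1 : (1 : ℂ) / 2 + a - t * I = 1 - s := by rw [hs, hu]; ring
  have hs2 : (1 : ℂ) / 2 + b + t * I = s + w := by rw [hs, hu, hw]; ring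
  have hmul := cH_mul (s := s) (by rw [hsre]; linarith) (by rw [hsre]; linarith)
  have hcs : cH (s + w) = cH s * (pt t w * ((1 + e1) * (1 + e2) * (1 + e3))) := by
    rw [v8_cH (s + w), v8_cH s, v8_pt ht0 w, ← hα, ← hβ, h13, hGeq, hpow]
    have h1 : exp (-((Real.log (2 * Real.pi) : ℝ) : ℂ) * (s + w)) =
        exp (-((Real.log (2 * Real.pi) : ℝ) : ℂ) * s) * exp (-((Real.log (2 * Real.pi) : ℝ) : ℂ) * w) := by
      rw [← Complex.exp_add]; congr 1; ring
    have h2 : exp (-(Real.pi * (s + w) / 2 * I)) =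
        exp (-(Real.pi * s / 2 * I)) * exp (-(Real.pi * w / 2 * I)) := by
      rw [← Complex.exp_add]; congr 1; ring
    have h3 : exp (((Real.log t : ℝ) : ℂ) * w - ((Real.log (2 * Real.pi) : ℝ) : ℂ) * w) =
        exp (((Real.log t : ℝ) : ℂ) * w) * exp (-((Real.log (2 * Real.pi) : ℝ) : ℂ) * w) := by
      rw [← Complex.exp_add]; congr 1; ring
    have h4 : exp (Real.pi * w / 2 * I) * exp (-(Real.pi * w / 2 * I)) = 1 := by
      rw [← Complex.exp_add, add_neg_cancel, Complex.exp_zero]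
    rw [h1, h2, h3]
    linear_combination (exp (-((Real.log (2 * Real.pi) : ℝ) : ℂ) * s) *
      exp (-((Real.log (2 * Real.pi) : ℝ) : ℂ) * w) * Gamma s * exp (((Real.log t : ℝ) : ℂ) * w) *
      exp (-(Real.pi * s / 2 * I)) * (1 + e1) * (1 + e2) * (1 + e3) * (1 + β)) * h4
  have hfin : cH (1 / 2 + a - t * I) * cH (1 / 2 + b + t * I) =
      pt t w * ((1 + e1) * (1 + e2) * (1 + e3)) := by
    rw [hs1, hs2, hcs]
    linear_combination (pt t w * ((1 + e1) * (1 + e2) * (1 + e3))) * hmul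
  have hE := v8_three he1n he2n he3n hm1
  have hwre0 : 0 ≤ w.re := by rw [hwre]; linarith
  rw [hfin]
  have hfac : pt t w * ((1 + e1) * (1 + e2) * (1 + e3)) - pt t w =
      pt t w * ((1 + e1) * (1 + e2) * (1 + e3) - 1) := by ring
  rw [hfac, norm_mul, Real.rpow_sub ht0, Real.rpow_one]
  calc ‖pt t w‖ * ‖(1 + e1) * (1 + e2) * (1 + e3) - 1‖ ≤ t ^ w.re * (7 * (M / t)) :=
        mul_le_mul (v8_norm_pt ht0 hwre0) hE (norm_nonneg _) (Real.rpow_nonneg ht0.le _)
    _ = 7 * M * (t ^ w.re / t) := by ring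

end OL
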