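import Pool.Agent.Lib.MP_069854_nt.R9.U0
import Pool.Agent.Lib.MP_069854_nt.R9.V8

/-! # Single factors of the functional equation -/

set_option autoImplicit false

open Complex MeasureTheory Set Filter Topology
open scoped ComplexConjugate

namespace OL

/-- Row `u-3`, part 1. PROOF: the proof of `cH_pair` (`R9/V8.lean`) with `0 ≤ Re a`, `0 ≤ Re b` in place of `ρ ≤ Re a`, `ρ ≤ Re b`
(the positivity was not needed: `Re (1/2 - a)` and `Re (1/2 + b)` lie in `(0,1)` in any case). -/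
theorem cH_pair0 {d L : ℝ} (hd : 0 < d) (hL : 0 ≤ L) : ∃ C T0 : ℝ, 0 ≤ C ∧ 1 ≤ T0 ∧
    ∀ a b : ℂ, 0 ≤ a.re → a.re ≤ 1 / 2 - d → 0 ≤ b.re → b.re ≤ 1 / 2 - d → |a.im| ≤ L → |b.im| ≤ L →
    ∀ t : ℝ, T0 ≤ t → ‖cH (1 / 2 + a - t * I) * cH (1 / 2 + b + t * I) - pt t (a + b)‖ ≤
      C * t ^ ((a + b).re - 1) := by
  obtain ⟨C1, T1, hC1, hT1, hV⟩ := V7_ratio (L := 1 + 2 * L) (by linarith)
  set K : ℝ := 3 / 2 * (1 + 2 * L) * (1 / 2 + L) with hK
  have hK0 : 0 ≤ K := by positivity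
  set M : ℝ := 2 * C1 + 2 * K + 4 with hM
  have hM0 : 0 ≤ M := by positivity
  refine ⟨7 * M, T1 + 4 * L + 2 + M + K, by positivity, by linarith, ?_⟩
  intro a b ha1 ha2 hb1 hb2 hai hbi t ht
  have hai' := abs_le.mp hai
  have hbi' := abs_le.mp hbi
  have ht0 : 0 < t := by linarith
  have hm1 : M / t ≤ 1 := by
    rw [div_le_one ht0]; linarith
  set u : ℂ := 1 / 2 - a with hu
  set s : ℂ := u + t * I with hs
  set w : ℂ := a + b with hw
  have hure : u.re = 1 / 2 - a.re := by rw [hu]; simp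
  have huim : u.im = -a.im := by rw [hu]; simp
  have hsre : s.re = 1 / 2 - a.re := by rw [hs]; simp [hure]
  have hsim : s.im = t - a.im := by rw [hs]; simp [huim]; ring
  have hwre : w.re = a.re + b.re := by rw [hw]; simp
  have hwim : w.im = a.im + b.im := by rw [hw]; simp
  have hswre : (s + w).re = 1 / 2 + b.re := by rw [Complex.add_re, hsre, hwre]; ring
  have hswim : (s + w).im = t + b.im := by rw [Complex.add_im, hsim, hwim]; ring
  have hun : ‖u‖ ≤ 1 / 2 + L := by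
    refine (Complex.norm_le_abs_re_add_abs_im u).trans ?_
    rw [hure, huim, abs_neg, abs_of_nonneg (by linarith)]
    linarith
  have hwn : ‖w‖ ≤ 1 + 2 * L := by
    refine (Complex.norm_le_abs_re_add_abs_im w).trans ?_
    rw [hwre, hwim, abs_of_nonneg (by linarith)]
    have := abs_add_le a.im b.im
    linarith
  have hut : ‖u‖ / t ≤ 1 / 2 := by
    rw [div_le_iff₀ ht0]; linarith
  -- the Gamma quotient
  have hG := hV s w (by rw [hsre]; linarith) (by rw [hsre]; linarith) (by rw [hswre]; linarith)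
    (by rw [hswre]; linarith) (by rw [hsim]; linarith) hwn
  have hs0 : s ≠ 0 := by
    intro h
    have : s.re = 0 := by rw [h]; rfl
    rw [hsre] at this
    linarith
  have hsw0 : s ^ w ≠ 0 := by
    rw [Complex.cpow_def_of_ne_zero hs0]
    exact Complex.exp_ne_zero _
  have hGs : Gamma s ≠ 0 := Complex.Gamma_ne_zero_of_re_pos (by rw [hsre]; linarith)
  set e1 : ℂ := (Gamma (s + w) / Gamma s - s ^ w) / s ^ w with he1
  have he1n : ‖e1‖ ≤ M / t := by
    rw [he1, norm_div, div_le_iff₀ (norm_pos_iff.mpr hsw0)]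
    refine hG.trans (mul_le_mul_of_nonneg_right ?_ (norm_nonneg _))
    have hsimp : t / 2 ≤ s.im := by rw [hsim]; linarith
    calc C1 / s.im ≤ C1 / (t / 2) := div_le_div_of_nonneg_left hC1 (by positivity) hsimp
      _ = 2 * C1 / t := by field_simp
      _ ≤ M / t := by gcongr; linarith
  have hGeq : Gamma (s + w) = Gamma s * (s ^ w * (1 + e1)) := by
    rw [he1]
    field_simp
    ring
  -- the power
  set z : ℂ := -(I * u / t) with hz
  have hzn : ‖z‖ = ‖u‖ / t := by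
    rw [hz, norm_neg, norm_div, norm_mul, Complex.norm_I, one_mul, Complex.norm_real,
      Real.norm_of_nonneg ht0.le]
  have hlog := v8_log ht0 u hut
  rw [← hs, ← hz] at hlog
  set η : ℂ := log (1 + z) * w with hη
  have hηn : ‖η‖ ≤ K / t := by
    rw [hη, norm_mul]
    have h1 := Complex.norm_log_one_add_half_le_self (z := z) (by rw [hzn]; exact hut)
    rw [hzn] at h1
    have h2 : ‖u‖ / t ≤ (1 / 2 + L) / t := by gcongr
    calc ‖log (1 + z)‖ * ‖w‖ ≤ (3 / 2 * ((1 / 2 + L) / t)) * (1 + 2 * L) := by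
          refine mul_le_mul (h1.trans (by linarith)) hwn (norm_nonneg _) (by positivity)
      _ = K / t := by rw [hK]; ring
  have hη1 : ‖η‖ ≤ 1 := hηn.trans (by rw [div_le_one ht0]; linarith)
  set e2 : ℂ := exp η - 1 with he2
  have he2n : ‖e2‖ ≤ M / t := by
    refine (Complex.norm_exp_sub_one_le hη1).trans ?_
    calc 2 * ‖η‖ ≤ 2 * (K / t) := by linarith
      _ = 2 * K / t := by ring
      _ ≤ M / t := by gcongr; linarith
  have hpow : s ^ w = exp (((Real.log t : ℝ) : ℂ) * w) * exp (Real.pi * w / 2 * I) * (1 + e2) := by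
    rw [he2, Complex.cpow_def_of_ne_zero hs0, hlog]
    have h1 : (1 : ℂ) + (exp η - 1) = exp η := by ring
    rw [h1, ← Complex.exp_add, ← Complex.exp_add]
    congr 1
    rw [hη]
    ring
  -- the cosines
  set α : ℂ := exp (Real.pi * (s + w) * I) with hα
  set β : ℂ := exp (Real.pi * s * I) with hβ
  have hαn : ‖α‖ ≤ 1 / t := v8_exp_small ht0 (by rw [hswim]; linarith)
  have hβn : ‖β‖ ≤ 1 / t := v8_exp_small ht0 (by rw [hsim]; linarith)
  have ht2 : 1 / t ≤ 1 / 2 := one_div_le_one_div_of_le two_pos (by linarith)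
  have h1β : 1 / 2 ≤ ‖1 + β‖ := by
    have h1 : ‖(1 : ℂ)‖ ≤ ‖1 + β‖ + ‖β‖ := by
      calc ‖(1 : ℂ)‖ = ‖(1 + β) - β‖ := by congr 1; ring
        _ ≤ ‖1 + β‖ + ‖β‖ := norm_sub_le _ _
    rw [norm_one] at h1
    linarith
  have h1β0 : 1 + β ≠ 0 := by
    intro h
    rw [h, norm_zero] at h1β
    linarith
  set e3 : ℂ := (α - β) / (1 + β) with he3
  have he3n : ‖e3‖ ≤ M / t := by
    rw [he3, norm_div, div_le_iff₀ (by linarith)]
    have h1 : ‖α - β‖ ≤ 1 / t + 1 / t := (norm_sub_le _ _).trans (add_le_add hαn hβn)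
    have h2 : M / t * (1 / 2) ≤ M / t * ‖1 + β‖ := mul_le_mul_of_nonneg_left h1β (by positivity)
    have h3 : 1 / t + 1 / t ≤ M / t * (1 / 2) := by
      have : (4 : ℝ) / t ≤ M / t := by gcongr; linarith
      have h5 : (4 : ℝ) / t = 4 * (1 / t) := by ring
      linarith
    linarith
  have h13 : 1 + α = (1 + β) * (1 + e3) := by
    rw [he3]
    field_simp
    ring
  -- assembly
  have hs1 : (1 : ℂ) / 2 + a - t * I = 1 - s := by rw [hs, hu]; ring
  have hs2 : (1 : ℂ) / 2 + b + t * I = s + w := by rw [hs, hu, hw]; ring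
  have hmul := cH_mul (s := s) (by rw [hsre]; linarith) (by rw [hsre]; linarith)
  have hcs : cH (s + w) = cH s * (pt t w * ((1 + e1) * (1 + e2) * (1 + e3))) := by
    rw [v8_cH (s + w), v8_cH s, v8_pt ht0 w, ← hα, ← hβ, h13, hGeq, hpow]
    have h1 : exp (-((Real.log (2 * Real.pi) : ℝ) : ℂ) * (s + w)) =
        exp (-((Real.log (2 * Real.pi) : ℝ) : ℂ) * s) * exp (-((Real.log (2 * Real.pi) : ℝ) : ℂ) * w) := by
      rw [← Complex.exp_add]; congr 1; ring
    have h2 : exp (-(Real.pi * (s + w) / 2 * I)) =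
        exp (-(Real.pi * s / 2 * I)) * exp (-(Real.pi * w / 2 * I)) := by
      rw [← Complex.exp_add]; congr 1; ring
    have h3 : exp (((Real.log t : ℝ) : ℂ) * w - ((Real.log (2 * Real.pi) : ℝ) : ℂ) * w) =
        exp (((Real.log t : ℝ) : ℂ) * w) * exp (-((Real.log (2 * Real.pi) : ℝ) : ℂ) * w) := by
      rw [← Complex.exp_add]; congr 1; ring
    have h4 : exp (Real.pi * w / 2 * I) * exp (-(Real.pi * w / 2 * I)) = 1 := by
      rw [← Complex.exp_add, add_neg_cancel, Complex.exp_zero]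
    rw [h1, h2, h3]
    linear_combination (exp (-((Real.log (2 * Real.pi) : ℝ) : ℂ) * s) *
      exp (-((Real.log (2 * Real.pi) : ℝ) : ℂ) * w) * Gamma s * exp (((Real.log t : ℝ) : ℂ) * w) *
      exp (-(Real.pi * s / 2 * I)) * (1 + e1) * (1 + e2) * (1 + e3) * (1 + β)) * h4
  have hfin : cH (1 / 2 + a - t * I) * cH (1 / 2 + b + t * I) =
      pt t w * ((1 + e1) * (1 + e2) * (1 + e3)) := by
    rw [hs1, hs2, hcs]
    linear_combination (pt t w * ((1 + e1) * (1 + e2) * (1 + e3))) * hmul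
  have hE := v8_three he1n he2n he3n hm1
  have hwre0 : 0 ≤ w.re := by rw [hwre]; linarith
  rw [hfin]
  have hfac : pt t w * ((1 + e1) * (1 + e2) * (1 + e3)) - pt t w =
      pt t w * ((1 + e1) * (1 + e2) * (1 + e3) - 1) := by ring
  rw [hfac, norm_mul, Real.rpow_sub ht0, Real.rpow_one]
  calc ‖pt t w‖ * ‖(1 + e1) * (1 + e2) * (1 + e3) - 1‖ ≤ t ^ w.re * (7 * (M / t)) :=
        mul_le_mul (v8_norm_pt ht0 hwre0) hE (norm_nonneg _) (Real.rpow_nonneg ht0.le _)
    _ = 7 * M * (t ^ w.re / t) := by ring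

theorem u3_arg : (2 * Real.pi : ℂ).arg ≠ Real.pi := by
  have h : (2 * Real.pi : ℂ) = ((2 * Real.pi : ℝ) : ℂ) := by push_cast; rfl
  rw [h, arg_ofReal_of_nonneg (by positivity)]
  exact Real.pi_ne_zero.symm

theorem u3_conj (s : ℂ) : cH (conj s) = conj (cH s) := by
  unfold cH
  have h1 : (2 * Real.pi : ℂ) ^ (-conj s) = conj ((2 * Real.pi : ℂ) ^ (-s)) := by
    rw [← map_neg, cpow_conj _ _ u3_arg, map_mul, map_ofNat, conj_ofReal]
  have h2 : cos (Real.pi * conj s / 2) = conj (cos (Real.pi * s / 2)) := by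
    rw [← cos_conj, map_div₀, map_mul, map_ofNat, conj_ofReal]
  rw [h1, Gamma_conj, h2, map_mul, map_mul, map_mul, map_ofNat]

theorem u3_mul (t : ℝ) : gc t * cH (1 / 2 + t * I) = 1 := by
  have h := cH_mul (s := 1 / 2 - t * I) (by simp) (by simp; norm_num)
  have h2 : (1 : ℂ) - (1 / 2 - t * I) = 1 / 2 + t * I := by ring
  rw [h2] at h
  exact h

/-- part 2. PROOF: `cH_mul` with `s = 1/2 - it`, `1 - s = 1/2 + it = conj s`, `cH (conj s) = conj (cH s)` (as `MP069854.chi_conj`, `chi_norm`,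
`MP_069854_nt/Part03.lean`). -/
theorem gc_norm (t : ℝ) : ‖gc t‖ = 1 := by
  have h1 := u3_mul t
  have h2 : (1 / 2 + t * I : ℂ) = conj (1 / 2 - t * I : ℂ) := by
    rw [map_sub, map_mul, conj_I, conj_ofReal, map_div₀, map_one, map_ofNat]
    ring
  rw [h2, u3_conj] at h1
  have h3 : ‖gc t‖ * ‖gc t‖ = 1 := by
    have h4 := congrArg norm h1
    rw [norm_mul, Complex.norm_conj, norm_one] at h4
    exact h4
  have h5 := norm_nonneg (gc t)
  nlinarith

/-- part 3. PROOF: `cH_mul`. -/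
theorem gc_inv (t : ℝ) : cH (1 / 2 + t * I) = (gc t)⁻¹ :=
  eq_inv_of_mul_eq_one_right (u3_mul t)

/-- part 4. PROOF: `cH_pair0` with `b = 0` and `cH (1/2 + it) = (gc t)⁻¹`; multiply by `gc t` of modulus `1`. -/
theorem cH_minus {d L : ℝ} (hd : 0 < d) (hL : 0 ≤ L) : ∃ C T0 : ℝ, 0 ≤ C ∧ 1 ≤ T0 ∧
    ∀ z : ℂ, 0 ≤ z.re → z.re ≤ 1 / 2 - d → |z.im| ≤ L → ∀ t : ℝ, T0 ≤ t →
    ‖cH (1 / 2 + z - t * I) - gc t * pt t z‖ ≤ C * t ^ (z.re - 1) := by
  obtain ⟨C, T0, hC, hT0, h⟩ := cH_pair0 (d := min d (1 / 2)) (L := L) (lt_min hd (by norm_num)) hL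
  refine ⟨C, T0, hC, hT0, fun z hz1 hz2 hz3 t ht => ?_⟩
  have h1 := h z 0 hz1 (by linarith [min_le_left d (1 / 2)]) (by simp)
    (by simp only [zero_re]; linarith [min_le_right d (1 / 2)]) hz3 (by simpa using hL) t ht
  rw [add_zero, add_zero, gc_inv] at h1
  have h0 : gc t ≠ 0 := by
    intro h2
    have h3 := gc_norm t
    rw [h2, norm_zero] at h3
    exact zero_ne_one h3
  have h2 : cH (1 / 2 + z - t * I) - gc t * pt t z =
      gc t * (cH (1 / 2 + z - t * I) * (gc t)⁻¹ - pt t z) := by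
    field_simp
  rw [h2, norm_mul, gc_norm, one_mul]
  exact h1

/-- part 5. PROOF: `cH_pair0` with `a = 0`. -/
theorem cH_plus {d L : ℝ} (hd : 0 < d) (hL : 0 ≤ L) : ∃ C T0 : ℝ, 0 ≤ C ∧ 1 ≤ T0 ∧
    ∀ z : ℂ, 0 ≤ z.re → z.re ≤ 1 / 2 - d → |z.im| ≤ L → ∀ t : ℝ, T0 ≤ t →
    ‖cH (1 / 2 + z + t * I) - (gc t)⁻¹ * pt t z‖ ≤ C * t ^ (z.re - 1) := by
  obtain ⟨C, T0, hC, hT0, h⟩ := cH_pair0 (d := min d (1 / 2)) (L := L) (lt_min hd (by norm_num)) hL
  refine ⟨C, T0, hC, hT0, fun z hz1 hz2 hz3 t ht => ?_⟩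
  have h1 := h 0 z (by simp) (by simp only [zero_re]; linarith [min_le_right d (1 / 2)]) hz1
    (by linarith [min_le_left d (1 / 2)]) (by simpa using hL) hz3 t ht
  rw [zero_add, add_zero] at h1
  have h0 : gc t ≠ 0 := by
    intro h2
    have h3 := gc_norm t
    rw [h2, norm_zero] at h3
    exact zero_ne_one h3
  have h2 : cH (1 / 2 + z + t * I) - (gc t)⁻¹ * pt t z =
      (gc t)⁻¹ * (gc t * cH (1 / 2 + z + t * I) - pt t z) := by
    field_simp
  rw [h2, norm_mul, norm_inv, gc_norm, inv_one, one_mul]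
  exact h1

/-- part 6: continuity. PROOF: as `v13_cH_cont` (`Gamma` differentiable off the poles). -/
theorem gc_cont : Continuous gc := by
  have hs : Continuous (fun t : ℝ => (1 / 2 - t * I : ℂ)) := by fun_prop
  have h1 : Continuous (fun t : ℝ => (2 * (Real.pi : ℂ)) ^ (-(1 / 2 - t * I : ℂ))) :=
    Continuous.const_cpow hs.neg (Or.inl v8_two_pi_ne)
  have h2 : Continuous (fun t : ℝ => Gamma (1 / 2 - t * I : ℂ)) := by
    rw [continuous_iff_continuousAt]
    intro t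
    have h3 : DifferentiableAt ℂ Gamma (1 / 2 - t * I : ℂ) := by
      apply differentiableAt_Gamma
      intro m h4
      have h5 := congrArg Complex.re h4
      have h6 := Nat.cast_nonneg (α := ℝ) m
      simp at h5
      norm_num at h5
      linarith
    exact ContinuousAt.comp (f := fun t : ℝ => (1 / 2 - t * I : ℂ)) h3.continuousAt hs.continuousAt
  have h3 : Continuous (fun t : ℝ => cos (Real.pi * (1 / 2 - t * I : ℂ) / 2)) := by fun_prop
  unfold gc cH
  exact ((continuous_const.mul h1).mul h2).mul h3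

end OL
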