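import Pool.Agent.Lib.MP_0f5a55_nt.S.Arg2

/-! # The digamma function and quotients of Gamma functions in a strip -/

set_option autoImplicit false

open Complex MeasureTheory Set Filter Topology
open scoped ComplexConjugate

namespace OL

/-- one step of the logarithm against its derivative at the left end -/
theorem v7a_step {w : ℂ} (hw : 0 < w.re) :
    ‖(log (w + 1) - log w) - 1 / w‖ ≤ 1 / ‖w‖ ^ 2 := by
  have hw0 : w ≠ 0 := by
    intro h
    rw [h] at hw
    simp at hw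
  have hn : 0 < ‖w‖ := norm_pos_iff.2 hw0
  have hre : ∀ t : ℝ, 0 ≤ t → 0 < (w + (t : ℂ)).re := by
    intro t ht
    simp only [Complex.add_re, Complex.ofReal_re]
    linarith
  have hd : ∀ x ∈ Icc (0 : ℝ) 1, HasDerivWithinAt (fun t : ℝ => log (w + (t : ℂ)) - (t : ℂ) * (1 / w))
      (1 / (w + (x : ℂ)) - 1 / w) (Icc (0 : ℝ) 1) x := by
    intro x hx
    have h0 := hre x hx.1
    have h1 : HasDerivAt (fun t : ℝ => w + (t : ℂ)) 1 x := by
      simpa using (Complex.ofRealCLM.hasDerivAt (x := x)).const_add w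
    have h2 : HasDerivAt (fun t : ℝ => log (w + (t : ℂ))) (1 / (w + (x : ℂ))) x :=
      h1.clog_real (Or.inl h0)
    have h3 : HasDerivAt (fun t : ℝ => (t : ℂ) * (1 / w)) (1 / w) x := by
      simpa using (Complex.ofRealCLM.hasDerivAt (x := x)).mul_const (1 / w)
    exact (h2.sub h3).hasDerivWithinAt
  have hb : ∀ x ∈ Ico (0 : ℝ) 1, ‖1 / (w + (x : ℂ)) - 1 / w‖ ≤ 1 / ‖w‖ ^ 2 := by
    intro x hx
    have h0 := hre x hx.1
    have h1 : w + (x : ℂ) ≠ 0 := by
      intro h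
      rw [h] at h0
      simp at h0
    have h2 : 1 / (w + (x : ℂ)) - 1 / w = -(x : ℂ) / ((w + (x : ℂ)) * w) := by
      field_simp
      ring
    have h3 : ‖w‖ ≤ ‖w + (x : ℂ)‖ := by
      rw [← sq_le_sq₀ (norm_nonneg _) (norm_nonneg _), ← Complex.normSq_eq_norm_sq,
        ← Complex.normSq_eq_norm_sq, Complex.normSq_apply, Complex.normSq_apply]
      simp only [Complex.add_re, Complex.add_im, Complex.ofReal_re, Complex.ofReal_im, add_zero]
      nlinarith [hx.1, mul_nonneg hx.1 hw.le, mul_nonneg hx.1 hx.1]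
    have h4 : ‖(x : ℂ)‖ ≤ 1 := by
      rw [Complex.norm_real, Real.norm_eq_abs, abs_of_nonneg hx.1]
      exact hx.2.le
    rw [h2, norm_div, norm_neg, norm_mul, sq]
    gcongr
  have key := norm_image_sub_le_of_norm_deriv_le_segment_01' hd hb
  have e : (log (w + 1) - log w) - 1 / w =
      (fun t : ℝ => log (w + (t : ℂ)) - (t : ℂ) * (1 / w)) 1 -
      (fun t : ℝ => log (w + (t : ℂ)) - (t : ℂ) * (1 / w)) 0 := by
    simp only [Complex.ofReal_one, Complex.ofReal_zero, add_zero, zero_mul, one_mul, sub_zero]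
    ring
  rw [e]
  exact key

/-- `log n - log (z + n + 1)` tends to zero -/
theorem v7a_lim {z : ℂ} (hz : 0 < z.re) :
    Tendsto (fun n : ℕ => Complex.log n - log (z + ((n + 1 : ℕ) : ℂ))) atTop (𝓝 0) := by
  have e : Tendsto (fun n : ℕ => -log (1 + (z + 1) * ((1 / (n : ℝ) : ℝ) : ℂ))) atTop (𝓝 0) := by
    have h5 : Tendsto (fun n : ℕ => 1 / (n : ℝ)) atTop (𝓝 0) := tendsto_one_div_atTop_nhds_zero_nat
    have h6 : ContinuousAt (fun x : ℝ => -log (1 + (z + 1) * (x : ℂ))) 0 := by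
      refine ContinuousAt.neg (ContinuousAt.clog (by fun_prop) ?_)
      rw [Complex.mem_slitPlane_iff]
      left
      simp
    have h7 := h6.tendsto.comp h5
    have h0 : -log (1 + (z + 1) * ((0 : ℝ) : ℂ)) = 0 := by simp
    rw [h0] at h7
    exact h7
  refine e.congr' ?_
  filter_upwards [eventually_ge_atTop 1] with n hn
  have hn0 : (0 : ℝ) < n := by exact_mod_cast hn
  have hnc : (n : ℂ) ≠ 0 := by exact_mod_cast hn0.ne'
  have hne : 1 + (z + 1) * ((1 / (n : ℝ) : ℝ) : ℂ) ≠ 0 := by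
    intro h
    have h1 := congrArg Complex.re h
    rw [Complex.add_re, Complex.re_mul_ofReal, Complex.add_re, Complex.one_re, Complex.zero_re] at h1
    have h2 : 0 < (z.re + 1) * (1 / (n : ℝ)) := by positivity
    linarith
  have e2 : z + ((n + 1 : ℕ) : ℂ) = ((n : ℝ) : ℂ) * (1 + (z + 1) * ((1 / (n : ℝ) : ℝ) : ℂ)) := by
    push_cast
    field_simp
    ring
  rw [e2, Complex.log_ofReal_mul hn0 hne, ← Complex.natCast_log]
  ring

/-- Row `v-7a`. PROOF: `LS.digamma_limit` (`MP_0f5a55_nt/S/Arg2.lean`): `ψ(z) = lim (log n - ∑_{j ≤ n} 1/(z+j))` for `0 < Re z < 1`.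
`1/(z+j) - ∫_j^{j+1} dx/(z+x) = ∫_0^1 x/((z+j)(z+j+x)) dx`, of modulus `≤ 1/(‖z+j‖ ‖z+j+x‖) ≤ 2/(j^2 + τ^2)`-ish, `τ = |Im z| ≥ 1`; the sum over `j`
is `≤ C/τ`; `∫_j^{j+1} dx/(z+x) = log(z+j+1) - log(z+j)` (slit plane), so `∑_{j ≤ n} 1/(z+j) = log(z+n+1) - log z + O(1/τ)` and
`log n - log(z+n+1) → 0`. (Pattern: `LS.digamma_re`, same file, real part only.) -/
theorem V7_digamma : ∃ C : ℝ, 0 ≤ C ∧ ∀ z : ℂ, 0 < z.re → z.re < 1 → 1 ≤ z.im →
    ‖digamma z - log z‖ ≤ C / z.im := by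
  refine ⟨6, by norm_num, ?_⟩
  intro z hz hz1 hτ
  have hτ0 : 0 < z.im := by linarith
  have h1 := LS.digamma_limit hz hz1
  have h2 := v7a_lim hz
  have h4 : Tendsto (fun n : ℕ => (Complex.log n - ∑ j ∈ Finset.range (n + 1), 1 / (z + j)) -
      (Complex.log n - log (z + ((n + 1 : ℕ) : ℂ))) - log z) atTop
      (𝓝 (digamma z - 0 - log z)) := (h1.sub h2).sub tendsto_const_nhds
  rw [sub_zero] at h4
  refine le_of_tendsto h4.norm (Eventually.of_forall fun n => ?_)
  have e2 := Finset.sum_range_sub (fun j : ℕ => log (z + (j : ℂ))) (n + 1)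
  have e3 : (Complex.log n - ∑ j ∈ Finset.range (n + 1), 1 / (z + j)) -
      (Complex.log n - log (z + ((n + 1 : ℕ) : ℂ))) - log z =
      ∑ j ∈ Finset.range (n + 1), ((log (z + (j : ℂ) + 1) - log (z + (j : ℂ))) - 1 / (z + (j : ℂ))) := by
    have e4 : ∑ j ∈ Finset.range (n + 1), (log (z + (j : ℂ) + 1) - log (z + (j : ℂ))) =
        log (z + ((n + 1 : ℕ) : ℂ)) - log z := by
      simp only [Nat.cast_add, Nat.cast_one, Nat.cast_zero, add_zero] at e2
      simp only [Nat.cast_add, Nat.cast_one]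
      rw [← e2]
      refine Finset.sum_congr rfl fun j _ => ?_
      rw [add_assoc]
    rw [Finset.sum_sub_distrib, e4]
    ring
  rw [e3]
  refine (norm_sum_le _ _).trans ((Finset.sum_le_sum fun j _ => ?_).trans
    (LS.tele_bound (τ := z.im) (by linarith) (n + 1)))
  have hj : (0 : ℝ) ≤ j := Nat.cast_nonneg j
  have hre : 0 < (z + (j : ℂ)).re := by
    simp only [Complex.add_re, Complex.natCast_re]
    linarith
  refine (v7a_step hre).trans ?_
  have h5 : (j : ℝ) ^ 2 + z.im ^ 2 ≤ ‖z + (j : ℂ)‖ ^ 2 := by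
    rw [← Complex.normSq_eq_norm_sq, Complex.normSq_apply]
    simp only [Complex.add_re, Complex.add_im, Complex.natCast_re, Complex.natCast_im, add_zero]
    nlinarith [mul_nonneg hj hz.le]
  exact one_div_le_one_div_of_le (by positivity) h5

end OL
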