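import Pool.Agent.Lib.MP_069854_nt.R9.U0
import Pool.Agent.Lib.MP_069854_nt.R9.V7a
import Pool.Agent.Lib.MP_069854_nt.R9.V8

/-! # The derivative of the factor on the critical line -/

set_option autoImplicit false

open Complex MeasureTheory Set Filter Topology
open scoped ComplexConjugate

namespace OL

theorem u4_inv (t : ℝ) : cH (1 / 2 + t * I) * gc t = 1 := by
  have h := cH_mul (s := 1 / 2 + t * I) (by simp) (by simp; norm_num)
  have e : (1 : ℂ) - (1 / 2 + t * I) = 1 / 2 - t * I := by ring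
  rw [e] at h
  exact h

theorem u4_ne (t : ℝ) : cH (1 / 2 + t * I) ≠ 0 := left_ne_zero_of_mul_eq_one (u4_inv t)

theorem u4_conj (s : ℂ) : cH (conj s) = conj (cH s) := by
  rw [v8_cH, v8_cH]
  simp only [map_mul, ← Complex.Gamma_conj]
  have h0 : ∀ s : ℂ, exp (-(Real.pi * s / 2 * I)) * (1 + exp (Real.pi * s * I)) = 2 * cos (Real.pi * s / 2) := by
    intro s
    have h3 : exp (-(Real.pi * s / 2 * I)) * exp (Real.pi * s * I) = exp (Real.pi * s / 2 * I) := by
      rw [← Complex.exp_add]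
      congr 1
      ring
    rw [Complex.cos, mul_add, mul_one, h3, neg_mul]
    ring
  have h1 := h0 s
  have h2 := h0 (conj s)
  rw [h2, ← map_mul, h1, map_mul, ← Complex.cos_conj, ← Complex.exp_conj]
  simp only [map_mul, map_neg, map_div₀, Complex.conj_ofReal, Complex.conj_ofNat]

theorem u4_norm (t : ℝ) : ‖gc t‖ = 1 := by
  have h1 := congrArg norm (u4_inv t)
  have h2 : cH (1 / 2 + t * I) = conj (gc t) := by
    unfold gc
    rw [← u4_conj]
    congr 1
    simp only [map_sub, map_mul, map_div₀, map_one, Complex.conj_ofReal, Complex.conj_I, Complex.conj_ofNat]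
    ring
  rw [h2, norm_mul, norm_one, RCLike.norm_conj] at h1
  nlinarith [norm_nonneg (gc t)]

/-- the logarithmic derivative of `t ↦ cH (1/2 + it)` -/
noncomputable def u4_q (t : ℝ) : ℂ := I * (-((Real.log (2 * Real.pi) : ℝ) : ℂ) + digamma (1 / 2 + t * I) -
  Real.pi / 2 * I + Real.pi * I * (exp (Real.pi * (1 / 2 + t * I) * I) / (1 + exp (Real.pi * (1 / 2 + t * I) * I))))

theorem u4_E (t : ℝ) (ht : 2 ≤ t) : ‖exp (Real.pi * (1 / 2 + t * I) * I)‖ ≤ 1 / t :=
  v8_exp_small (by linarith) (by simp; linarith)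

theorem u4_one_E (t : ℝ) (ht : 2 ≤ t) : 1 / 2 ≤ ‖1 + exp (Real.pi * (1 / 2 + t * I) * I)‖ := by
  have h1 := u4_E t ht
  have h2 : 1 / t ≤ 1 / 2 := one_div_le_one_div_of_le (by norm_num) ht
  have h3 := norm_sub_norm_le (1 : ℂ) (-exp (Real.pi * (1 / 2 + t * I) * I))
  rw [norm_neg, norm_one, sub_neg_eq_add] at h3
  linarith

theorem u4_one_E_ne (t : ℝ) (ht : 2 ≤ t) : 1 + exp (Real.pi * (1 / 2 + t * I) * I) ≠ 0 := by
  intro h
  have := u4_one_E t ht
  rw [h, norm_zero] at this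
  linarith

theorem u4_line (t : ℝ) : HasDerivAt (fun t : ℝ => 1 / 2 + (t : ℂ) * I) I t := by
  have h := ((Complex.ofRealCLM.hasDerivAt (x := t)).mul_const I).const_add (1 / 2 : ℂ)
  simpa using h

theorem u4_gamma {z : ℂ} (hz : 0 < z.re) : HasDerivAt Gamma (digamma z * Gamma z) z := by
  have h1 : DifferentiableAt ℂ Gamma z := Complex.differentiableAt_Gamma _ (by
    intro m h
    rw [h] at hz
    simp only [Complex.neg_re, Complex.natCast_re] at hz
    have := Nat.cast_nonneg (α := ℝ) m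
    linarith)
  have h2 : Gamma z ≠ 0 := Complex.Gamma_ne_zero_of_re_pos hz
  have h3 : digamma z * Gamma z = deriv Gamma z := by
    rw [Complex.digamma_def, logDeriv_apply, div_mul_cancel₀ _ h2]
  rw [h3]
  exact h1.hasDerivAt

theorem u4_deriv (t : ℝ) (ht : 2 ≤ t) : HasDerivAt (fun t : ℝ => cH (1 / 2 + t * I))
    (cH (1 / 2 + t * I) * u4_q t) t := by
  have hE := u4_one_E_ne t ht
  have hz : 0 < (1 / 2 + (t : ℂ) * I).re := by simp
  have hl := u4_line t
  have h1 : HasDerivAt (fun t : ℝ => exp (-((Real.log (2 * Real.pi) : ℝ) : ℂ) * (1 / 2 + (t : ℂ) * I)))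
      (exp (-((Real.log (2 * Real.pi) : ℝ) : ℂ) * (1 / 2 + (t : ℂ) * I)) *
        (-((Real.log (2 * Real.pi) : ℝ) : ℂ) * I)) t := (hl.const_mul _).cexp
  have h2 : HasDerivAt (fun t : ℝ => Gamma (1 / 2 + (t : ℂ) * I))
      (digamma (1 / 2 + (t : ℂ) * I) * Gamma (1 / 2 + (t : ℂ) * I) * I) t :=
    HasDerivAt.comp t (u4_gamma hz) hl
  have h3 : HasDerivAt (fun t : ℝ => exp (-(Real.pi * (1 / 2 + (t : ℂ) * I) / 2 * I)))
      (exp (-(Real.pi * (1 / 2 + (t : ℂ) * I) / 2 * I)) * (-(Real.pi * I / 2 * I))) t :=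
    (((hl.const_mul (Real.pi : ℂ)).div_const 2).mul_const I).neg.cexp
  have h4 : HasDerivAt (fun t : ℝ => 1 + exp (Real.pi * (1 / 2 + (t : ℂ) * I) * I))
      (exp (Real.pi * (1 / 2 + (t : ℂ) * I) * I) * (Real.pi * I * I)) t :=
    ((((hl.const_mul (Real.pi : ℂ)).mul_const I).cexp).const_add 1)
  have h5 := (h1.mul h2).mul (h3.mul h4)
  have e : (fun t : ℝ => cH (1 / 2 + t * I)) = fun t : ℝ =>
      exp (-((Real.log (2 * Real.pi) : ℝ) : ℂ) * (1 / 2 + (t : ℂ) * I)) * Gamma (1 / 2 + (t : ℂ) * I) *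
      (exp (-(Real.pi * (1 / 2 + (t : ℂ) * I) / 2 * I)) * (1 + exp (Real.pi * (1 / 2 + (t : ℂ) * I) * I))) := by
    funext t
    exact v8_cH _
  rw [e]
  refine h5.congr_deriv ?_
  rw [v8_cH]
  unfold u4_q
  simp only [Pi.mul_apply]
  generalize exp (-((Real.log (2 * Real.pi) : ℝ) : ℂ) * (1 / 2 + (t : ℂ) * I)) = A
  generalize Gamma (1 / 2 + (t : ℂ) * I) = G
  generalize exp (-(Real.pi * (1 / 2 + (t : ℂ) * I) / 2 * I)) = B
  generalize digamma (1 / 2 + (t : ℂ) * I) = D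
  generalize exp (Real.pi * (1 / 2 + (t : ℂ) * I) * I) = E at hE ⊢
  generalize ((Real.log (2 * Real.pi) : ℝ) : ℂ) = L
  field_simp
  ring

theorem u4_q_cont : ContinuousOn u4_q (Ici 2) := by
  have hl : Continuous (fun t : ℝ => 1 / 2 + (t : ℂ) * I) := by fun_prop
  have h1 : ContinuousOn digamma {z : ℂ | 0 < z.re} := by
    have ho : IsOpen {z : ℂ | 0 < z.re} := isOpen_lt continuous_const Complex.continuous_re
    have hd : DifferentiableOn ℂ Gamma {z : ℂ | 0 < z.re} := fun z hz =>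
      (u4_gamma hz).differentiableAt.differentiableWithinAt
    have h2 := (hd.deriv ho).continuousOn.div hd.continuousOn (fun z hz => Complex.Gamma_ne_zero_of_re_pos hz)
    refine h2.congr ?_
    intro z _
    rw [Complex.digamma_def, logDeriv_apply]
    rfl
  have h2 : ContinuousOn (fun t : ℝ => digamma (1 / 2 + (t : ℂ) * I)) (Ici 2) :=
    h1.comp hl.continuousOn (fun t _ => by simp)
  unfold u4_q
  refine continuousOn_const.mul (((continuousOn_const.add h2).sub continuousOn_const).add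
    (continuousOn_const.mul (ContinuousOn.div ?_ ?_ ?_)))
  · exact (by fun_prop : Continuous fun t : ℝ => exp (Real.pi * (1 / 2 + (t : ℂ) * I) * I)).continuousOn
  · exact (by fun_prop : Continuous fun t : ℝ => 1 + exp (Real.pi * (1 / 2 + (t : ℂ) * I) * I)).continuousOn
  · intro t ht
    exact u4_one_E_ne t ht

theorem u4_q_bound : ∃ C : ℝ, 0 ≤ C ∧ ∀ t : ℝ, 2 ≤ t →
    ‖u4_q t - I * (Real.log (t / (2 * Real.pi)) : ℝ)‖ ≤ C / t := by
  obtain ⟨C, hC, hdg⟩ := V7_digamma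
  refine ⟨C + 1 + 2 * Real.pi, by positivity, ?_⟩
  intro t ht
  have ht0 : 0 < t := by linarith
  have hp : (0 : ℝ) < 2 * Real.pi := by positivity
  have h1 := hdg (1 / 2 + t * I) (by simp) (by simp; norm_num) (by simp; linarith)
  have him : (1 / 2 + (t : ℂ) * I).im = t := by simp
  rw [him] at h1
  have hw : ‖(1 / 2 : ℂ)‖ / t ≤ 1 / 2 := by
    rw [div_le_iff₀ ht0]
    have : ‖(1 / 2 : ℂ)‖ = 1 / 2 := by norm_num
    rw [this]
    linarith
  have h2 := v8_log ht0 (1 / 2) hw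
  have h3 : ‖-(I * (1 / 2) / (t : ℂ))‖ = 1 / (2 * t) := by
    rw [norm_neg, norm_div, norm_mul, Complex.norm_I, Complex.norm_real, Real.norm_of_nonneg ht0.le]
    have : ‖(1 / 2 : ℂ)‖ = 1 / 2 := by norm_num
    rw [this]
    field_simp
  have h4 : ‖log (1 + (-(I * (1 / 2) / (t : ℂ))))‖ ≤ 1 / t := by
    have h5 : ‖-(I * (1 / 2) / (t : ℂ))‖ ≤ 1 / 2 := by
      rw [h3]
      exact one_div_le_one_div_of_le (by norm_num) (by linarith)
    have h6 := Complex.norm_log_one_add_half_le_self h5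
    rw [h3] at h6
    refine h6.trans ?_
    rw [← sub_nonneg]
    have : 1 / t - 3 / 2 * (1 / (2 * t)) = 1 / (4 * t) := by
      field_simp
      norm_num
    rw [this]
    positivity
  have h7 : ‖(Real.pi : ℂ) * I * (exp (Real.pi * (1 / 2 + t * I) * I) /
      (1 + exp (Real.pi * (1 / 2 + t * I) * I)))‖ ≤ 2 * Real.pi / t := by
    rw [norm_mul, norm_mul, norm_div, Complex.norm_I, Complex.norm_real, Real.norm_of_nonneg Real.pi_pos.le,
      mul_one]
    have h8 := u4_E t ht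
    have h9 := u4_one_E t ht
    have h10 : ‖exp (Real.pi * (1 / 2 + t * I) * I)‖ / ‖1 + exp (Real.pi * (1 / 2 + t * I) * I)‖ ≤
        (1 / t) / (1 / 2) := by
      gcongr
    calc Real.pi * (‖exp (Real.pi * (1 / 2 + t * I) * I)‖ / ‖1 + exp (Real.pi * (1 / 2 + t * I) * I)‖)
        ≤ Real.pi * ((1 / t) / (1 / 2)) := mul_le_mul_of_nonneg_left h10 Real.pi_pos.le
      _ = 2 * Real.pi / t := by ring
  have e : u4_q t - I * (Real.log (t / (2 * Real.pi)) : ℝ) =
      I * ((digamma (1 / 2 + t * I) - log (1 / 2 + t * I)) + log (1 + (-(I * (1 / 2) / (t : ℂ)))) +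
        (Real.pi : ℂ) * I * (exp (Real.pi * (1 / 2 + t * I) * I) /
      (1 + exp (Real.pi * (1 / 2 + t * I) * I)))) := by
    rw [h2, Real.log_div ht0.ne' hp.ne']
    unfold u4_q
    push_cast
    ring
  rw [e, norm_mul, Complex.norm_I, one_mul]
  refine (norm_add_le _ _).trans ?_
  refine (add_le_add (norm_add_le _ _) le_rfl).trans ?_
  refine (add_le_add (add_le_add h1 h4) h7).trans (le_of_eq ?_)
  ring

/-- Row `u-4`. PROOF: `gc t = cH s`, `s = 1/2 - it`, `ds/dt = -i`; the logarithmic derivative of `cH` is `- log 2π + ψ(s) - (π/2) tan(π s/2)`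
(`ψ = digamma = Γ'/Γ`), all factors are nonzero. `tan(π/4 - iπt/2) = -i + O(e^{-πt})`, `ψ(1/2 - it) = conj ψ(1/2 + it) = conj (log(1/2+it)) + O(1/t)`
(`V7_digamma`), `log(1/2 + it) = log t + iπ/2 + O(1/t)`. So the logarithmic derivative in `t` is
`-i (- log 2π + log t - iπ/2 + iπ/2 + O(1/t)) = -i log(t/2π) + O(1/t)`, and `‖gc t‖ = 1` (or: bounded; `‖gc t‖ = 1` is `gc_norm` of row `u-3`, which you may
prove again here under another name, from `Gamma_mul_Gamma_one_sub`). -/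
theorem gc_deriv : ∃ C T0 : ℝ, 0 ≤ C ∧ 1 ≤ T0 ∧ ∃ g' : ℝ → ℂ, ContinuousOn g' (Ici T0) ∧
    ∀ t : ℝ, T0 ≤ t → HasDerivAt gc (g' t) t ∧
      ‖g' t + I * (Real.log (t / (2 * Real.pi)) : ℝ) * gc t‖ ≤ C / t := by
  obtain ⟨C, hC, hq⟩ := u4_q_bound
  have hgc : gc = fun t : ℝ => (cH (1 / 2 + t * I))⁻¹ := by
    funext t
    exact eq_inv_of_mul_eq_one_right (u4_inv t)
  have hder : ∀ t : ℝ, 2 ≤ t → HasDerivAt gc (-(u4_q t) * gc t) t := by
    intro t ht
    have h1 := (u4_deriv t ht).inv (u4_ne t)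
    rw [hgc]
    refine h1.congr_deriv ?_
    have h2 := u4_ne t
    field_simp
  refine ⟨C, 2, hC, by norm_num, fun t => -(u4_q t) * gc t, ?_, fun t ht => ⟨hder t ht, ?_⟩⟩
  · refine u4_q_cont.neg.mul ?_
    intro t ht
    exact (hder t ht).continuousAt.continuousWithinAt
  · have e : -(u4_q t) * gc t + I * (Real.log (t / (2 * Real.pi)) : ℝ) * gc t =
        -((u4_q t - I * (Real.log (t / (2 * Real.pi)) : ℝ)) * gc t) := by ring
    rw [e, norm_neg, norm_mul, u4_norm, mul_one]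
    exact hq t ht

end OL
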