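import Mathlib

/-! # An oscillating integral with a logarithmic phase -/

set_option autoImplicit false

open Complex MeasureTheory Set Filter Topology
open scoped ComplexConjugate

namespace OL

/-- the phase -/
theorem u5_phase {ρ u t : ℝ} (ht : 0 < t) :
    HasDerivAt (fun t : ℝ => u - ρ * Real.log (t / (2 * Real.pi))) (-(ρ / t)) t := by
  have hpi : (0 : ℝ) < 2 * Real.pi := by positivity
  have h1 : HasDerivAt (fun t : ℝ => t / (2 * Real.pi)) (1 / (2 * Real.pi)) t :=
    (hasDerivAt_id t).div_const _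
  have h2 := (h1.log (by positivity)).const_mul ρ
  have h3 := h2.const_sub u
  refine h3.congr_deriv ?_
  field_simp

/-- a piece on which the phase does not vanish -/
theorem u5_piece {ρ K δ M a b u T : ℝ} {G G' : ℝ → ℂ} (hρ : 0 < ρ) (hK : 0 ≤ K) (hδ : 0 < δ)
    (hM : 0 ≤ M) (ha : 1 ≤ a) (hab : a ≤ b) (hbT : b ≤ T)
    (hG : ∀ t ∈ Icc a b, HasDerivAt G (G' t) t) (hG' : ContinuousOn G' (Icc a b))
    (hb : ∀ t ∈ Icc a b, ‖G t‖ ≤ M)
    (hE : ∀ t ∈ Icc a b,
      ‖G' t - I * ((u - ρ * Real.log (t / (2 * Real.pi)) : ℝ) : ℂ) * G t‖ ≤ K * M / t)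
    (hφ : ∀ t ∈ Icc a b, δ ≤ |u - ρ * Real.log (t / (2 * Real.pi))|) :
    ‖∫ t in a..b, G t‖ ≤ (4 + K * Real.log T) * M / δ := by
  set φ : ℝ → ℝ := fun t => u - ρ * Real.log (t / (2 * Real.pi)) with hφdef
  have hpos : ∀ t ∈ Icc a b, 0 < t := fun t ht => by linarith [ht.1]
  have hφne : ∀ t ∈ Icc a b, φ t ≠ 0 := by
    intro t ht h0
    have := hφ t ht
    have h1 : |φ t| = 0 := by rw [h0, abs_zero]
    have h2 : δ ≤ |φ t| := this
    linarith
  have hφd : ∀ t ∈ Icc a b, HasDerivAt φ (-(ρ / t)) t := fun t ht => u5_phase (hpos t ht)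
  have hφc : ContinuousOn φ (Icc a b) := fun t ht => (hφd t ht).continuousAt.continuousWithinAt
  have hGc : ContinuousOn G (Icc a b) := fun t ht => (hG t ht).continuousAt.continuousWithinAt
  have hφCd : ∀ t ∈ Icc a b, HasDerivAt (fun t => ((φ t : ℝ) : ℂ)) ((-(ρ / t) : ℝ) : ℂ) t :=
    fun t ht => (hφd t ht).ofReal_comp
  have hne : ∀ t ∈ Icc a b, I * ((φ t : ℝ) : ℂ) ≠ 0 := by
    intro t ht
    exact mul_ne_zero I_ne_zero (by exact_mod_cast hφne t ht)
  have hidc : ContinuousOn (fun t : ℝ => t) (Icc a b) := continuousOn_id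
  have hcφ : ContinuousOn (fun t => ((φ t : ℝ) : ℂ)) (Icc a b) :=
    Complex.continuous_ofReal.comp_continuousOn hφc
  -- the primitive
  set F : ℝ → ℂ := fun t => G t / (I * ((φ t : ℝ) : ℂ)) with hF
  set F' : ℝ → ℂ := fun t => (G' t * (I * ((φ t : ℝ) : ℂ)) - G t * (I * ((-(ρ / t) : ℝ) : ℂ))) /
    (I * ((φ t : ℝ) : ℂ)) ^ 2 with hF'
  have hFd : ∀ t ∈ Icc a b, HasDerivAt F (F' t) t := by
    intro t ht
    exact (hG t ht).div ((hφCd t ht).const_mul I) (hne t ht)
  have hrc : ContinuousOn (fun t : ℝ => ((-(ρ / t) : ℝ) : ℂ)) (Icc a b) := by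
    refine Complex.continuous_ofReal.comp_continuousOn ?_
    exact (continuousOn_const.div hidc (fun t ht => (hpos t ht).ne')).neg
  have hF'c : ContinuousOn F' (Icc a b) := by
    refine ContinuousOn.div ?_ ((continuousOn_const.mul hcφ).pow 2)
      (fun t ht => pow_ne_zero 2 (hne t ht))
    exact (hG'.mul (continuousOn_const.mul hcφ)).sub (hGc.mul (continuousOn_const.mul hrc))
  have huIcc : uIcc a b = Icc a b := uIcc_of_le hab
  have hF'i : IntervalIntegrable F' volume a b := by
    apply ContinuousOn.intervalIntegrable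
    rw [huIcc]; exact hF'c
  have hGi : IntervalIntegrable G volume a b := by
    apply ContinuousOn.intervalIntegrable
    rw [huIcc]; exact hGc
  have hint : ∫ t in a..b, F' t = F b - F a := by
    apply intervalIntegral.integral_eq_sub_of_hasDerivAt
    · rw [huIcc]; exact hFd
    · exact hF'i
  have hsplit : ∫ t in a..b, G t = (F b - F a) - ∫ t in a..b, (F' t - G t) := by
    rw [intervalIntegral.integral_sub hF'i hGi, hint]; ring
  have hFb : ∀ t ∈ Icc a b, ‖F t‖ ≤ M / δ := by
    intro t ht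
    have h1 : ‖F t‖ = ‖G t‖ / |φ t| := by
      rw [hF]; simp only [norm_div, norm_mul, norm_I, one_mul, Complex.norm_real, Real.norm_eq_abs]
    rw [h1]
    exact div_le_div₀ hM (hb t ht) hδ (hφ t ht)
  -- the bound of the error
  set g : ℝ → ℝ := fun t => M * (ρ / t / (φ t) ^ 2) + K * M / δ * (1 / t) with hg
  have hgd : ∀ t ∈ Icc a b, HasDerivAt (fun t => M * (φ t)⁻¹ + K * M / δ * Real.log t) (g t) t := by
    intro t ht
    have h1 := ((hφd t ht).inv (hφne t ht)).const_mul M
    have h2 := (Real.hasDerivAt_log (hpos t ht).ne').const_mul (K * M / δ)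
    refine (h1.add h2).congr_deriv ?_
    rw [hg]
    have := hφne t ht
    have := (hpos t ht).ne'
    field_simp
  have hgc : ContinuousOn g (Icc a b) := by
    refine ContinuousOn.add ?_ ?_
    · refine continuousOn_const.mul (ContinuousOn.div ?_ (hφc.pow 2)
        (fun t ht => pow_ne_zero 2 (hφne t ht)))
      exact continuousOn_const.div hidc (fun t ht => (hpos t ht).ne')
    · exact continuousOn_const.mul (continuousOn_const.div hidc (fun t ht => (hpos t ht).ne'))
  have hgi : IntervalIntegrable g volume a b := by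
    apply ContinuousOn.intervalIntegrable
    rw [huIcc]; exact hgc
  have hgint : ∫ t in a..b, g t =
      (M * (φ b)⁻¹ + K * M / δ * Real.log b) - (M * (φ a)⁻¹ + K * M / δ * Real.log a) := by
    have := intervalIntegral.integral_eq_sub_of_hasDerivAt
      (f := fun t => M * (φ t)⁻¹ + K * M / δ * Real.log t) (f' := g) (a := a) (b := b)
      (by rw [huIcc]; exact hgd) hgi
    simpa using this
  have herr : ∀ t ∈ Icc a b, ‖F' t - G t‖ ≤ g t := by
    intro t ht
    have hp := hpos t ht
    have hn := hφne t ht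
    have hnC : ((φ t : ℝ) : ℂ) ≠ 0 := by exact_mod_cast hn
    have hkey : F' t - G t = (G' t - I * ((φ t : ℝ) : ℂ) * G t) / (I * ((φ t : ℝ) : ℂ)) -
        G t * (((ρ / t : ℝ) : ℂ)) * I / (((φ t : ℝ) : ℂ)) ^ 2 := by
      rw [hF']
      simp only
      have hI := I_ne_zero
      push_cast
      rw [mul_pow, I_sq]
      have hI2 : I * I = -1 := I_mul_I
      have htC : ((t : ℝ) : ℂ) ≠ 0 := by exact_mod_cast hp.ne'
      field_simp
      ring_nf
      rw [I_sq]
      ring
    rw [hkey]
    have hd1 : δ ≤ |φ t| := hφ t ht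
    have hpa : 0 < |φ t| := lt_of_lt_of_le hδ hd1
    refine (norm_sub_le _ _).trans ?_
    have h1 : ‖(G' t - I * ((φ t : ℝ) : ℂ) * G t) / (I * ((φ t : ℝ) : ℂ))‖ ≤
        K * M / δ * (1 / t) := by
      rw [norm_div, norm_mul, norm_I, one_mul, Complex.norm_real, Real.norm_eq_abs]
      have h2 := hE t ht
      have h3 : K * M / δ * (1 / t) = (K * M / t) / δ := by field_simp
      rw [h3]
      exact div_le_div₀ (by positivity) h2 hδ hd1
    have h4 : ‖G t * (((ρ / t : ℝ) : ℂ)) * I / (((φ t : ℝ) : ℂ)) ^ 2‖ ≤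
        M * (ρ / t / (φ t) ^ 2) := by
      rw [norm_div, norm_mul, norm_mul, norm_I, mul_one, norm_pow, Complex.norm_real,
        Complex.norm_real, Real.norm_eq_abs, Real.norm_eq_abs, sq_abs,
        abs_of_nonneg (by positivity : 0 ≤ ρ / t), mul_div_assoc]
      exact mul_le_mul_of_nonneg_right (hb t ht) (by positivity)
    rw [hg]
    simp only
    linarith
  have hE2 : ‖∫ t in a..b, (F' t - G t)‖ ≤ ∫ t in a..b, g t := by
    apply intervalIntegral.norm_integral_le_of_norm_le hab
    · filter_upwards with t ht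
      exact herr t (Ioc_subset_Icc_self ht)
    · exact hgi
  have hinv : ∀ t ∈ Icc a b, |(φ t)⁻¹| ≤ 1 / δ := by
    intro t ht
    rw [abs_inv, ← one_div]
    exact one_div_le_one_div_of_le hδ (hφ t ht)
  have hlogab : Real.log b - Real.log a ≤ Real.log T := by
    have h1 : Real.log b ≤ Real.log T := Real.log_le_log (by linarith) hbT
    have h2 : 0 ≤ Real.log a := Real.log_nonneg ha
    linarith
  have hma : a ∈ Icc a b := left_mem_Icc.2 hab
  have hmb : b ∈ Icc a b := right_mem_Icc.2 hab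
  have hg2 : ∫ t in a..b, g t ≤ M * (2 / δ) + K * M / δ * Real.log T := by
    rw [hgint]
    have h1 := (abs_le.1 (hinv b hmb)).2
    have h2 := (abs_le.1 (hinv a hma)).1
    have h3 : M * (φ b)⁻¹ - M * (φ a)⁻¹ ≤ M * (2 / δ) := by
      rw [← mul_sub]
      apply mul_le_mul_of_nonneg_left _ hM
      have : 2 / δ = 1 / δ + 1 / δ := by ring
      linarith
    have h4 : K * M / δ * Real.log b - K * M / δ * Real.log a ≤ K * M / δ * Real.log T := by
      rw [← mul_sub]
      exact mul_le_mul_of_nonneg_left hlogab (by positivity)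
    linarith
  rw [hsplit]
  have hA := norm_sub_le (F b - F a) (∫ t in a..b, (F' t - G t))
  have hB := norm_sub_le (F b) (F a)
  have hC := hFb b hmb
  have hD := hFb a hma
  have hfin : (4 + K * Real.log T) * M / δ =
      M / δ + M / δ + (M * (2 / δ) + K * M / δ * Real.log T) := by ring
  rw [hfin]
  linarith

/-- Row `u-5`. PROOF: put `φ(t) = u - ρ log(t/2π)`, decreasing, `φ' = -ρ/t`, `δ = T^(-1/2)`. The set of the `t ∈ [R,T]` with `|φ(t)| < δ` is contained in
`[t0 e^{-δ/ρ}, t0 e^{δ/ρ}]`, `t0 = 2π e^{u/ρ}`, of length `≤ C δ T` inside `[R,T]` (if it meets `[R,T]` then `t0 e^{-δ/ρ} ≤ T`), contribution `≤ C δ T M`. The rest of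
`[R,T]` is at most two intervals `[a,b]` where `|φ| ≥ δ` with a fixed sign. There `G = (G' - E)/(iφ)`, `‖E t‖ ≤ K M/t`;
`∫_a^b E/(iφ) ≤ K M δ⁻¹ log T`, and by parts `∫ G'/(iφ) = [G/(iφ)] + ∫ G φ'/(iφ²)`, `≤ 2M/δ + M ∫ |φ'|/φ² = 2M/δ + M |1/φ(b) - 1/φ(a)| ≤ 4M/δ`.
Total `≤ C M (T^(1/2) + T^(1/2) (1 + log T))`. (Splitting points: `a1 = min (max R (t0 e^{-δ/ρ})) T`, `a2 = min (max R (t0 e^{δ/ρ})) T`.) -/
theorem U5_osc {ρ K : ℝ} (hρ : 0 < ρ) (hK : 0 ≤ K) : ∃ C : ℝ, 0 ≤ C ∧
    ∀ (G G' : ℝ → ℂ) (M R T u : ℝ), 1 ≤ R → R ≤ T → 0 ≤ M →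
    (∀ t ∈ Icc R T, HasDerivAt G (G' t) t) → ContinuousOn G' (Icc R T) →
    (∀ t ∈ Icc R T, ‖G t‖ ≤ M) →
    (∀ t ∈ Icc R T, ‖G' t - I * ((u - ρ * Real.log (t / (2 * Real.pi)) : ℝ) : ℂ) * G t‖ ≤ K * M / t) →
    ‖∫ t in R..T, G t‖ ≤ C * M * (T ^ (1 / 2 : ℝ) * (1 + Real.log T)) := by
  refine ⟨8 + 2 * K + 2 / ρ * Real.exp (2 / ρ), by positivity, ?_⟩
  intro G G' M R T u hR hRT hM hG hG' hb hE
  have hT1 : 1 ≤ T := hR.trans hRT
  have hT0 : 0 < T := by linarith
  set s : ℝ := T ^ (1 / 2 : ℝ) with hs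
  have hs1 : 1 ≤ s := Real.one_le_rpow hT1 (by norm_num)
  have hs0 : 0 < s := by linarith
  have hss : s * s = T := by
    rw [hs, ← Real.rpow_add hT0]; norm_num
  set δ : ℝ := s⁻¹ with hδ
  have hδ0 : 0 < δ := inv_pos.2 hs0
  have hδ1 : δ ≤ 1 := inv_le_one_of_one_le₀ hs1
  have hlT : 0 ≤ Real.log T := Real.log_nonneg hT1
  set t0 : ℝ := 2 * Real.pi * Real.exp (u / ρ) with ht0
  have ht0p : 0 < t0 := by positivity
  set p : ℝ := t0 * Real.exp (-(δ / ρ)) with hp
  set q : ℝ := t0 * Real.exp (δ / ρ) with hq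
  have hp0 : 0 < p := by positivity
  have hq0 : 0 < q := by positivity
  have hpq : p ≤ q := by
    apply mul_le_mul_of_nonneg_left _ ht0p.le
    apply Real.exp_le_exp.2
    have : 0 < δ / ρ := by positivity
    linarith
  set a1 : ℝ := min (max R p) T with ha1
  set a2 : ℝ := min (max R q) T with ha2
  have hRa1 : R ≤ a1 := le_min (le_max_left _ _) hRT
  have ha12 : a1 ≤ a2 := min_le_min (max_le_max le_rfl hpq) le_rfl
  have ha2T : a2 ≤ T := min_le_right _ _
  have hRa2 : R ≤ a2 := hRa1.trans ha12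
  have ha1T : a1 ≤ T := ha12.trans ha2T
  have hpi : (0 : ℝ) < 2 * Real.pi := by positivity
  -- the values of the phase at the ends
  have hphase : ∀ x : ℝ, u - ρ * Real.log (t0 * Real.exp x / (2 * Real.pi)) = -(ρ * x) := by
    intro x
    have h1 : t0 * Real.exp x / (2 * Real.pi) = Real.exp (u / ρ + x) := by
      rw [ht0, Real.exp_add]; field_simp
    rw [h1, Real.log_exp]
    field_simp
    ring
  have hmono : ∀ x y : ℝ, 0 < x → x ≤ y →
      u - ρ * Real.log (y / (2 * Real.pi)) ≤ u - ρ * Real.log (x / (2 * Real.pi)) := by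
    intro x y hx hxy
    have h1 : Real.log (x / (2 * Real.pi)) ≤ Real.log (y / (2 * Real.pi)) :=
      Real.log_le_log (by positivity) (div_le_div_of_nonneg_right hxy hpi.le)
    have := mul_le_mul_of_nonneg_left h1 hρ.le
    linarith
  have hphp : u - ρ * Real.log (p / (2 * Real.pi)) = δ := by
    rw [hp, hphase]; field_simp
  have hphq : u - ρ * Real.log (q / (2 * Real.pi)) = -δ := by
    rw [hq, hphase]; field_simp
  have hdiv : ∀ X : ℝ, X / δ = X * s := by
    intro X; rw [hδ, div_inv_eq_mul]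
  -- continuity and integrability
  have hGc : ContinuousOn G (Icc R T) := fun t ht => (hG t ht).continuousAt.continuousWithinAt
  have hii : ∀ x y : ℝ, R ≤ x → x ≤ y → y ≤ T → IntervalIntegrable G volume x y := by
    intro x y h1 h2 h3
    apply ContinuousOn.intervalIntegrable
    rw [uIcc_of_le h2]
    exact hGc.mono (Icc_subset_Icc h1 h3)
  have hsum : ∫ t in R..T, G t = (∫ t in R..a1, G t) + (∫ t in a1..a2, G t) +
      ∫ t in a2..T, G t := by
    rw [intervalIntegral.integral_add_adjacent_intervals (hii _ _ le_rfl hRa1 ha1T)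
      (hii _ _ hRa1 ha12 ha2T), intervalIntegral.integral_add_adjacent_intervals
      (hii _ _ le_rfl hRa2 ha2T) (hii _ _ hRa2 ha2T le_rfl)]
  have hboundnn : 0 ≤ (4 + K * Real.log T) * M * s := by positivity
  -- first piece
  have hI1 : ‖∫ t in R..a1, G t‖ ≤ (4 + K * Real.log T) * M * s := by
    rcases hRa1.eq_or_lt with h | h
    · rw [← h, intervalIntegral.integral_same, norm_zero]; exact hboundnn
    · have ha1p : a1 ≤ p := by
        have h1 : a1 ≤ max R p := min_le_left _ _
        rcases le_max_iff.1 h1 with h2 | h2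
        · linarith
        · exact h2
      have hsub : Icc R a1 ⊆ Icc R T := Icc_subset_Icc le_rfl ha1T
      have := u5_piece (T := T) (u := u) hρ hK hδ0 hM hR hRa1 ha1T (fun t ht => hG t (hsub ht))
        (hG'.mono hsub) (fun t ht => hb t (hsub ht)) (fun t ht => hE t (hsub ht)) (by
          intro t ht
          have h3 := hmono t p (by linarith [ht.1]) (ht.2.trans ha1p)
          rw [hphp] at h3
          exact h3.trans (le_abs_self _))
      rwa [hdiv] at this
  -- last piece
  have hI3 : ‖∫ t in a2..T, G t‖ ≤ (4 + K * Real.log T) * M * s := by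
    rcases ha2T.eq_or_lt with h | h
    · rw [h, intervalIntegral.integral_same, norm_zero]; exact hboundnn
    · have ha2q : q ≤ a2 := by
        have h1 : a2 = max R q := by
          rcases min_choice (max R q) T with h2 | h2
          · exact h2
          · exfalso; rw [ha2, h2] at h; exact lt_irrefl _ h
        rw [h1]; exact le_max_right _ _
      have hsub : Icc a2 T ⊆ Icc R T := Icc_subset_Icc hRa2 le_rfl
      have := u5_piece (T := T) (u := u) hρ hK hδ0 hM (hR.trans hRa2) ha2T le_rfl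
        (fun t ht => hG t (hsub ht))
        (hG'.mono hsub) (fun t ht => hb t (hsub ht)) (fun t ht => hE t (hsub ht)) (by
          intro t ht
          have h3 := hmono q t hq0 (ha2q.trans ht.1)
          rw [hphq] at h3
          have h4 := neg_abs_le (u - ρ * Real.log (t / (2 * Real.pi)))
          linarith [le_abs_self (-(u - ρ * Real.log (t / (2 * Real.pi)))),
            abs_neg (u - ρ * Real.log (t / (2 * Real.pi)))])
      rwa [hdiv] at this
  -- middle piece
  have hI2 : ‖∫ t in a1..a2, G t‖ ≤ 2 / ρ * Real.exp (2 / ρ) * M * s := by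
    have hlen : a2 - a1 ≤ 2 / ρ * Real.exp (2 / ρ) * s := by
      rcases ha12.eq_or_lt with h | h
      · rw [← h, sub_self]; positivity
      · have h1 : p ≤ a1 := by
          have h2 : a1 = max R p := by
            rcases min_choice (max R p) T with h3 | h3
            · exact h3
            · exfalso; rw [ha1, h3] at h; linarith
          rw [h2]; exact le_max_right _ _
        have h2 : a2 ≤ q := by
          have h3 : a2 ≤ max R q := min_le_left _ _
          rcases le_max_iff.1 h3 with h4 | h4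
          · linarith
          · exact h4
        have h3 : p ≤ T := h1.trans ha1T
        -- q - p = p (e^{2δ/ρ} - 1)
        have h4 : q = p * Real.exp (2 * δ / ρ) := by
          have h5 : δ / ρ = -(δ / ρ) + 2 * δ / ρ := by ring
          have h6 : Real.exp (δ / ρ) = Real.exp (-(δ / ρ)) * Real.exp (2 * δ / ρ) := by
            rw [← Real.exp_add, ← h5]
          calc q = t0 * (Real.exp (-(δ / ρ)) * Real.exp (2 * δ / ρ)) := by rw [← h6]
            _ = p * Real.exp (2 * δ / ρ) := (mul_assoc _ _ _).symm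
        have h5 : Real.exp (2 * δ / ρ) - 1 ≤ 2 * δ / ρ * Real.exp (2 * δ / ρ) := by
          have h6 := Real.add_one_le_exp (-(2 * δ / ρ))
          have h7 : 0 < Real.exp (2 * δ / ρ) := Real.exp_pos _
          have h8 : Real.exp (-(2 * δ / ρ)) * Real.exp (2 * δ / ρ) = 1 := by
            rw [← Real.exp_add]; simp
          nlinarith
        have h6 : Real.exp (2 * δ / ρ) ≤ Real.exp (2 / ρ) := by
          apply Real.exp_le_exp.2
          apply div_le_div_of_nonneg_right _ hρ.le
          linarith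
        have h7 : Real.exp (2 * δ / ρ) - 1 ≤ 2 * δ / ρ * Real.exp (2 / ρ) :=
          h5.trans (mul_le_mul_of_nonneg_left h6 (by positivity))
        have h8 : 0 ≤ Real.exp (2 * δ / ρ) - 1 := by
          have := Real.one_le_exp (x := 2 * δ / ρ) (by positivity)
          linarith
        calc a2 - a1 ≤ q - p := by linarith
          _ = p * (Real.exp (2 * δ / ρ) - 1) := by rw [h4]; ring
          _ ≤ T * (2 * δ / ρ * Real.exp (2 / ρ)) := by
              apply mul_le_mul h3 h7 h8 hT0.le
          _ = 2 / ρ * Real.exp (2 / ρ) * s := by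
              rw [← hss, hδ]; field_simp
    have h1 := intervalIntegral.norm_integral_le_of_norm_le_const (f := G) (a := a1) (b := a2)
      (C := M) (by
        intro t ht
        rw [uIoc_of_le ha12] at ht
        exact hb t ⟨hRa1.trans ht.1.le, ht.2.trans ha2T⟩)
    rw [abs_of_nonneg (sub_nonneg.2 ha12)] at h1
    calc ‖∫ t in a1..a2, G t‖ ≤ M * (a2 - a1) := h1
      _ ≤ M * (2 / ρ * Real.exp (2 / ρ) * s) := mul_le_mul_of_nonneg_left hlen hM
      _ = 2 / ρ * Real.exp (2 / ρ) * M * s := by ring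
  rw [hsum]
  have hn1 := norm_add_le ((∫ t in R..a1, G t) + (∫ t in a1..a2, G t)) (∫ t in a2..T, G t)
  have hn2 := norm_add_le (∫ t in R..a1, G t) (∫ t in a1..a2, G t)
  have hfin : (8 + 2 * K + 2 / ρ * Real.exp (2 / ρ)) * M * (s * (1 + Real.log T)) =
      ((4 + K * Real.log T) * M * s + 2 / ρ * Real.exp (2 / ρ) * M * s +
        (4 + K * Real.log T) * M * s) +
      (8 * M * s * Real.log T + 2 * K * M * s +
        2 / ρ * Real.exp (2 / ρ) * M * s * Real.log T) := by ring
  rw [hfin]
  have hnn : 0 ≤ 8 * M * s * Real.log T + 2 * K * M * s +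
        2 / ρ * Real.exp (2 / ρ) * M * s * Real.log T := by positivity
  linarith

end OL
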