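import Pool.Agent.Lib.MP_069854_nt.R9.U3

/-! # Products of single factors -/

set_option autoImplicit false

open Complex MeasureTheory Set Filter Topology
open scoped ComplexConjugate

namespace OL

theorem u6a_norm {t : ℝ} (ht : 0 < t) (w : ℂ) : ‖pt t w‖ = (t / (2 * Real.pi)) ^ w.re := by
  unfold pt
  exact Complex.norm_cpow_eq_rpow_re_of_pos (by positivity) w

theorem u6a_le {t : ℝ} (ht : 0 < t) {w : ℂ} (hw : 0 ≤ w.re) : ‖pt t w‖ ≤ t ^ w.re := by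
  rw [u6a_norm ht]
  refine Real.rpow_le_rpow (by positivity) ?_ hw
  refine div_le_self ht.le ?_
  have := Real.pi_gt_three
  linarith

theorem u6a_add {t : ℝ} (ht : 0 < t) (u v : ℂ) : pt t (u + v) = pt t u * pt t v := by
  unfold pt
  refine Complex.cpow_add u v ?_
  have h : (0 : ℝ) < t / (2 * Real.pi) := by positivity
  exact_mod_cast h.ne'

theorem u6a_step {t : ℝ} (ht : 1 ≤ t) {X Y u v g h : ℂ} {C1 C2 : ℝ} (h1 : 0 ≤ C1) (h2 : 0 ≤ C2)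
    (hg : ‖g‖ = 1) (hh : ‖h‖ = 1) (hu : 0 ≤ u.re)
    (hv : 0 ≤ v.re) (hX : ‖X - g * pt t u‖ ≤ C2 * t ^ (u.re - 1))
    (hY : ‖Y - h * pt t v‖ ≤ C1 * t ^ (v.re - 1)) :
    ‖X * Y - g * h * pt t (u + v)‖ ≤ (C2 * (1 + C1) + C1) * t ^ ((u + v).re - 1) := by
  have t0 : 0 < t := by linarith
  have e1 : X * Y - g * h * pt t (u + v) = (X - g * pt t u) * Y + g * pt t u * (Y - h * pt t v) := by
    rw [u6a_add t0]
    ring
  have hpv : ‖h * pt t v‖ ≤ t ^ v.re := by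
    rw [norm_mul, hh, one_mul]
    exact u6a_le t0 hv
  have hpu : ‖g * pt t u‖ ≤ t ^ u.re := by
    rw [norm_mul, hg, one_mul]
    exact u6a_le t0 hu
  have hYn : ‖Y‖ ≤ (1 + C1) * t ^ v.re := by
    have a1 : ‖Y‖ ≤ ‖Y - h * pt t v‖ + ‖h * pt t v‖ := by
      have := norm_add_le (Y - h * pt t v) (h * pt t v)
      rwa [sub_add_cancel] at this
    have a2 : t ^ (v.re - 1) ≤ t ^ v.re := Real.rpow_le_rpow_of_exponent_le ht (by linarith)
    have a3 : C1 * t ^ (v.re - 1) ≤ C1 * t ^ v.re := mul_le_mul_of_nonneg_left a2 h1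
    calc ‖Y‖ ≤ ‖Y - h * pt t v‖ + ‖h * pt t v‖ := a1
      _ ≤ C1 * t ^ v.re + t ^ v.re := add_le_add (hY.trans a3) hpv
      _ = (1 + C1) * t ^ v.re := by ring
  have b1 : ‖(X - g * pt t u) * Y‖ ≤ (C2 * t ^ (u.re - 1)) * ((1 + C1) * t ^ v.re) := by
    rw [norm_mul]
    exact mul_le_mul hX hYn (norm_nonneg _) (by positivity)
  have b2 : ‖g * pt t u * (Y - h * pt t v)‖ ≤ t ^ u.re * (C1 * t ^ (v.re - 1)) := by
    rw [norm_mul]
    exact mul_le_mul hpu hY (norm_nonneg _) (by positivity)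
  have c1 : t ^ (u.re - 1) * t ^ v.re = t ^ ((u + v).re - 1) := by
    rw [← Real.rpow_add t0]
    congr 1
    rw [Complex.add_re]
    ring
  have c2 : t ^ u.re * t ^ (v.re - 1) = t ^ ((u + v).re - 1) := by
    rw [← Real.rpow_add t0]
    congr 1
    rw [Complex.add_re]
    ring
  rw [e1]
  calc ‖(X - g * pt t u) * Y + g * pt t u * (Y - h * pt t v)‖
      ≤ ‖(X - g * pt t u) * Y‖ + ‖g * pt t u * (Y - h * pt t v)‖ := norm_add_le _ _
    _ ≤ (C2 * t ^ (u.re - 1)) * ((1 + C1) * t ^ v.re) + t ^ u.re * (C1 * t ^ (v.re - 1)) := add_le_add b1 b2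
    _ = C2 * (1 + C1) * (t ^ (u.re - 1) * t ^ v.re) + C1 * (t ^ u.re * t ^ (v.re - 1)) := by ring
    _ = (C2 * (1 + C1) + C1) * t ^ ((u + v).re - 1) := by
      rw [c1, c2]
      ring

theorem u6a_prod {k : ℕ} {d L : ℝ} (F : ℂ → ℝ → ℂ) (h : ℝ → ℂ) (hh : ∀ t, ‖h t‖ = 1)
    (hF : ∃ C T0 : ℝ, 0 ≤ C ∧ 1 ≤ T0 ∧
      ∀ z : ℂ, 0 ≤ z.re → z.re ≤ 1 / 2 - d → |z.im| ≤ L → ∀ t : ℝ, T0 ≤ t →
      ‖F z t - h t * pt t z‖ ≤ C * t ^ (z.re - 1)) (S : Finset (Fin k)) :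
    ∃ C T0 : ℝ, 0 ≤ C ∧ 1 ≤ T0 ∧ ∀ a : Fin k → ℂ,
    (∀ j ∈ S, 0 ≤ (a j).re ∧ (a j).re ≤ 1 / 2 - d ∧ |(a j).im| ≤ L) →
    ∀ t : ℝ, T0 ≤ t → ‖∏ j ∈ S, F (a j) t - h t ^ S.card * pt t (∑ j ∈ S, a j)‖ ≤
      C * t ^ ((∑ j ∈ S, a j).re - 1) := by
  induction S using Finset.induction_on with
  | empty =>
    refine ⟨0, 1, le_refl _, le_refl _, fun a _ t ht => ?_⟩
    have e : pt t 0 = 1 := by
      unfold pt
      exact Complex.cpow_zero _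
    rw [Finset.prod_empty, Finset.sum_empty, e, Finset.card_empty, pow_zero, one_mul, sub_self,
      norm_zero, zero_mul]
  | insert j S hj ih =>
    obtain ⟨C1, T1, hC1, hT1, h1⟩ := ih
    obtain ⟨C2, T2, hC2, hT2, h2⟩ := hF
    refine ⟨C2 * (1 + C1) + C1, max T1 T2, by positivity, hT1.trans (le_max_left _ _), fun a ha t ht => ?_⟩
    have ht1 : T1 ≤ t := (le_max_left _ _).trans ht
    have ht2 : T2 ≤ t := (le_max_right _ _).trans ht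
    have t1 : 1 ≤ t := hT1.trans ht1
    have haS : ∀ i ∈ S, 0 ≤ (a i).re ∧ (a i).re ≤ 1 / 2 - d ∧ |(a i).im| ≤ L :=
      fun i hi => ha i (Finset.mem_insert_of_mem hi)
    obtain ⟨a1, a2, a3⟩ := ha j (Finset.mem_insert_self _ _)
    have hX := h2 (a j) a1 a2 a3 t ht2
    have hY := h1 a haS t ht1
    have hv : 0 ≤ (∑ i ∈ S, a i).re := by
      rw [Complex.re_sum]
      exact Finset.sum_nonneg (fun i hi => (haS i hi).1)
    have hp : ‖h t ^ S.card‖ = 1 := by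
      rw [norm_pow, hh, one_pow]
    rw [Finset.prod_insert hj, Finset.sum_insert hj, Finset.card_insert_of_notMem hj, pow_succ']
    exact u6a_step t1 hC1 hC2 (hh t) hp a1 hv hX hY

/-- Row `u-6a`. PROOF: induction on `S`, then on `S'` (as `cH_prod` in `R9/V9.lean`), with `cH_minus`, `cH_plus`, `gc_norm`, `‖pt t w‖ ≤ t^(Re w)` for
`Re w ≥ 0`, `pt t (u+v) = pt t u * pt t v`. -/
theorem XX_approx {k : ℕ} {d L : ℝ} (hd : 0 < d) (hL : 0 ≤ L) (S S' : Finset (Fin k)) :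
    ∃ C T0 : ℝ, 0 ≤ C ∧ 1 ≤ T0 ∧ ∀ a b : Fin k → ℂ,
    (∀ j ∈ S, 0 ≤ (a j).re ∧ (a j).re ≤ 1 / 2 - d ∧ |(a j).im| ≤ L) →
    (∀ j ∈ S', 0 ≤ (b j).re ∧ (b j).re ≤ 1 / 2 - d ∧ |(b j).im| ≤ L) →
    ∀ t : ℝ, T0 ≤ t → ‖XX S S' a b t - gc t ^ ((S.card : ℤ) - S'.card) *
      pt t (∑ j ∈ S, a j + ∑ j ∈ S', b j)‖ ≤ C * t ^ ((∑ j ∈ S, a j + ∑ j ∈ S', b j).re - 1) := by
  obtain ⟨C1, T1, hC1, hT1, h1⟩ := u6a_prod (k := k) (d := d) (L := L)
    (fun z t => cH (1 / 2 + z - t * I)) gc gc_norm (cH_minus hd hL) S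
  obtain ⟨C2, T2, hC2, hT2, h2⟩ := u6a_prod (k := k) (d := d) (L := L)
    (fun z t => cH (1 / 2 + z + t * I)) (fun t => (gc t)⁻¹)
    (fun t => by rw [norm_inv, gc_norm, inv_one]) (cH_plus hd hL) S'
  refine ⟨C1 * (1 + C2) + C2, max T1 T2, by positivity, hT1.trans (le_max_left _ _),
    fun a b ha hb t ht => ?_⟩
  have ht1 : T1 ≤ t := (le_max_left _ _).trans ht
  have ht2 : T2 ≤ t := (le_max_right _ _).trans ht
  have t1 : 1 ≤ t := hT1.trans ht1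
  have hX := h1 a ha t ht1
  have hY := h2 b hb t ht2
  have hu : 0 ≤ (∑ i ∈ S, a i).re := by
    rw [Complex.re_sum]
    exact Finset.sum_nonneg (fun i hi => (ha i hi).1)
  have hv : 0 ≤ (∑ i ∈ S', b i).re := by
    rw [Complex.re_sum]
    exact Finset.sum_nonneg (fun i hi => (hb i hi).1)
  have n1 : ‖gc t ^ S.card‖ = 1 := by
    rw [norm_pow, gc_norm, one_pow]
  have n2 : ‖((gc t)⁻¹) ^ S'.card‖ = 1 := by
    rw [norm_pow, norm_inv, gc_norm, inv_one, one_pow]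
  have hne : gc t ≠ 0 := by
    intro h0
    have h := gc_norm t
    rw [h0, norm_zero] at h
    exact zero_ne_one h
  have key := u6a_step t1 hC2 hC1 n1 n2 hu hv hX hY
  have e : gc t ^ ((S.card : ℤ) - S'.card) = gc t ^ S.card * ((gc t)⁻¹) ^ S'.card := by
    rw [zpow_sub₀ hne, zpow_natCast, zpow_natCast, inv_pow, div_eq_mul_inv]
  rw [e]
  exact key

end OL
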