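import Pool.Agent.Lib.MP_069854_nt.R9.V8

/-! # Products of the factors -/

set_option autoImplicit false

open Complex MeasureTheory Set Filter Topology
open scoped ComplexConjugate

namespace OL

theorem v9_norm {t : ℝ} (ht : 0 < t) (w : ℂ) : ‖pt t w‖ = (t / (2 * Real.pi)) ^ w.re := by
  unfold pt
  exact Complex.norm_cpow_eq_rpow_re_of_pos (by positivity) w

theorem v9_le {t : ℝ} (ht : 0 < t) {w : ℂ} (hw : 0 ≤ w.re) : ‖pt t w‖ ≤ t ^ w.re := by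
  rw [v9_norm ht]
  refine Real.rpow_le_rpow (by positivity) ?_ hw
  refine div_le_self ht.le ?_
  have := Real.pi_gt_three
  linarith

theorem v9_add {t : ℝ} (ht : 0 < t) (u v : ℂ) : pt t (u + v) = pt t u * pt t v := by
  unfold pt
  refine Complex.cpow_add u v ?_
  have h : (0 : ℝ) < t / (2 * Real.pi) := by positivity
  exact_mod_cast h.ne'

theorem v9_step {t : ℝ} (ht : 1 ≤ t) {X Y u v : ℂ} {C1 C2 : ℝ} (h1 : 0 ≤ C1) (h2 : 0 ≤ C2) (hu : 0 ≤ u.re)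
    (hv : 0 ≤ v.re) (hX : ‖X - pt t u‖ ≤ C2 * t ^ (u.re - 1)) (hY : ‖Y - pt t v‖ ≤ C1 * t ^ (v.re - 1)) :
    ‖X * Y - pt t (u + v)‖ ≤ (C2 * (1 + C1) + C1) * t ^ ((u + v).re - 1) := by
  have t0 : 0 < t := by linarith
  have e1 : X * Y - pt t (u + v) = (X - pt t u) * Y + pt t u * (Y - pt t v) := by
    rw [v9_add t0]
    ring
  have hpv := v9_le t0 hv
  have hpu := v9_le t0 hu
  have hYn : ‖Y‖ ≤ (1 + C1) * t ^ v.re := by
    have a1 : ‖Y‖ ≤ ‖Y - pt t v‖ + ‖pt t v‖ := by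
      have := norm_add_le (Y - pt t v) (pt t v)
      rwa [sub_add_cancel] at this
    have a2 : t ^ (v.re - 1) ≤ t ^ v.re := Real.rpow_le_rpow_of_exponent_le ht (by linarith)
    have a3 : C1 * t ^ (v.re - 1) ≤ C1 * t ^ v.re := mul_le_mul_of_nonneg_left a2 h1
    calc ‖Y‖ ≤ ‖Y - pt t v‖ + ‖pt t v‖ := a1
      _ ≤ C1 * t ^ v.re + t ^ v.re := add_le_add (hY.trans a3) hpv
      _ = (1 + C1) * t ^ v.re := by ring
  have b1 : ‖(X - pt t u) * Y‖ ≤ (C2 * t ^ (u.re - 1)) * ((1 + C1) * t ^ v.re) := by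
    rw [norm_mul]
    exact mul_le_mul hX hYn (norm_nonneg _) (by positivity)
  have b2 : ‖pt t u * (Y - pt t v)‖ ≤ t ^ u.re * (C1 * t ^ (v.re - 1)) := by
    rw [norm_mul]
    exact mul_le_mul hpu hY (norm_nonneg _) (by positivity)
  have c1 : t ^ (u.re - 1) * t ^ v.re = t ^ ((u + v).re - 1) := by
    rw [← Real.rpow_add t0]
    congr 1
    rw [Complex.add_re]
    ring
  have c2 : t ^ u.re * t ^ (v.re - 1) = t ^ ((u + v).re - 1) := by
    rw [← Real.rpow_add t0]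
    congr 1
    rw [Complex.add_re]
    ring
  rw [e1]
  calc ‖(X - pt t u) * Y + pt t u * (Y - pt t v)‖ ≤ ‖(X - pt t u) * Y‖ + ‖pt t u * (Y - pt t v)‖ := norm_add_le _ _
    _ ≤ (C2 * t ^ (u.re - 1)) * ((1 + C1) * t ^ v.re) + t ^ u.re * (C1 * t ^ (v.re - 1)) := add_le_add b1 b2
    _ = C2 * (1 + C1) * (t ^ (u.re - 1) * t ^ v.re) + C1 * (t ^ u.re * t ^ (v.re - 1)) := by ring
    _ = (C2 * (1 + C1) + C1) * t ^ ((u + v).re - 1) := by
      rw [c1, c2]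
      ring

/-- Row `v-9`. PROOF: induction on `S` (`Finset.induction_on`), with `cH_pair`: if `‖X - pt t u‖ ≤ C1 t^(Re u - 1)`, `‖Y - pt t v‖ ≤ C2 t^(Re v - 1)`,
`‖pt t u‖ ≤ t^(Re u)`, then `‖X Y - pt t (u+v)‖ ≤ C t^(Re(u+v) - 1)` for `t ≥ 1` (`pt t (u+v) = pt t u * pt t v`, `Complex.cpow_add`). -/
theorem cH_prod {k : ℕ} {ρ d L : ℝ} (hρ : 0 < ρ) (hd : 0 < d) (hL : 0 ≤ L) (S : Finset (Fin k)) :
    ∃ C T0 : ℝ, 0 ≤ C ∧ 1 ≤ T0 ∧ ∀ a b : Fin k → ℂ,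
    (∀ j ∈ S, ρ ≤ (a j).re ∧ (a j).re ≤ 1 / 2 - d ∧ |(a j).im| ≤ L) →
    (∀ j ∈ S, ρ ≤ (b j).re ∧ (b j).re ≤ 1 / 2 - d ∧ |(b j).im| ≤ L) →
    ∀ t : ℝ, T0 ≤ t → ‖∏ j ∈ S, (cH (1 / 2 + a j - t * I) * cH (1 / 2 + b j + t * I)) -
      pt t (∑ j ∈ S, (a j + b j))‖ ≤ C * t ^ ((∑ j ∈ S, (a j + b j)).re - 1) := by
  induction S using Finset.induction_on with
  | empty =>
    refine ⟨0, 1, le_refl _, le_refl _, fun a b _ _ t ht => ?_⟩
    have t0 : 0 < t := by linarith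
    have e : pt t 0 = 1 := by
      unfold pt
      exact Complex.cpow_zero _
    rw [Finset.prod_empty, Finset.sum_empty, e, sub_self, norm_zero, zero_mul]
  | insert j S hj ih =>
    obtain ⟨C1, T1, hC1, hT1, h1⟩ := ih
    obtain ⟨C2, T2, hC2, hT2, h2⟩ := cH_pair hρ hd hL
    refine ⟨C2 * (1 + C1) + C1, max T1 T2, by positivity, hT1.trans (le_max_left _ _), fun a b ha hb t ht => ?_⟩
    have ht1 : T1 ≤ t := (le_max_left _ _).trans ht
    have ht2 : T2 ≤ t := (le_max_right _ _).trans ht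
    have t1 : 1 ≤ t := hT1.trans ht1
    have haS : ∀ i ∈ S, ρ ≤ (a i).re ∧ (a i).re ≤ 1 / 2 - d ∧ |(a i).im| ≤ L :=
      fun i hi => ha i (Finset.mem_insert_of_mem hi)
    have hbS : ∀ i ∈ S, ρ ≤ (b i).re ∧ (b i).re ≤ 1 / 2 - d ∧ |(b i).im| ≤ L :=
      fun i hi => hb i (Finset.mem_insert_of_mem hi)
    obtain ⟨a1, a2, a3⟩ := ha j (Finset.mem_insert_self _ _)
    obtain ⟨b1, b2, b3⟩ := hb j (Finset.mem_insert_self _ _)
    have hX := h2 (a j) (b j) a1 a2 b1 b2 a3 b3 t ht2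
    have hY := h1 a b haS hbS t ht1
    have hu : 0 ≤ (a j + b j).re := by
      rw [Complex.add_re]
      linarith
    have hv : 0 ≤ (∑ i ∈ S, (a i + b i)).re := by
      rw [Complex.re_sum]
      refine Finset.sum_nonneg (fun i hi => ?_)
      rw [Complex.add_re]
      have c1 := (haS i hi).1
      have c2 := (hbS i hi).1
      linarith
    rw [Finset.prod_insert hj, Finset.sum_insert hj]
    exact v9_step t1 hC1 hC2 hu hv hX hY

/-- part 2. PROOF: `Complex.norm_cpow_eq_rpow_re_of_pos`. -/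
theorem pt_norm {t : ℝ} (ht : 0 < t) (w : ℂ) : ‖pt t w‖ = (t / (2 * Real.pi)) ^ w.re := by
  exact v9_norm ht w

end OL
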