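import Pool.Agent.Lib.MP_069854_nt.R9.U3
import Pool.Agent.Lib.MP_069854_nt.R9.U4
import Pool.Agent.Lib.MP_069854_nt.R9.U5
import Pool.Agent.Lib.MP_069854_nt.R9.V9

/-! # The oscillating integral of the factors -/

set_option autoImplicit false

open Complex MeasureTheory Set Filter Topology
open scoped ComplexConjugate

namespace OL

theorem u6b_ei_norm (x : ℝ) : ‖ei x‖ = 1 := by
  unfold ei
  exact Complex.norm_exp_ofReal_mul_I x

theorem u6b_ei_conj (x : ℝ) : conj (ei x) = ei (-x) := by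
  unfold ei
  rw [← Complex.exp_conj, map_mul, Complex.conj_ofReal, Complex.conj_I]
  congr 1
  push_cast
  ring

theorem u6b_ei_deriv (u t : ℝ) : HasDerivAt (fun s : ℝ => ei (s * u)) (I * u * ei (t * u)) t := by
  unfold ei
  have h1 : HasDerivAt (fun s : ℝ => (((s * u : ℝ) : ℂ)) * I) ((u : ℂ) * I) t := by
    have h2 : HasDerivAt (fun s : ℝ => ((s * u : ℝ) : ℂ)) ((u : ℝ) : ℂ) t := by
      have h3 : HasDerivAt (fun s : ℝ => s * u) (1 * u) t := (hasDerivAt_id t).mul_const u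
      rw [one_mul] at h3
      exact h3.ofReal_comp
    exact h2.mul_const I
  have h4 := h1.cexp
  refine h4.congr_deriv ?_
  ring

theorem u6b_pt_deriv {t : ℝ} (ht : 0 < t) (w : ℂ) :
    HasDerivAt (fun s : ℝ => pt s w) (w / t * pt t w) t := by
  have hl : HasDerivAt (fun s : ℝ => (((Real.log s : ℝ) : ℂ)) * w - ((Real.log (2 * Real.pi) : ℝ) : ℂ) * w)
      (((t⁻¹ : ℝ) : ℂ) * w) t := by
    exact (((Real.hasDerivAt_log ht.ne').ofReal_comp).mul_const w).sub_const _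
  have h2 := hl.cexp
  have h3 : (fun s : ℝ => pt s w) =ᶠ[𝓝 t] fun s : ℝ =>
      exp ((((Real.log s : ℝ) : ℂ)) * w - ((Real.log (2 * Real.pi) : ℝ) : ℂ) * w) := by
    filter_upwards [eventually_gt_nhds ht] with s hs
    exact v8_pt hs w
  refine HasDerivAt.congr_of_eventuallyEq ?_ h3
  rw [v8_pt ht w]
  refine h2.congr_deriv ?_
  push_cast
  rw [div_eq_mul_inv]
  ring

theorem u6b_pt_conj {t : ℝ} (ht : 0 < t) (w : ℂ) : conj (pt t w) = pt t (conj w) := by
  rw [v8_pt ht w, v8_pt ht (conj w), ← Complex.exp_conj, map_sub, map_mul, map_mul, Complex.conj_ofReal,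
    Complex.conj_ofReal]

theorem u6b_pow {T x : ℝ} (hT : 1 ≤ T) :
    T ^ x * (T ^ (1 / 2 : ℝ) * (1 + Real.log T)) ≤ 5 * T ^ (x + 3 / 4) := by
  have hT0 : 0 < T := by linarith
  have h1 : Real.log T ≤ T ^ (1 / 4 : ℝ) / (1 / 4) := Real.log_le_rpow_div hT0.le (by norm_num)
  have h2 : 1 ≤ T ^ (1 / 4 : ℝ) := Real.one_le_rpow hT (by norm_num)
  have h3 : 1 + Real.log T ≤ 5 * T ^ (1 / 4 : ℝ) := by
    have : T ^ (1 / 4 : ℝ) / (1 / 4) = 4 * T ^ (1 / 4 : ℝ) := by ring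
    rw [this] at h1
    linarith
  have h4 : T ^ (x + 3 / 4) = T ^ x * (T ^ (1 / 2 : ℝ) * T ^ (1 / 4 : ℝ)) := by
    rw [← Real.rpow_add hT0, ← Real.rpow_add hT0]
    congr 1
    ring
  rw [h4]
  have h5 : 0 ≤ T ^ x := Real.rpow_nonneg hT0.le _
  have h6 : 0 ≤ T ^ (1 / 2 : ℝ) := Real.rpow_nonneg hT0.le _
  calc T ^ x * (T ^ (1 / 2 : ℝ) * (1 + Real.log T))
      ≤ T ^ x * (T ^ (1 / 2 : ℝ) * (5 * T ^ (1 / 4 : ℝ))) :=
        mul_le_mul_of_nonneg_left (mul_le_mul_of_nonneg_left h3 h6) h5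
    _ = 5 * (T ^ x * (T ^ (1 / 2 : ℝ) * T ^ (1 / 4 : ℝ))) := by ring

/-- the case of a positive exponent -/
theorem u6b_pos {n : ℕ} (hn : 0 < n) {K : ℝ} (hK : 0 ≤ K) : ∃ C T0 : ℝ, 0 ≤ C ∧ 1 ≤ T0 ∧
    ∀ w : ℂ, 0 ≤ w.re → ‖w‖ ≤ K → ∀ R u T : ℝ, T0 ≤ R → R ≤ T →
    ‖∫ t in R..T, gc t ^ n * pt t w * ei (t * u)‖ ≤ C * T ^ (w.re + 3 / 4) := by
  obtain ⟨C1, T1, hC1, hT1, g', hg'c, hg'⟩ := gc_deriv
  have hnR : (0 : ℝ) < n := by exact_mod_cast hn
  obtain ⟨C2, hC2, hosc⟩ := U5_osc (ρ := (n : ℝ)) (K := n * C1 + K) hnR (by positivity)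
  refine ⟨C2 * 5, T1, by positivity, hT1, ?_⟩
  intro w hw hwK R u T hR hRT
  have hR1 : 1 ≤ R := hT1.trans hR
  have hT0 : 0 < T := by linarith
  set G : ℝ → ℂ := fun t => gc t ^ n * pt t w * ei (t * u) with hG
  set G' : ℝ → ℂ := fun t => (n * gc t ^ (n - 1) * g' t) * pt t w * ei (t * u) +
    gc t ^ n * (w / t * pt t w) * ei (t * u) + gc t ^ n * pt t w * (I * u * ei (t * u)) with hG'
  have hder : ∀ t ∈ Icc R T, HasDerivAt G (G' t) t := by
    intro t ht
    have ht0 : 0 < t := by linarith [ht.1]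
    have h1 := (hg' t (hR.trans ht.1)).1.pow n
    have h2 := (h1.mul (u6b_pt_deriv ht0 w)).mul (u6b_ei_deriv u t)
    refine h2.congr_deriv ?_
    simp only [hG', Pi.mul_apply, Pi.pow_apply]
    ring
  have hptc : ContinuousOn (fun t : ℝ => pt t w) (Icc R T) := by
    intro t ht
    exact (u6b_pt_deriv (by linarith [ht.1]) w).continuousAt.continuousWithinAt
  have heic : Continuous (fun t : ℝ => ei (t * u)) := by
    unfold ei
    fun_prop
  have hgcc : ContinuousOn gc (Icc R T) := gc_cont.continuousOn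
  have hg'c2 : ContinuousOn g' (Icc R T) := hg'c.mono (fun t ht => hR.trans ht.1)
  have hwt : ContinuousOn (fun t : ℝ => w / (t : ℂ)) (Icc R T) := by
    refine ContinuousOn.div continuousOn_const Complex.continuous_ofReal.continuousOn ?_
    intro t ht
    have : t ≠ 0 := by linarith [ht.1]
    exact_mod_cast this
  have hcont : ContinuousOn G' (Icc R T) := by
    refine ContinuousOn.add (ContinuousOn.add ?_ ?_) ?_
    · exact (((continuousOn_const.mul (hgcc.pow _)).mul hg'c2).mul hptc).mul heic.continuousOn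
    · exact ((hgcc.pow _).mul (hwt.mul hptc)).mul heic.continuousOn
    · exact ((hgcc.pow _).mul hptc).mul (continuousOn_const.mul heic.continuousOn)
  have hpt : ∀ t ∈ Icc R T, ‖pt t w‖ ≤ T ^ w.re := by
    intro t ht
    have ht0 : 0 < t := by linarith [ht.1]
    exact (v8_norm_pt ht0 hw).trans (Real.rpow_le_rpow ht0.le ht.2 hw)
  have hM0 : 0 ≤ T ^ w.re := Real.rpow_nonneg hT0.le _
  have hGn : ∀ t ∈ Icc R T, ‖G t‖ ≤ T ^ w.re := by
    intro t ht
    simp only [hG]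
    rw [norm_mul, norm_mul, norm_pow, gc_norm, one_pow, one_mul, u6b_ei_norm, mul_one]
    exact hpt t ht
  have hbd : ∀ t ∈ Icc R T,
      ‖G' t - I * ((u - (n : ℝ) * Real.log (t / (2 * Real.pi)) : ℝ) : ℂ) * G t‖ ≤
        (n * C1 + K) * T ^ w.re / t := by
    intro t ht
    have ht0 : 0 < t := by linarith [ht.1]
    have h1 := (hg' t (hR.trans ht.1)).2
    have hnn : gc t ^ n = gc t ^ (n - 1) * gc t := by
      rw [← pow_succ]
      congr 1
      omega
    have e : G' t - I * ((u - (n : ℝ) * Real.log (t / (2 * Real.pi)) : ℝ) : ℂ) * G t =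
        (n * gc t ^ (n - 1) * (g' t + I * (Real.log (t / (2 * Real.pi)) : ℝ) * gc t)) * pt t w * ei (t * u) +
          gc t ^ n * (w / t * pt t w) * ei (t * u) := by
      simp only [hG, hG']
      rw [hnn]
      push_cast
      ring
    rw [e]
    refine (norm_add_le _ _).trans ?_
    have a1 : ‖(n * gc t ^ (n - 1) * (g' t + I * (Real.log (t / (2 * Real.pi)) : ℝ) * gc t)) * pt t w *
        ei (t * u)‖ ≤ n * (C1 / t) * T ^ w.re := by
      rw [norm_mul, norm_mul, norm_mul, norm_mul, norm_pow, gc_norm, one_pow, u6b_ei_norm, mul_one, mul_one,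
        Complex.norm_natCast]
      exact mul_le_mul (mul_le_mul_of_nonneg_left h1 hnR.le) (hpt t ht) (norm_nonneg _) (by positivity)
    have a2 : ‖gc t ^ n * (w / t * pt t w) * ei (t * u)‖ ≤ K / t * T ^ w.re := by
      rw [norm_mul, norm_mul, norm_mul, norm_pow, gc_norm, one_pow, u6b_ei_norm, mul_one, one_mul, norm_div,
        Complex.norm_real, Real.norm_of_nonneg ht0.le]
      exact mul_le_mul (div_le_div_of_nonneg_right hwK ht0.le) (hpt t ht) (norm_nonneg _) (by positivity)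
    calc _ ≤ n * (C1 / t) * T ^ w.re + K / t * T ^ w.re := add_le_add a1 a2
      _ = (n * C1 + K) * T ^ w.re / t := by ring
  have hfin := hosc G G' (T ^ w.re) R T u hR1 hRT hM0 hder hcont hGn hbd
  refine hfin.trans ?_
  have hp := u6b_pow (x := w.re) (hR1.trans hRT)
  calc C2 * T ^ w.re * (T ^ (1 / 2 : ℝ) * (1 + Real.log T))
      = C2 * (T ^ w.re * (T ^ (1 / 2 : ℝ) * (1 + Real.log T))) := by ring
    _ ≤ C2 * (5 * T ^ (w.re + 3 / 4)) := mul_le_mul_of_nonneg_left hp hC2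
    _ = C2 * 5 * T ^ (w.re + 3 / 4) := by ring

theorem u6b_gc_inv (t : ℝ) : (gc t)⁻¹ = conj (gc t) := by
  have h := gc_norm t
  have h1 : gc t * conj (gc t) = 1 := by
    rw [Complex.mul_conj, Complex.normSq_eq_norm_sq, h]
    norm_num
  exact inv_eq_of_mul_eq_one_right h1

/-- Row `u-6b`. PROOF: `U5_osc` for `G t = gc t ^ m * pt t w * ei (t u)`, `m > 0`: `G' = G (m g'/gc + w/t + iu)`, with `g'/gc = -i log(t/2π) + O(1/t)`
(`gc_deriv`, `gc_norm`), so `ρ = m`, `M = T^(Re w)` (`pt_norm`, `v8_norm_pt`), `K` from `m, K`. `T^(1/2) (1 + log T) ≤ C T^(3/4)`. For `m < 0` take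
complex conjugates: `conj (gc t ^ m) = gc t ^ (-m)` (`gc_norm`), `conj (pt t w) = pt t (conj w)` for `t > 0`, `conj (ei x) = ei (-x)`;
`‖∫ f‖ = ‖∫ conj f‖`. -/
theorem gc_osc {m : ℤ} (hm : m ≠ 0) {K : ℝ} (hK : 0 ≤ K) : ∃ C T0 : ℝ, 0 ≤ C ∧ 1 ≤ T0 ∧
    ∀ w : ℂ, 0 ≤ w.re → ‖w‖ ≤ K → ∀ R u T : ℝ, T0 ≤ R → R ≤ T →
    ‖∫ t in R..T, gc t ^ m * pt t w * ei (t * u)‖ ≤ C * T ^ (w.re + 3 / 4) := by
  obtain ⟨C, T0, hC, hT0, h⟩ := u6b_pos (n := m.natAbs) (Int.natAbs_pos.mpr hm) hK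
  refine ⟨C, T0, hC, hT0, ?_⟩
  intro w hw hwK R u T hR hRT
  rcases Int.natAbs_eq m with hm1 | hm1
  · have h1 := h w hw hwK R u T hR hRT
    have h2 : ∀ t : ℝ, gc t ^ m = gc t ^ m.natAbs := by
      intro t
      conv_lhs => rw [hm1]
      rw [zpow_natCast]
    simp only [h2]
    exact h1
  · have h1 := h (conj w) (by rw [Complex.conj_re]; exact hw) (by rw [Complex.norm_conj]; exact hwK) R (-u) T
      hR hRT
    rw [Complex.conj_re] at h1
    have h2 : ∀ t : ℝ, gc t ^ m = conj (gc t ^ m.natAbs) := by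
      intro t
      conv_lhs => rw [hm1]
      rw [zpow_neg, zpow_natCast, ← inv_pow, u6b_gc_inv, map_pow]
    have h3 : ∫ t in R..T, gc t ^ m * pt t w * ei (t * u) =
        conj (∫ t in R..T, gc t ^ m.natAbs * pt t (conj w) * ei (t * -u)) := by
      rw [intervalIntegral.integral_of_le hRT, intervalIntegral.integral_of_le hRT, ← integral_conj]
      refine setIntegral_congr_fun measurableSet_Ioc ?_
      intro t ht
      have ht0 : 0 < t := by linarith [ht.1]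
      simp only []
      rw [map_mul, map_mul, u6b_pt_conj ht0, Complex.conj_conj, u6b_ei_conj, h2 t]
      congr 2
      ring
    rw [h3, Complex.norm_conj]
    exact h1

end OL
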