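import Pool.Agent.Lib.MP_069854_nt.R9.V12

/-! # The recipe off the critical line, all balanced sign patterns -/

set_option autoImplicit false

open Complex MeasureTheory Set Filter Topology
open scoped ComplexConjugate

namespace OL

variable {k : ℕ}

lemma v13_cH_cont {c : ℂ} (hc : 0 < c.re) (x : ℝ) :
    Continuous fun t : ℝ => cH (c + x * t * I) := by
  unfold cH
  refine Continuous.mul (Continuous.mul (continuous_const.mul ?_) ?_) ?_
  · exact Continuous.const_cpow (by fun_prop) (Or.inl (by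
      have := Real.pi_pos
      exact mul_ne_zero two_ne_zero (by exact_mod_cast this.ne')))
  · rw [continuous_iff_continuousAt]
    intro y
    refine ContinuousAt.comp (f := fun t : ℝ => c + x * t * I) (g := Gamma)
      (differentiableAt_Gamma _ fun m h => ?_).continuousAt (by fun_prop)
    have := congrArg Complex.re h
    simp at this
    have h2 : (0 : ℝ) ≤ m := Nat.cast_nonneg m
    linarith
  · exact Complex.continuous_cos.comp (by fun_prop)

/-- **the recipe with swaps** -/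
theorem V13_swap (hk : 1 ≤ k) {d : ℝ} (hd : 0 < d) {s s' A A' r r' : Fin k → ℝ}
    (hs : ∀ j, 1 / 2 ≤ s j ∧ 1 ≤ A j ∧ MB (s j) (A j) ∧ s j < 1 / 2 + r j)
    (hs' : ∀ j, 1 / 2 ≤ s' j ∧ 1 ≤ A' j ∧ MB (s' j) (A' j) ∧ s' j < 1 / 2 + r' j)
    (hsum : ∑ j, 1 / A j + ∑ j, 1 / A' j ≤ 1) {L : ℝ} (hL : 0 ≤ L) (S : Finset (Fin k)) :
    ∃ η C : ℝ, 0 < η ∧ 0 ≤ C ∧ ∀ T : ℝ, 1 ≤ T → ∀ α β : Fin k → ℂ,
      (∀ j, |(α j).im| ≤ L ∧ |(β j).im| ≤ L) →
      (∀ j, j ∉ S → r j ≤ (α j).re ∧ (α j).re ≤ 1 / 2 - d ∧ r' j ≤ (β j).re ∧ (β j).re ≤ 1 / 2 - d) →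
      (∀ j, j ∈ S → r j ≤ -(α j).re ∧ -(α j).re ≤ 1 / 2 - d ∧ r' j ≤ -(β j).re ∧
        -(β j).re ≤ 1 / 2 - d) →
      (Summable fun n : ℕ => ‖DA (swA S α β) n * DA (swB S α β) n / (n : ℂ)‖) ∧
      ‖(T : ℂ)⁻¹ * (∫ t in (0 : ℝ)..T, ∏ j, (riemannZeta (1 / 2 + α j + t * I) *
        riemannZeta (1 / 2 + β j - t * I))) -
        pt T (-∑ j ∈ S, (α j + β j)) / (1 + -∑ j ∈ S, (α j + β j)) *
          ∑' n : ℕ, DA (swA S α β) n * DA (swB S α β) n / (n : ℂ)‖ ≤
        C * T ^ ((-∑ j ∈ S, (α j + β j)).re - η) := by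
  have hr : ∀ j, 0 < r j := fun j => by linarith [(hs j).1, (hs j).2.2.2]
  have hr' : ∀ j, 0 < r' j := fun j => by linarith [(hs' j).1, (hs' j).2.2.2]
  obtain ⟨m1, hm1, hm1'⟩ := v5_min hr
  obtain ⟨m2, hm2, hm2'⟩ := v5_min hr'
  obtain ⟨ρ, hρ⟩ : ∃ ρ, ρ = min m1 m2 := ⟨_, rfl⟩
  have hρ0 : 0 < ρ := by rw [hρ]; exact lt_min hm1 hm2
  have hρr : ∀ j, ρ ≤ r j := fun j => by rw [hρ]; exact (min_le_left _ _).trans (hm1' j)
  have hρr' : ∀ j, ρ ≤ r' j := fun j => by rw [hρ]; exact (min_le_right _ _).trans (hm2' j)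
  -- the positive recipe, exchanged on `S`
  obtain ⟨η5, C5, hη5, hC5, h5⟩ := V5_abs hk hd
    (s := fun j => if j ∈ S then s' j else s j) (s' := fun j => if j ∈ S then s j else s' j)
    (A := fun j => if j ∈ S then A' j else A j) (A' := fun j => if j ∈ S then A j else A' j)
    (r := fun j => if j ∈ S then r' j else r j) (r' := fun j => if j ∈ S then r j else r' j)
    (fun j => by
      by_cases h : j ∈ S
      · simp only [if_pos h]; exact hs' j
      · simp only [if_neg h]; exact hs j)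
    (fun j => by
      by_cases h : j ∈ S
      · simp only [if_pos h]; exact hs j
      · simp only [if_neg h]; exact hs' j)
    (by
      simp only [v12_ite]
      rw [v12_sum S (fun j => 1 / A j) (fun j => 1 / A' j)]
      exact hsum)
  obtain ⟨C9, T9, hC9, hT9, h9⟩ := cH_prod (k := k) hρ0 hd hL S
  obtain ⟨η, hη⟩ : ∃ η, η = min η5 (1 / 2) := ⟨_, rfl⟩
  have hη0 : 0 < η := by rw [hη]; exact lt_min hη5 (by norm_num)
  have hη1 : η ≤ 1 / 2 := by rw [hη]; exact min_le_right _ _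
  have hηη5 : η ≤ η5 := by rw [hη]; exact min_le_left _ _
  obtain ⟨R, hR⟩ : ∃ R, R = max T9 L := ⟨_, rfl⟩
  have hR1 : 1 ≤ R := by rw [hR]; exact hT9.trans (le_max_left _ _)
  have hRT9 : T9 ≤ R := by rw [hR]; exact le_max_left _ _
  have hRL : L ≤ R := by rw [hR]; exact le_max_right _ _
  obtain ⟨B, hB1, hB⟩ := v11_pb (k := k) (L := L) hd R
  obtain ⟨K, hK⟩ : ∃ K : ℝ, K = k * (1 + 2 * L) := ⟨_, rfl⟩
  have hK0 : 0 ≤ K := by rw [hK]; positivity
  obtain ⟨C0, hC0⟩ : ∃ C0, C0 = C5 + (B + C5) * R ^ η + B := ⟨_, rfl⟩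
  have hR0 : 0 < R := by linarith
  have hB0 : 0 ≤ B := by linarith
  have hC00 : 0 ≤ C0 := by rw [hC0]; positivity
  obtain ⟨C, hC, hstep⟩ := v12_step (η := η) (K := K) (C0 := C0) (C1 := C9) (B := B) (R := R) hη0 hη1 hK0
    hC00 hC9 hB0 hR1
  refine ⟨η, C, hη0, hC, fun T hT α β him hpos hneg => ?_⟩
  -- real parts
  have hα : ∀ j, |(α j).re| ≤ 1 / 2 - d := by
    intro j
    by_cases h : j ∈ S
    · have := hneg j h
      have h2 := hr j
      rw [abs_le]
      constructor <;> linarith [this.1, this.2.1]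
    · have := hpos j h
      have h2 := hr j
      rw [abs_le]
      constructor <;> linarith [this.1, this.2.1]
  have hβ : ∀ j, |(β j).re| ≤ 1 / 2 - d := by
    intro j
    by_cases h : j ∈ S
    · have := hneg j h
      have h2 := hr' j
      rw [abs_le]
      constructor <;> linarith [this.2.2.1, this.2.2.2]
    · have := hpos j h
      have h2 := hr' j
      rw [abs_le]
      constructor <;> linarith [this.2.2.1, this.2.2.2]
  have hpA : ∀ j, (if j ∈ S then r' j else r j) ≤ (swA S α β j).re ∧ (swA S α β j).re ≤ 1 / 2 - d ∧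
      |(swA S α β j).im| ≤ L := by
    intro j
    unfold swA
    by_cases h : j ∈ S
    · have := hneg j h
      rw [if_pos h, if_pos h, Complex.neg_re, Complex.neg_im, abs_neg]
      exact ⟨this.2.2.1, this.2.2.2, (him j).2⟩
    · have := hpos j h
      rw [if_neg h, if_neg h]
      exact ⟨this.1, this.2.1, (him j).1⟩
  have hpB : ∀ j, (if j ∈ S then r j else r' j) ≤ (swB S α β j).re ∧ (swB S α β j).re ≤ 1 / 2 - d ∧
      |(swB S α β j).im| ≤ L := by
    intro j
    unfold swB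
    by_cases h : j ∈ S
    · have := hneg j h
      rw [if_pos h, if_pos h, Complex.neg_re, Complex.neg_im, abs_neg]
      exact ⟨this.1, this.2.1, (him j).1⟩
    · have := hpos j h
      rw [if_neg h, if_neg h]
      exact ⟨this.2.2.1, this.2.2.2, (him j).2⟩
  have hρA : ∀ j, ρ ≤ (swA S α β j).re := by
    intro j
    refine le_trans ?_ (hpA j).1
    by_cases h : j ∈ S
    · rw [if_pos h]; exact hρr' j
    · rw [if_neg h]; exact hρr j
  have hρB : ∀ j, ρ ≤ (swB S α β j).re := by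
    intro j
    refine le_trans ?_ (hpB j).1
    by_cases h : j ∈ S
    · rw [if_pos h]; exact hρr j
    · rw [if_neg h]; exact hρr' j
  have hA1 : ∀ j, |(swA S α β j).re| ≤ 1 / 2 - d ∧ |(swA S α β j).im| ≤ L := fun j => by
    refine ⟨?_, (hpA j).2.2⟩
    rw [abs_of_nonneg (hρ0.le.trans (hρA j))]
    exact (hpA j).2.1
  have hB1' : ∀ j, |(swB S α β j).re| ≤ 1 / 2 - d ∧ |(swB S α β j).im| ≤ L := fun j => by
    refine ⟨?_, (hpB j).2.2⟩
    rw [abs_of_nonneg (hρ0.le.trans (hρB j))]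
    exact (hpB j).2.1
  obtain ⟨w, hw⟩ : ∃ w, w = -∑ j ∈ S, (α j + β j) := ⟨_, rfl⟩
  have hw2 : w = ∑ j ∈ S, (swB S α β j + swA S α β j) := by
    rw [hw, ← Finset.sum_neg_distrib]
    refine Finset.sum_congr rfl fun j hj => ?_
    unfold swA swB
    rw [if_pos hj, if_pos hj]
    ring
  obtain ⟨D, hD⟩ : ∃ D, D = ∑' n : ℕ, DA (swA S α β) n * DA (swB S α β) n / (n : ℂ) := ⟨_, rfl⟩
  rw [← hw, ← hD]
  -- the recipe for large `t`
  have h5' : ∀ t : ℝ, 1 ≤ t → L ≤ t → _ := fun t ht hLt => h5 t ht (swA S α β) (swB S α β)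
    (fun j => ⟨(hpA j).1, (hpA j).2.1, (hpA j).2.2.trans hLt⟩)
    (fun j => ⟨(hpB j).1, (hpB j).2.1, (hpB j).2.2.trans hLt⟩)
  have hR5 := h5' R hR1 hRL
  refine ⟨hR5.1, ?_⟩
  have hDn : ‖D‖ ≤ C5 := by rw [hD]; exact hR5.2.2.2
  obtain ⟨P, hP⟩ : ∃ P : ℝ → ℂ, P = fun t : ℝ => ∏ j, (riemannZeta (1 / 2 + swA S α β j + t * I) *
    riemannZeta (1 / 2 + swB S α β j - t * I)) := ⟨_, rfl⟩
  have hPc : Continuous P := by
    rw [hP]
    refine v11_cont (fun j => ?_) (fun j => ?_)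
    · linarith [(hpA j).2.1]
    · linarith [(hpB j).2.1]
  have hOc : Continuous fun t : ℝ => ∏ j, (riemannZeta (1 / 2 + α j + t * I) *
      riemannZeta (1 / 2 + β j - t * I)) := by
    refine v11_cont (fun j => ?_) (fun j => ?_)
    · linarith [(abs_le.1 (hα j)).2]
    · linarith [(abs_le.1 (hβ j)).2]
  have hPB : ∀ t : ℝ, 0 ≤ t → t ≤ R → ‖P t‖ ≤ B := by
    intro t ht1 ht2
    rw [hP]
    exact hB _ _ hA1 hB1' t ht1 ht2
  have hOB : ∀ t : ℝ, 0 ≤ t → t ≤ R → ‖∏ j, (riemannZeta (1 / 2 + α j + t * I) *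
      riemannZeta (1 / 2 + β j - t * I))‖ ≤ B := fun t ht1 ht2 =>
    hB _ _ (fun j => ⟨hα j, (him j).1⟩) (fun j => ⟨hβ j, (him j).2⟩) t ht1 ht2
  have hC5C0 : C5 ≤ C0 := by
    have : 0 ≤ (B + C5) * R ^ η := by positivity
    rw [hC0]; linarith
  have hrec : ∀ t : ℝ, 1 ≤ t → ‖(t : ℂ)⁻¹ * (∫ u in (0 : ℝ)..t, P u) - D‖ ≤ C0 * t ^ (-η) := by
    intro t ht
    have ht0 : 0 < t := by linarith
    rcases le_or_gt t R with hle | hgt
    · have e1 : ‖(t : ℂ)⁻¹ * (∫ u in (0 : ℝ)..t, P u)‖ ≤ B := by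
        have := intervalIntegral.norm_integral_le_of_norm_le_const (a := (0 : ℝ)) (b := t) (f := P) (C := B)
          (fun u hu => by
            rw [Set.uIoc_of_le ht0.le] at hu
            exact hPB u hu.1.le (hu.2.trans hle))
        rw [sub_zero, abs_of_pos ht0] at this
        rw [norm_mul, norm_inv, Complex.norm_real, Real.norm_of_nonneg ht0.le, inv_mul_le_iff₀ ht0]
        linarith
      have e2 : 1 ≤ R ^ η * t ^ (-η) := by
        rw [Real.rpow_neg ht0.le, ← div_eq_mul_inv, le_div_iff₀ (by positivity), one_mul]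
        exact Real.rpow_le_rpow ht0.le hle hη0.le
      calc _ ≤ B + C5 := (norm_sub_le _ _).trans (add_le_add e1 hDn)
        _ ≤ (B + C5) * (R ^ η * t ^ (-η)) := le_mul_of_one_le_right (by positivity) e2
        _ = (B + C5) * R ^ η * t ^ (-η) := by ring
        _ ≤ C0 * t ^ (-η) := by
            refine mul_le_mul_of_nonneg_right ?_ (by positivity)
            rw [hC0]; linarith
    · have h6 := (h5' t ht (by linarith)).2.1
      rw [← hD] at h6
      rw [hP]
      refine h6.trans ?_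
      have e1 : t ^ (-η5) ≤ t ^ (-η) := Real.rpow_le_rpow_of_exponent_le ht (by linarith)
      exact mul_le_mul hC5C0 e1 (by positivity) hC00
  have hL1 : ∀ t : ℝ, 1 ≤ t → t⁻¹ * (∫ u in (0 : ℝ)..t, ‖P u‖) ≤ C0 := by
    intro t ht
    have ht0 : 0 < t := by linarith
    rcases le_or_gt t R with hle | hgt
    · have := intervalIntegral.norm_integral_le_of_norm_le_const (a := (0 : ℝ)) (b := t)
        (f := fun u => ‖P u‖) (C := B) (fun u hu => by
          rw [Set.uIoc_of_le ht0.le] at hu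
          rw [norm_norm]
          exact hPB u hu.1.le (hu.2.trans hle))
      rw [sub_zero, abs_of_pos ht0] at this
      rw [inv_mul_le_iff₀ ht0]
      have h7 := Real.le_norm_self (∫ u in (0 : ℝ)..t, ‖P u‖)
      have h8 : B ≤ C0 := by
        have : 0 ≤ (B + C5) * R ^ η := by positivity
        rw [hC0]; linarith
      nlinarith
    · have h6 := (h5' t ht (by linarith)).2.2.1
      rw [hP]
      exact h6.trans hC5C0
  obtain ⟨X, hX⟩ : ∃ X : ℝ → ℂ, X = fun t : ℝ => ∏ j ∈ S, (cH (1 / 2 + swB S α β j - t * I) *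
    cH (1 / 2 + swA S α β j + t * I)) := ⟨_, rfl⟩
  have hXc : Continuous X := by
    rw [hX]
    refine continuous_finsetProd _ fun j _ => Continuous.mul ?_ ?_
    · have h7 := v13_cH_cont (c := 1 / 2 + swB S α β j) (by
        simp; linarith [hρB j]) (-1)
      refine h7.congr fun t => ?_
      congr 1
      push_cast
      ring
    · have h7 := v13_cH_cont (c := 1 / 2 + swA S α β j) (by
        simp; linarith [hρA j]) 1
      refine h7.congr fun t => ?_
      congr 1
      push_cast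
      ring
  have hwre : 0 ≤ w.re := by
    rw [hw2, Complex.re_sum]
    refine Finset.sum_nonneg fun j _ => ?_
    rw [Complex.add_re]
    linarith [hρA j, hρB j]
  have hwK : ‖w‖ ≤ K := by
    rw [hw2]
    have h8 : ∀ z : ℂ, |z.re| ≤ 1 / 2 - d ∧ |z.im| ≤ L → ‖z‖ ≤ 1 / 2 + L := by
      intro z hz
      have := Complex.norm_le_abs_re_add_abs_im z
      linarith [hz.1, hz.2]
    calc _ ≤ ∑ j ∈ S, ‖swB S α β j + swA S α β j‖ := norm_sum_le _ _
      _ ≤ ∑ _j ∈ S, (1 + 2 * L) := by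
          refine Finset.sum_le_sum fun j _ => (norm_add_le _ _).trans ?_
          have a1 := h8 _ (hA1 j)
          have a2 := h8 _ (hB1' j)
          linarith
      _ = S.card * (1 + 2 * L) := by rw [Finset.sum_const, nsmul_eq_mul]
      _ ≤ K := by
          rw [hK]
          refine mul_le_mul_of_nonneg_right ?_ (by positivity)
          have := Finset.card_le_univ S
          rw [Fintype.card_fin] at this
          exact_mod_cast this
  refine hstep _ P X D w hOc hPc hXc.continuousOn ?_ hwre hwK (hDn.trans hC5C0) hrec hL1 hOB hPB ?_ T hT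
  · intro t _
    rw [hX, hP]
    refine v11_fe S (fun j => ?_) (fun j => ?_) t
    · linarith [hα j]
    · linarith [hβ j]
  · intro t ht
    rw [hX]
    have h7 := h9 (swB S α β) (swA S α β) (fun j _ => ⟨hρB j, (hpB j).2.1, (hpB j).2.2⟩)
      (fun j _ => ⟨hρA j, (hpA j).2.1, (hpA j).2.2⟩) t (by linarith)
    rw [← hw2] at h7
    exact h7

end OL
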