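import Pool.Agent.Lib.MP_069854_nt.R9.U1
import Pool.Agent.Lib.MP_069854_nt.R9.U2
import Pool.Agent.Lib.MP_069854_nt.R9.U6a
import Pool.Agent.Lib.MP_069854_nt.R9.U6b
import Pool.Agent.Lib.MP_069854_nt.R9.V13

/-! # Unbalanced sign patterns -/

set_option autoImplicit false

open Complex MeasureTheory Set Filter Topology
open scoped ComplexConjugate

namespace OL

variable {k : ℕ}

/-- the sign of a factor after the swap -/
def eS (S S' : Finset (Fin k)) : Fin k ⊕ Fin k → Bool :=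
  Sum.elim (fun j => decide (j ∉ S)) (fun j => decide (j ∈ S'))

/-- the shift of a factor after the swap -/
def zS (S S' : Finset (Fin k)) (α β : Fin k → ℂ) : Fin k ⊕ Fin k → ℂ :=
  Sum.elim (fun j => if j ∈ S then -α j else α j) (fun j => if j ∈ S' then -β j else β j)

/-- the functional equation -/
lemma u7_fe (S S' : Finset (Fin k)) {α β : Fin k → ℂ} (ha : ∀ j, |(α j).re| < 1 / 2)
    (hb : ∀ j, |(β j).re| < 1 / 2) (t : ℝ) :
    ∏ j, (riemannZeta (1 / 2 + α j + t * I) * riemannZeta (1 / 2 + β j - t * I)) =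
    XX S S' (fun j => -α j) (fun j => -β j) t * ∏ i, zf (eS S S' i) (zS S S' α β i) t := by
  unfold XX
  have h1 : ∏ j ∈ S, cH (1 / 2 + -α j - t * I) = ∏ j, if j ∈ S then cH (1 / 2 + -α j - t * I) else 1 := by
    rw [Finset.prod_ite_mem, Finset.univ_inter]
  have h2 : ∏ j ∈ S', cH (1 / 2 + -β j + t * I) = ∏ j, if j ∈ S' then cH (1 / 2 + -β j + t * I) else 1 := by
    rw [Finset.prod_ite_mem, Finset.univ_inter]
  rw [Fintype.prod_sum_type, h1, h2, Finset.prod_mul_distrib]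
  have e1 : ∀ j, riemannZeta (1 / 2 + α j + t * I) = (if j ∈ S then cH (1 / 2 + -α j - t * I) else 1) *
      zf (eS S S' (Sum.inl j)) (zS S S' α β (Sum.inl j)) t := by
    intro j
    unfold zf eS zS
    by_cases hj : j ∈ S
    · have a1 := abs_lt.1 (ha j)
      simp only [Sum.elim_inl, hj, not_true_eq_false, decide_false, if_true]
      rw [if_neg (by simp), ← zeta_cH (by simp; linarith) (by
        intro h
        have := congrArg Complex.re h
        simp at this
        linarith)]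
      congr 1
      ring
    · simp only [Sum.elim_inl, hj, not_false_eq_true, decide_true, if_true, if_false, one_mul]
  have e2 : ∀ j, riemannZeta (1 / 2 + β j - t * I) = (if j ∈ S' then cH (1 / 2 + -β j + t * I) else 1) *
      zf (eS S S' (Sum.inr j)) (zS S S' α β (Sum.inr j)) t := by
    intro j
    unfold zf eS zS
    by_cases hj : j ∈ S'
    · have a1 := abs_lt.1 (hb j)
      simp only [Sum.elim_inr, hj, decide_true, if_true]
      rw [← zeta_cH (by simp; linarith) (by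
        intro h
        have := congrArg Complex.re h
        simp at this
        linarith)]
      congr 1
      ring
    · simp only [Sum.elim_inr, hj, decide_false, if_false, one_mul]
      rw [if_neg (by simp)]
  simp_rw [e1, e2]
  rw [Finset.prod_mul_distrib, Finset.prod_mul_distrib]
  ring

lemma zf_cont (e : Bool) {z : ℂ} (hz : z.re < 1 / 2) : Continuous fun t : ℝ => zf e z t := by
  unfold zf
  cases e
  · simp only [Bool.false_eq_true, if_false]
    rw [continuous_iff_continuousAt]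
    intro y
    have hne : (1 / 2 + z - (y : ℝ) * I : ℂ) ≠ 1 := by
      intro h
      have := congrArg Complex.re h
      simp at this
      linarith
    exact ContinuousAt.comp (f := fun y : ℝ => (1 / 2 + z - (y : ℝ) * I : ℂ)) (g := riemannZeta)
      (differentiableAt_riemannZeta hne).continuousAt (by fun_prop)
  · simp only [if_true]
    rw [continuous_iff_continuousAt]
    intro y
    have hne : (1 / 2 + z + (y : ℝ) * I : ℂ) ≠ 1 := by
      intro h
      have := congrArg Complex.re h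
      simp at this
      linarith
    exact ContinuousAt.comp (f := fun y : ℝ => (1 / 2 + z + (y : ℝ) * I : ℂ)) (g := riemannZeta)
      (differentiableAt_riemannZeta hne).continuousAt (by fun_prop)

/-- abstract step for large `T` -/
lemma u7_large {η C1 C2 C3 B R : ℝ} (hC1 : 0 ≤ C1) (hC2 : 0 ≤ C2) (hC3 : 0 ≤ C3) (hB : 0 ≤ B)
    (hR : 1 ≤ R) : ∃ C : ℝ, 0 ≤ C ∧ ∀ (O P Q X Y : ℝ → ℂ) (E T : ℝ), R ≤ T → 0 ≤ E →
    Continuous O → Continuous P → Continuous Q → ContinuousOn X (Icc R T) → ContinuousOn Y (Icc R T) →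
    (∀ t ∈ Icc R T, O t = X t * P t) → (∀ t, 0 ≤ t → t ≤ R → ‖O t‖ ≤ B) →
    (∀ t ∈ Icc R T, ‖X t‖ ≤ C1 * T ^ E) → (∀ t ∈ Icc R T, ‖X t - Y t‖ ≤ C1 * T ^ E * t⁻¹) →
    T⁻¹ * (∫ t in (0 : ℝ)..T, ‖P t - Q t‖) ≤ C2 * T ^ (-η) → (∀ t, ‖Q t‖ ≤ T ^ (1 / 8 : ℝ)) →
    ‖∫ t in R..T, Y t * Q t‖ ≤ C3 * T ^ (E + 7 / 8) →
    ‖(T : ℂ)⁻¹ * ∫ t in (0 : ℝ)..T, O t‖ ≤ C * T ^ (E - min η (1 / 8)) := by
  refine ⟨R * B + C1 * C2 + 8 * C1 + C3, by positivity, fun O P Q X Y E T hRT hE hO hP hQ hX hY hOXP hOB hX1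
    hXY hPQ hQ1 hYQ => ?_⟩
  have hT1 : 1 ≤ T := hR.trans hRT
  have hT0 : 0 < T := by linarith
  have hR0 : 0 < R := by linarith
  obtain ⟨m, hm⟩ : ∃ m, m = min η (1 / 8) := ⟨_, rfl⟩
  have hmη : m ≤ η := by rw [hm]; exact min_le_left _ _
  have hm8 : m ≤ 1 / 8 := by rw [hm]; exact min_le_right _ _
  rw [← hm]
  have hTi : ‖(T : ℂ)⁻¹‖ = T⁻¹ := by
    rw [norm_inv, Complex.norm_real, Real.norm_of_nonneg hT0.le]
  have hX' : ContinuousOn X (Set.uIcc R T) := by rw [Set.uIcc_of_le hRT]; exact hX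
  have hY' : ContinuousOn Y (Set.uIcc R T) := by rw [Set.uIcc_of_le hRT]; exact hY
  have i1 : IntervalIntegrable (fun t => X t * (P t - Q t)) volume R T :=
    (hX'.mul (hP.sub hQ).continuousOn).intervalIntegrable
  have i2 : IntervalIntegrable (fun t => (X t - Y t) * Q t) volume R T :=
    ((hX'.sub hY').mul hQ.continuousOn).intervalIntegrable
  have i3 : IntervalIntegrable (fun t => Y t * Q t) volume R T := (hY'.mul hQ.continuousOn).intervalIntegrable
  have d1 : ∫ t in (0 : ℝ)..T, O t = (∫ t in (0 : ℝ)..R, O t) + ((∫ t in R..T, X t * (P t - Q t)) +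
      (∫ t in R..T, (X t - Y t) * Q t) + ∫ t in R..T, Y t * Q t) := by
    rw [← intervalIntegral.integral_add_adjacent_intervals (hO.intervalIntegrable 0 R)
      (hO.intervalIntegrable R T), ← intervalIntegral.integral_add i1 i2,
      ← intervalIntegral.integral_add (i1.add i2) i3]
    congr 1
    refine intervalIntegral.integral_congr fun t ht => ?_
    rw [Set.uIcc_of_le hRT] at ht
    rw [hOXP t ht]
    ring
  have f1 : ‖∫ t in (0 : ℝ)..R, O t‖ ≤ R * B := by
    have := intervalIntegral.norm_integral_le_of_norm_le_const (a := (0 : ℝ)) (b := R) (f := O) (C := B)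
      (fun t ht => by
        rw [Set.uIoc_of_le hR0.le] at ht
        exact hOB t ht.1.le ht.2)
    rw [sub_zero, abs_of_pos hR0] at this
    linarith
  have f2 : ‖∫ t in R..T, X t * (P t - Q t)‖ ≤ C1 * T ^ E * (T * (C2 * T ^ (-η))) := by
    have a1 : ‖∫ t in R..T, X t * (P t - Q t)‖ ≤ ∫ t in R..T, C1 * T ^ E * ‖P t - Q t‖ := by
      refine (intervalIntegral.norm_integral_le_integral_norm hRT).trans ?_
      refine intervalIntegral.integral_mono_on hRT i1.norm
        (((hP.sub hQ).norm.const_mul _).intervalIntegrable _ _) fun t ht => ?_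
      rw [norm_mul]
      exact mul_le_mul_of_nonneg_right (hX1 t ht) (norm_nonneg _)
    rw [intervalIntegral.integral_const_mul] at a1
    have a2 : ∫ t in R..T, ‖P t - Q t‖ ≤ ∫ t in (0 : ℝ)..T, ‖P t - Q t‖ := by
      refine intervalIntegral.integral_mono_interval hR0.le hRT le_rfl ?_
        ((hP.sub hQ).norm.intervalIntegrable _ _)
      exact Filter.Eventually.of_forall fun t => norm_nonneg _
    have a3 : ∫ t in (0 : ℝ)..T, ‖P t - Q t‖ ≤ T * (C2 * T ^ (-η)) := by
      rwa [inv_mul_le_iff₀ hT0] at hPQ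
    exact a1.trans (mul_le_mul_of_nonneg_left (a2.trans a3) (by positivity))
  have f3 : ‖∫ t in R..T, (X t - Y t) * Q t‖ ≤ C1 * T ^ E * T ^ (1 / 8 : ℝ) * Real.log T := by
    have c1 : ContinuousOn (fun t : ℝ => C1 * T ^ E * T ^ (1 / 8 : ℝ) * t⁻¹) (Set.uIcc R T) := by
      rw [Set.uIcc_of_le hRT]
      refine continuousOn_const.mul (continuousOn_inv₀.mono fun t ht => ?_)
      have : 0 < t := lt_of_lt_of_le hR0 ht.1
      simpa using this.ne'
    have a1 : ‖∫ t in R..T, (X t - Y t) * Q t‖ ≤ ∫ t in R..T, C1 * T ^ E * T ^ (1 / 8 : ℝ) * t⁻¹ := by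
      refine (intervalIntegral.norm_integral_le_integral_norm hRT).trans ?_
      refine intervalIntegral.integral_mono_on hRT i2.norm c1.intervalIntegrable fun t ht => ?_
      rw [norm_mul]
      have ht0 : 0 < t := lt_of_lt_of_le hR0 ht.1
      calc _ ≤ (C1 * T ^ E * t⁻¹) * T ^ (1 / 8 : ℝ) :=
            mul_le_mul (hXY t ht) (hQ1 t) (norm_nonneg _) (by positivity)
        _ = _ := by ring
    rw [intervalIntegral.integral_const_mul, integral_inv_of_pos hR0 hT0] at a1
    refine a1.trans (mul_le_mul_of_nonneg_left ?_ (by positivity))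
    exact Real.log_le_log (by positivity) (div_le_self hT0.le hR)
  have hlog : Real.log T ≤ 8 * T ^ (1 / 8 : ℝ) := by
    have := Real.log_le_rpow_div hT0.le (show (0 : ℝ) < 1 / 8 by norm_num)
    linarith
  have g1 : T⁻¹ * (R * B) ≤ R * B * T ^ (E - m) := by
    have : T⁻¹ ≤ T ^ (E - m) := by
      rw [← Real.rpow_neg_one]
      exact Real.rpow_le_rpow_of_exponent_le hT1 (by linarith)
    calc T⁻¹ * (R * B) ≤ T ^ (E - m) * (R * B) := mul_le_mul_of_nonneg_right this (by positivity)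
      _ = _ := by ring
  have g2 : T⁻¹ * (C1 * T ^ E * (T * (C2 * T ^ (-η)))) ≤ C1 * C2 * T ^ (E - m) := by
    have e1 : T⁻¹ * (C1 * T ^ E * (T * (C2 * T ^ (-η)))) = C1 * C2 * (T ^ E * T ^ (-η)) := by
      field_simp
    rw [e1, ← Real.rpow_add hT0]
    exact mul_le_mul_of_nonneg_left (Real.rpow_le_rpow_of_exponent_le hT1 (by linarith)) (by positivity)
  have g3 : T⁻¹ * (C1 * T ^ E * T ^ (1 / 8 : ℝ) * Real.log T) ≤ 8 * C1 * T ^ (E - m) := by
    calc T⁻¹ * (C1 * T ^ E * T ^ (1 / 8 : ℝ) * Real.log T)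
        ≤ T⁻¹ * (C1 * T ^ E * T ^ (1 / 8 : ℝ) * (8 * T ^ (1 / 8 : ℝ))) := by gcongr
      _ = 8 * C1 * (T ^ (-1 : ℝ) * (T ^ E * (T ^ (1 / 8 : ℝ) * T ^ (1 / 8 : ℝ)))) := by
          rw [Real.rpow_neg_one]; ring
      _ ≤ _ := by
          rw [← Real.rpow_add hT0, ← Real.rpow_add hT0, ← Real.rpow_add hT0]
          exact mul_le_mul_of_nonneg_left (Real.rpow_le_rpow_of_exponent_le hT1 (by linarith)) (by positivity)
  have g4 : T⁻¹ * (C3 * T ^ (E + 7 / 8)) ≤ C3 * T ^ (E - m) := by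
    calc T⁻¹ * (C3 * T ^ (E + 7 / 8)) = C3 * (T ^ (-1 : ℝ) * T ^ (E + 7 / 8)) := by
          rw [Real.rpow_neg_one]; ring
      _ ≤ _ := by
          rw [← Real.rpow_add hT0]
          exact mul_le_mul_of_nonneg_left (Real.rpow_le_rpow_of_exponent_le hT1 (by linarith)) hC3
  rw [norm_mul, hTi, d1]
  have n1 : ‖(∫ t in (0 : ℝ)..R, O t) + ((∫ t in R..T, X t * (P t - Q t)) +
      (∫ t in R..T, (X t - Y t) * Q t) + ∫ t in R..T, Y t * Q t)‖ ≤ R * B +
      (C1 * T ^ E * (T * (C2 * T ^ (-η))) + C1 * T ^ E * T ^ (1 / 8 : ℝ) * Real.log T +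
        C3 * T ^ (E + 7 / 8)) :=
    (norm_add_le _ _).trans (add_le_add f1 ((norm_add_le _ _).trans (add_le_add
      ((norm_add_le _ _).trans (add_le_add f2 f3)) hYQ)))
  have hTi0 : 0 ≤ T⁻¹ := by positivity
  calc _ ≤ T⁻¹ * (R * B + (C1 * T ^ E * (T * (C2 * T ^ (-η))) +
        C1 * T ^ E * T ^ (1 / 8 : ℝ) * Real.log T + C3 * T ^ (E + 7 / 8))) :=
        mul_le_mul_of_nonneg_left n1 hTi0
    _ = T⁻¹ * (R * B) + T⁻¹ * (C1 * T ^ E * (T * (C2 * T ^ (-η)))) +
        T⁻¹ * (C1 * T ^ E * T ^ (1 / 8 : ℝ) * Real.log T) + T⁻¹ * (C3 * T ^ (E + 7 / 8)) := by ring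
    _ ≤ R * B * T ^ (E - m) + C1 * C2 * T ^ (E - m) + 8 * C1 * T ^ (E - m) + C3 * T ^ (E - m) :=
        add_le_add (add_le_add (add_le_add g1 g2) g3) g4
    _ = _ := by ring

end OL
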