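import Pool.Agent.Lib.MP_069854_nt.R9.U7

/-! # Unbalanced sign patterns: the bound -/

set_option autoImplicit false

open Complex MeasureTheory Set Filter Topology
open scoped ComplexConjugate

namespace OL

variable {k : ℕ}

lemma u8_sf_cont (e : Bool) {z : ℂ} {X : ℝ} (hX : 0 < X) (hz : 0 ≤ z.re) : Continuous fun t : ℝ => sf e z X t :=
  AP_cont (AP_sf e hX hz)

/-- **unbalanced patterns**: the mean value is small -/
theorem U8_unbal (hk : 1 ≤ k) {d : ℝ} (hd : 0 < d) {s s' A A' r r' : Fin k → ℝ}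
    (hs : ∀ j, 1 / 2 ≤ s j ∧ 1 ≤ A j ∧ MB (s j) (A j) ∧ s j < 1 / 2 + r j)
    (hs' : ∀ j, 1 / 2 ≤ s' j ∧ 1 ≤ A' j ∧ MB (s' j) (A' j) ∧ s' j < 1 / 2 + r' j)
    (hsum : ∑ j, 1 / A j + ∑ j, 1 / A' j ≤ 1) {L : ℝ} (hL : 0 ≤ L) (S S' : Finset (Fin k))
    (hSS : S.card ≠ S'.card) :
    ∃ η C : ℝ, 0 < η ∧ 0 ≤ C ∧ ∀ T : ℝ, 1 ≤ T → ∀ α β : Fin k → ℂ,
      (∀ j, |(α j).im| ≤ L ∧ |(β j).im| ≤ L) →
      (∀ j, r j ≤ |(α j).re| ∧ |(α j).re| ≤ 1 / 2 - d ∧ r' j ≤ |(β j).re| ∧ |(β j).re| ≤ 1 / 2 - d) →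
      (∀ j, (j ∈ S ↔ (α j).re < 0) ∧ (j ∈ S' ↔ (β j).re < 0)) →
      ‖(T : ℂ)⁻¹ * (∫ t in (0 : ℝ)..T, ∏ j, (riemannZeta (1 / 2 + α j + t * I) *
        riemannZeta (1 / 2 + β j - t * I)))‖ ≤
        C * T ^ (-(∑ j ∈ S, α j + ∑ j ∈ S', β j).re - η) := by
  have hk0 : (0 : ℝ) < k := by exact_mod_cast hk
  have hr : ∀ j, 0 < r j := fun j => by linarith [(hs j).1, (hs j).2.2.2]
  have hr' : ∀ j, 0 < r' j := fun j => by linarith [(hs' j).1, (hs' j).2.2.2]
  obtain ⟨K, hK⟩ : ∃ K : ℝ, K = 2 * k * (1 / 2 + L) := ⟨_, rfl⟩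
  have hK0 : 0 ≤ K := by rw [hK]; positivity
  obtain ⟨m, hm⟩ : ∃ m : ℤ, m = (S.card : ℤ) - S'.card := ⟨_, rfl⟩
  have hm0 : m ≠ 0 := by
    rw [hm]
    intro h
    exact hSS (by omega)
  obtain ⟨δ, η1, C2, hδ0, hδ1, hη1, hC2, happ⟩ := U1_approx hd (eS S S')
    (s := Sum.elim s s') (A := Sum.elim A A') (r := Sum.elim r r')
    (by
      rintro (j | j)
      · exact hs j
      · exact hs' j)
    (by
      rw [Fintype.sum_sum_type]
      exact hsum) (δ0 := 1 / (16 * k)) (by positivity)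
  obtain ⟨Cx, Tx, hCx, hTx, hXX⟩ := XX_approx (k := k) hd hL S S'
  obtain ⟨C3, T3, hC3, hT3, hosc⟩ := gc_osc hm0 hK0
  obtain ⟨R, hR⟩ : ∃ R, R = max (max Tx T3) (max L 1) := ⟨_, rfl⟩
  have hRTx : Tx ≤ R := by rw [hR]; exact (le_max_left _ _).trans (le_max_left _ _)
  have hRT3 : T3 ≤ R := by rw [hR]; exact (le_max_right _ _).trans (le_max_left _ _)
  have hRL : L ≤ R := by rw [hR]; exact (le_max_left _ _).trans (le_max_right _ _)
  have hR1 : 1 ≤ R := by rw [hR]; exact (le_max_right _ _).trans (le_max_right _ _)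
  have hR0 : 0 < R := by linarith
  obtain ⟨B, hB1, hB⟩ := v11_pb (k := k) (L := L) hd R
  have hB0 : 0 ≤ B := by linarith
  obtain ⟨C, hC, hlarge⟩ := u7_large (η := η1) (C1 := 1 + Cx) (C2 := C2) (C3 := C3) (B := B) (R := R)
    (by positivity) hC2 hC3 hB0 hR1
  obtain ⟨η, hη⟩ : ∃ η, η = min η1 (1 / 8) := ⟨_, rfl⟩
  have hη0 : 0 < η := by rw [hη]; exact lt_min hη1 (by norm_num)
  refine ⟨η, C + B * R ^ η, hη0, by positivity, fun T hT α β him hre hsg => ?_⟩
  have hT0 : 0 < T := by linarith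
  obtain ⟨w, hw⟩ : ∃ w, w = ∑ j ∈ S, -α j + ∑ j ∈ S', -β j := ⟨_, rfl⟩
  have hw2 : -(∑ j ∈ S, α j + ∑ j ∈ S', β j).re = w.re := by
    rw [hw, Finset.sum_neg_distrib, Finset.sum_neg_distrib, Complex.add_re, Complex.add_re,
      Complex.neg_re, Complex.neg_re]
    ring
  rw [hw2]
  have hSre : ∀ j ∈ S, 0 ≤ (-α j).re := fun j hj => by
    rw [Complex.neg_re]
    linarith [(hsg j).1.1 hj]
  have hSre' : ∀ j ∈ S', 0 ≤ (-β j).re := fun j hj => by
    rw [Complex.neg_re]
    linarith [(hsg j).2.1 hj]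
  have hwre : 0 ≤ w.re := by
    rw [hw, Complex.add_re, Complex.re_sum, Complex.re_sum]
    exact add_nonneg (Finset.sum_nonneg hSre) (Finset.sum_nonneg hSre')
  have hnorm : ∀ z : ℂ, |z.re| ≤ 1 / 2 - d → |z.im| ≤ L → ‖z‖ ≤ 1 / 2 + L := by
    intro z h1 h2
    have := Complex.norm_le_abs_re_add_abs_im z
    linarith
  have hwK : ‖w‖ ≤ K := by
    have a1 : ‖∑ j ∈ S, -α j‖ ≤ k * (1 / 2 + L) := by
      calc _ ≤ ∑ j ∈ S, ‖-α j‖ := norm_sum_le _ _
        _ ≤ ∑ _j ∈ S, (1 / 2 + L) := Finset.sum_le_sum fun j _ => by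
            rw [norm_neg]; exact hnorm _ (hre j).2.1 (him j).1
        _ = S.card * (1 / 2 + L) := by rw [Finset.sum_const, nsmul_eq_mul]
        _ ≤ _ := by
            refine mul_le_mul_of_nonneg_right ?_ (by positivity)
            have := Finset.card_le_univ S
            rw [Fintype.card_fin] at this
            exact_mod_cast this
    have a2 : ‖∑ j ∈ S', -β j‖ ≤ k * (1 / 2 + L) := by
      calc _ ≤ ∑ j ∈ S', ‖-β j‖ := norm_sum_le _ _
        _ ≤ ∑ _j ∈ S', (1 / 2 + L) := Finset.sum_le_sum fun j _ => by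
            rw [norm_neg]; exact hnorm _ (hre j).2.2.2 (him j).2
        _ = S'.card * (1 / 2 + L) := by rw [Finset.sum_const, nsmul_eq_mul]
        _ ≤ _ := by
            refine mul_le_mul_of_nonneg_right ?_ (by positivity)
            have := Finset.card_le_univ S'
            rw [Fintype.card_fin] at this
            exact_mod_cast this
    rw [hw, hK]
    refine (norm_add_le _ _).trans ?_
    linarith
  have hα1 : ∀ j, |(α j).re| < 1 / 2 := fun j => by linarith [(hre j).2.1]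
  have hβ1 : ∀ j, |(β j).re| < 1 / 2 := fun j => by linarith [(hre j).2.2.2]
  obtain ⟨O, hO⟩ : ∃ O : ℝ → ℂ, O = fun t : ℝ => ∏ j, (riemannZeta (1 / 2 + α j + t * I) *
    riemannZeta (1 / 2 + β j - t * I)) := ⟨_, rfl⟩
  have hOc : Continuous O := by
    rw [hO]
    exact v11_cont (fun j => by linarith [(abs_lt.1 (hα1 j)).2]) (fun j => by
      linarith [(abs_lt.1 (hβ1 j)).2])
  have hOB : ∀ t : ℝ, 0 ≤ t → t ≤ R → ‖O t‖ ≤ B := fun t ht1 ht2 => by
    rw [hO]
    exact hB _ _ (fun j => ⟨(hre j).2.1, (him j).1⟩) (fun j => ⟨(hre j).2.2.2, (him j).2⟩) t ht1 ht2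
  have hgoal : (fun t : ℝ => ∏ j, (riemannZeta (1 / 2 + α j + t * I) *
    riemannZeta (1 / 2 + β j - t * I))) = O := hO.symm
  rw [hgoal]
  rcases le_or_gt R T with hRT | hRT
  swap
  · -- small `T`
    have e1 : ‖∫ t in (0 : ℝ)..T, O t‖ ≤ T * B := by
      have := intervalIntegral.norm_integral_le_of_norm_le_const (a := (0 : ℝ)) (b := T) (f := O) (C := B)
        (fun t ht => by
          rw [Set.uIoc_of_le hT0.le] at ht
          exact hOB t ht.1.le (ht.2.trans hRT.le))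
      rw [sub_zero, abs_of_pos hT0] at this
      linarith
    have e2 : ‖(T : ℂ)⁻¹ * (∫ t in (0 : ℝ)..T, O t)‖ ≤ B := by
      rw [norm_mul, norm_inv, Complex.norm_real, Real.norm_of_nonneg hT0.le, inv_mul_le_iff₀ hT0]
      exact e1
    have e4 : 1 ≤ R ^ η * T ^ (w.re - η) := by
      have a1 : T ^ (-η) ≤ T ^ (w.re - η) := Real.rpow_le_rpow_of_exponent_le hT (by linarith)
      have a2 : 1 ≤ R ^ η * T ^ (-η) := by
        rw [Real.rpow_neg hT0.le, ← div_eq_mul_inv, le_div_iff₀ (by positivity), one_mul]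
        exact Real.rpow_le_rpow hT0.le hRT.le hη0.le
      calc (1 : ℝ) ≤ R ^ η * T ^ (-η) := a2
        _ ≤ _ := mul_le_mul_of_nonneg_left a1 (by positivity)
    have e5 : 0 ≤ C * T ^ (w.re - η) := by positivity
    calc _ ≤ B := e2
      _ ≤ B * (R ^ η * T ^ (w.re - η)) := le_mul_of_one_le_right hB0 e4
      _ ≤ _ := by linarith
  -- large `T`
  have hz : ∀ i, Sum.elim r r' i ≤ (zS S S' α β i).re ∧ (zS S S' α β i).re ≤ 1 / 2 - d ∧
      |(zS S S' α β i).im| ≤ L := by
    rintro (j | j)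
    · simp only [zS, Sum.elim_inl]
      by_cases h : j ∈ S
      · rw [if_pos h, Complex.neg_re, Complex.neg_im, abs_neg]
        have a1 := (hsg j).1.1 h
        have a2 := hre j
        rw [abs_of_neg a1] at a2
        exact ⟨a2.1, a2.2.1, (him j).1⟩
      · rw [if_neg h]
        have a1 : 0 ≤ (α j).re := not_lt.1 fun hlt => h ((hsg j).1.2 hlt)
        have a2 := hre j
        rw [abs_of_nonneg a1] at a2
        exact ⟨a2.1, a2.2.1, (him j).1⟩
    · simp only [zS, Sum.elim_inr]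
      by_cases h : j ∈ S'
      · rw [if_pos h, Complex.neg_re, Complex.neg_im, abs_neg]
        have a1 := (hsg j).2.1 h
        have a2 := (hre j).2.2
        rw [abs_of_neg a1] at a2
        exact ⟨a2.1, a2.2, (him j).2⟩
      · rw [if_neg h]
        have a1 : 0 ≤ (β j).re := not_lt.1 fun hlt => h ((hsg j).2.2 hlt)
        have a2 := (hre j).2.2
        rw [abs_of_nonneg a1] at a2
        exact ⟨a2.1, a2.2, (him j).2⟩
  have hz0 : ∀ i, 0 ≤ (zS S S' α β i).re := by
    intro i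
    refine le_trans ?_ (hz i).1
    rcases i with j | j
    · exact (hr j).le
    · exact (hr' j).le
  have happT := happ T hT (zS S S' α β) (fun i => ⟨(hz i).1, (hz i).2.1, (hz i).2.2.trans (hRL.trans hRT)⟩)
  have hXp : 0 < T ^ δ := by positivity
  obtain ⟨P, hP⟩ : ∃ P : ℝ → ℂ, P = fun t => ∏ i, zf (eS S S' i) (zS S S' α β i) t := ⟨_, rfl⟩
  obtain ⟨Q, hQ⟩ : ∃ Q : ℝ → ℂ, Q = fun t => ∏ i, sf (eS S S' i) (zS S S' α β i) (T ^ δ) t := ⟨_, rfl⟩
  have hPc : Continuous P := by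
    rw [hP]
    exact continuous_finsetProd _ fun i _ => zf_cont _ (by linarith [(hz i).2.1])
  have hQAP : AP ((T ^ δ) ^ Fintype.card (Fin k ⊕ Fin k)) Q := by
    rw [hQ]
    exact AP_prod fun i => AP_sf _ hXp (hz0 i)
  have hQc : Continuous Q := AP_cont hQAP
  have hmass : (T ^ δ) ^ Fintype.card (Fin k ⊕ Fin k) ≤ T ^ (1 / 8 : ℝ) := by
    rw [← Real.rpow_natCast, ← Real.rpow_mul hT0.le]
    refine Real.rpow_le_rpow_of_exponent_le hT ?_
    rw [Fintype.card_sum, Fintype.card_fin]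
    push_cast
    calc δ * ((k : ℝ) + k) ≤ 1 / (16 * k) * (k + k) := mul_le_mul_of_nonneg_right hδ1 (by positivity)
      _ = 1 / 8 := by field_simp; ring
  have hQn : ∀ t, ‖Q t‖ ≤ T ^ (1 / 8 : ℝ) := fun t => (AP_norm hQAP t).trans hmass
  obtain ⟨X, hX⟩ : ∃ X : ℝ → ℂ, X = XX S S' (fun j => -α j) (fun j => -β j) := ⟨_, rfl⟩
  obtain ⟨Y, hY⟩ : ∃ Y : ℝ → ℂ, Y = fun t => gc t ^ m * pt t w := ⟨_, rfl⟩
  have hXc : Continuous X := by
    rw [hX]
    unfold XX
    refine Continuous.mul (continuous_finsetProd _ fun j hj => ?_) (continuous_finsetProd _ fun j hj => ?_)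
    · have h7 := v13_cH_cont (c := 1 / 2 + -α j) (by
        have := hSre j hj
        simp only [Complex.add_re]
        norm_num
        norm_num at this
        linarith) (-1)
      refine h7.congr fun t => ?_
      congr 1
      push_cast
      ring
    · have h7 := v13_cH_cont (c := 1 / 2 + -β j) (by
        have := hSre' j hj
        simp only [Complex.add_re]
        norm_num
        norm_num at this
        linarith) 1
      refine h7.congr fun t => ?_
      congr 1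
      push_cast
      ring
  have hptc : ContinuousOn (fun t : ℝ => pt t w) (Icc R T) := by
    intro y hy
    have hy0 : 0 < y := lt_of_lt_of_le hR0 hy.1
    unfold pt
    refine ContinuousAt.continuousWithinAt (ContinuousAt.cpow ?_ continuousAt_const ?_)
    · exact (Complex.continuous_ofReal.comp (continuous_id.div_const _)).continuousAt
    · left
      rw [Complex.ofReal_re]
      show 0 < y / (2 * Real.pi)
      positivity
  have hgc0 : ∀ t, gc t ≠ 0 := fun t h => by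
    have := gc_norm t
    rw [h, norm_zero] at this
    exact zero_ne_one this
  have hYc : ContinuousOn Y (Icc R T) := by
    rw [hY]
    refine ContinuousOn.mul ?_ hptc
    exact (gc_cont.zpow₀ m fun t => Or.inl (hgc0 t)).continuousOn
  have hYn : ∀ t ∈ Icc R T, ‖Y t‖ ≤ T ^ w.re := by
    intro t ht
    have ht0 : 0 < t := lt_of_lt_of_le hR0 ht.1
    rw [hY]
    simp only
    rw [norm_mul, norm_zpow, gc_norm, one_zpow, one_mul]
    exact (v8_norm_pt ht0 hwre).trans (Real.rpow_le_rpow ht0.le ht.2 hwre)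
  have hXY : ∀ t ∈ Icc R T, ‖X t - Y t‖ ≤ Cx * T ^ w.re * t⁻¹ := by
    intro t ht
    have ht0 : 0 < t := lt_of_lt_of_le hR0 ht.1
    have h8 := hXX (fun j => -α j) (fun j => -β j)
      (fun j hj => ⟨hSre j hj, by
        have := (hz (Sum.inl j)).2.1
        simp only [zS, Sum.elim_inl, if_pos hj] at this
        exact this, by
        rw [Complex.neg_im, abs_neg]; exact (him j).1⟩)
      (fun j hj => ⟨hSre' j hj, by
        have := (hz (Sum.inr j)).2.1
        simp only [zS, Sum.elim_inr, if_pos hj] at this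
        exact this, by
        rw [Complex.neg_im, abs_neg]; exact (him j).2⟩) t (hRTx.trans ht.1)
    rw [← hm, ← hw] at h8
    rw [hX, hY]
    refine h8.trans ?_
    rw [Real.rpow_sub ht0, Real.rpow_one, mul_assoc, div_eq_mul_inv]
    refine mul_le_mul_of_nonneg_left (mul_le_mul_of_nonneg_right ?_ (by positivity)) hCx
    exact Real.rpow_le_rpow ht0.le ht.2 hwre
  have hTw : 0 ≤ T ^ w.re := by positivity
  have key := hlarge O P Q X Y w.re T hRT hwre hOc hPc hQc hXc.continuousOn hYc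
    (fun t _ => by
      rw [hO, hX, hP]
      exact u7_fe S S' hα1 hβ1 t) hOB
    (fun t ht => by
      have ht0 : 0 < t := lt_of_lt_of_le hR0 ht.1
      have h9 := norm_add_le (X t - Y t) (Y t)
      rw [sub_add_cancel] at h9
      have h10 := hXY t ht
      have h11 := hYn t ht
      have h12 : Cx * T ^ w.re * t⁻¹ ≤ Cx * T ^ w.re :=
        mul_le_of_le_one_right (by positivity) (inv_le_one_of_one_le₀ (hR1.trans ht.1))
      linarith)
    (fun t ht => by
      have ht0 : 0 < t := lt_of_lt_of_le hR0 ht.1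
      refine (hXY t ht).trans ?_
      have : 0 ≤ T ^ w.re * t⁻¹ := by positivity
      nlinarith)
    (by rw [hP, hQ]; exact happT) hQn
    (by
      have h13 := AP_int (M := (T ^ δ) ^ Fintype.card (Fin k ⊕ Fin k)) (K := C3 * T ^ (w.re + 3 / 4)) hQAP
        (a := R) (b := T) (G := Y) (by rw [Set.uIcc_of_le hRT]; exact hYc) (fun u => by
          rw [hY]
          exact hosc w hwre hwK R u T hRT3 hRT)
      refine h13.trans ?_
      calc _ ≤ T ^ (1 / 8 : ℝ) * (C3 * T ^ (w.re + 3 / 4)) :=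
            mul_le_mul_of_nonneg_right hmass (by positivity)
        _ = C3 * (T ^ (1 / 8 : ℝ) * T ^ (w.re + 3 / 4)) := by ring
        _ = C3 * T ^ (w.re + 7 / 8) := by
            rw [← Real.rpow_add hT0]
            congr 2
            ring)
  rw [← hη] at key
  have e6 : 0 ≤ B * R ^ η * T ^ (w.re - η) := by positivity
  linarith

end OL
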