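import Pool.Agent.Lib.MP_39df77_nt.OL.K0

/-!
# The recipe with mixed real parts and with swaps: definitions
-/

set_option autoImplicit false

open Complex MeasureTheory Set Filter Topology

namespace OL

/-- the factor of the functional equation: `ζ(1-s) = cH s * ζ(s)` -/
noncomputable def cH (s : ℂ) : ℂ := 2 * (2 * Real.pi) ^ (-s) * Gamma s * cos (Real.pi * s / 2)

/-- the bound for `1/A` at the distance `r` to the right of the critical line -/
noncomputable def qq (r : ℝ) : ℝ := max (max (1 / 4 - 745 / 733 * r) (1 / 8 + 745 / 769 * (1 / 8 - r))) (1 / 8)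

/-- `(t/2π)^w` -/
noncomputable def pt (t : ℝ) (w : ℂ) : ℂ := ((t / (2 * Real.pi) : ℝ) : ℂ) ^ w

end OL
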