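import Pool.Agent.Lib.MP_39df77_nt.OL.K6b
import Pool.Agent.Lib.MP_069854_nt.R8.M4

/-! # zeta against the smoothed series on shifted windows, real orders -/

set_option autoImplicit false

open Complex MeasureTheory Set Filter Topology
open scoped ComplexConjugate

namespace OL

/-- `GR` is even -/
lemma v1_even (A s0 t : ℝ) : GR A s0 (-t) = GR A s0 t := by
  unfold GR
  rw [← integral_neg_eq_self (fun y : ℝ => ‖riemannZeta (s0 + (-t + y : ℝ) * I)‖ ^ A * Real.exp (-|y|))]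
  congr 1
  funext y
  have : ((s0 : ℂ) + ((-t + -y : ℝ) : ℂ) * I) = (starRingEnd ℂ) (s0 + ((t + y : ℝ) : ℂ) * I) := by
    simp
    ring
  rw [this, riemannZeta_conj, Complex.norm_conj, abs_neg]

/-- `GR` is nonnegative -/
lemma v1_nonneg (A s0 t : ℝ) : 0 ≤ GR A s0 t := by
  unfold GR
  exact integral_nonneg fun y => mul_nonneg (Real.rpow_nonneg (norm_nonneg _) A) (Real.exp_pos _).le

/-- `(a + b)^A ≤ 2^A (a^A + b^A)` -/
lemma v1_add {a b A : ℝ} (ha : 0 ≤ a) (hb : 0 ≤ b) (hA : 0 ≤ A) :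
    (a + b) ^ A ≤ 2 ^ A * (a ^ A + b ^ A) := by
  have h2 : (0 : ℝ) ≤ 2 ^ A := Real.rpow_nonneg (by norm_num) A
  have ha' : 0 ≤ a ^ A := Real.rpow_nonneg ha A
  have hb' : 0 ≤ b ^ A := Real.rpow_nonneg hb A
  rcases le_total a b with h | h
  · calc (a + b) ^ A ≤ (2 * b) ^ A := Real.rpow_le_rpow (by linarith) (by linarith) hA
      _ = 2 ^ A * b ^ A := Real.mul_rpow (by norm_num) hb
      _ ≤ 2 ^ A * (a ^ A + b ^ A) := mul_le_mul_of_nonneg_left (by linarith) h2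
  · calc (a + b) ^ A ≤ (2 * a) ^ A := Real.rpow_le_rpow (by linarith) (by linarith) hA
      _ = 2 ^ A * a ^ A := Real.mul_rpow (by norm_num) ha
      _ ≤ 2 ^ A * (a ^ A + b ^ A) := mul_le_mul_of_nonneg_left (by linarith) h2

/-- the pointwise bound -/
lemma v1_pt {C A x y Z G n t : ℝ} (hA : 1 ≤ A) (hC : 0 < C) (hx : 0 ≤ x) (hy : 0 ≤ y) (hZ : 0 ≤ Z)
    (ht : 0 ≤ t) (hn : 0 ≤ n) (h1 : n ≤ C * (x * Real.exp (-t) + y * Z))
    (h2 : Z ^ A ≤ 2 ^ (A - 1) * G) :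
    n ^ A ≤ 2 ^ A * C ^ A * x ^ A * Real.exp (-t) + 2 ^ A * C ^ A * y ^ A * (2 ^ (A - 1) * G) := by
  have hA0 : 0 ≤ A := by linarith
  have hK : 0 ≤ 2 ^ A * C ^ A := mul_nonneg (Real.rpow_nonneg (by norm_num) A) (Real.rpow_nonneg hC.le A)
  have he : Real.exp (-t) ^ A ≤ Real.exp (-t) := by
    rw [← Real.exp_mul]
    apply Real.exp_le_exp.2
    nlinarith
  have a1 : n ≤ C * (x * Real.exp (-t)) + C * (y * Z) := by
    rw [← mul_add]
    exact h1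
  have e1 : (C * (x * Real.exp (-t))) ^ A = C ^ A * (x ^ A * Real.exp (-t) ^ A) := by
    rw [Real.mul_rpow hC.le (mul_nonneg hx (Real.exp_pos _).le), Real.mul_rpow hx (Real.exp_pos _).le]
  have e2 : (C * (y * Z)) ^ A = C ^ A * (y ^ A * Z ^ A) := by
    rw [Real.mul_rpow hC.le (mul_nonneg hy hZ), Real.mul_rpow hy hZ]
  have hxA : 0 ≤ x ^ A := Real.rpow_nonneg hx A
  have hyA : 0 ≤ y ^ A := Real.rpow_nonneg hy A
  calc n ^ A ≤ (C * (x * Real.exp (-t)) + C * (y * Z)) ^ A := Real.rpow_le_rpow hn a1 hA0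
    _ ≤ 2 ^ A * ((C * (x * Real.exp (-t))) ^ A + (C * (y * Z)) ^ A) :=
        v1_add (mul_nonneg hC.le (mul_nonneg hx (Real.exp_pos _).le)) (mul_nonneg hC.le (mul_nonneg hy hZ)) hA0
    _ = 2 ^ A * C ^ A * x ^ A * Real.exp (-t) ^ A + 2 ^ A * C ^ A * y ^ A * Z ^ A := by
        rw [e1, e2]
        ring
    _ ≤ _ := add_le_add (mul_le_mul_of_nonneg_left he (mul_nonneg hK hxA))
        (mul_le_mul_of_nonneg_left h2 (mul_nonneg hK hyA))

/-- Row `v-1`, part 1. PROOF: `GR A s0 (-t) = GR A s0 t` (substitution `y ↦ -y`, `riemannZeta_conj`), so for `|x| ≤ T`: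
`∫_0^T GR (t+x) dt = ∫_x^{x+T} GR ≤ ∫_{-2T}^{2T} GR = 2 ∫_0^{2T} GR ≤ 2 C (2T)^(1+e)` by `K6_GR`. Interval integrability on `[-2T, 2T]` from
`K6_GR` on `[0, 2T]` and evenness. -/
theorem V1_GR {s0 A : ℝ} (h0 : 1 / 2 ≤ s0) (h1 : s0 < 1) (hA : 0 ≤ A) (h : MB s0 A) : ∀ e : ℝ, 0 < e →
    ∃ C : ℝ, 0 ≤ C ∧ ∀ T : ℝ, 1 ≤ T → ∀ x : ℝ, |x| ≤ T →
      IntervalIntegrable (fun t => GR A s0 (t + x)) volume 0 T ∧
      ∫ t in (0 : ℝ)..T, GR A s0 (t + x) ≤ C * T ^ (1 + e) := by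
  intro e he
  obtain ⟨C, hC0, hC⟩ := K6_GR h0 h1 hA h e he
  refine ⟨2 * (C * 2 ^ (1 + e)), by positivity, fun T hT x hx => ?_⟩
  have hT0 : 0 < T := by linarith
  have h2T : 1 ≤ 2 * T := by linarith
  obtain ⟨g1, g2⟩ := hC (2 * T) h2T
  have g3 : IntervalIntegrable (fun t => GR A s0 t) volume (-(2 * T)) 0 := by
    have := g1.symm
    rw [IntervalIntegrable.iff_comp_neg] at this
    rw [neg_zero] at this
    have h3 : (fun t => GR A s0 (-t)) = fun t => GR A s0 t := funext fun t => v1_even A s0 t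
    rw [h3] at this
    exact this
  have g4 : IntervalIntegrable (fun t => GR A s0 t) volume (-(2 * T)) (2 * T) := g3.trans g1
  obtain ⟨a1, a2⟩ := abs_le.1 hx
  have hsub : ∀ a b : ℝ, -(2 * T) ≤ a → a ≤ 2 * T → -(2 * T) ≤ b → b ≤ 2 * T →
      IntervalIntegrable (fun t => GR A s0 t) volume a b := by
    intro a b ha ha' hb hb'
    refine g4.mono_set ?_
    rw [uIcc_of_le (by linarith : -(2 * T) ≤ 2 * T)]
    exact uIcc_subset_Icc ⟨ha, ha'⟩ ⟨hb, hb'⟩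
  have hint : IntervalIntegrable (fun t => GR A s0 (t + x)) volume 0 T := by
    have h3 := (hsub x (T + x) (by linarith) (by linarith) (by linarith) (by linarith)).comp_add_right x
    rw [sub_self, add_sub_cancel_right] at h3
    exact h3
  refine ⟨hint, ?_⟩
  have e1 : ∫ t in (0 : ℝ)..T, GR A s0 (t + x) = ∫ t in x..(T + x), GR A s0 t := by
    have := intervalIntegral.integral_comp_add_right (a := 0) (b := T) (fun u : ℝ => GR A s0 u) x
    rw [zero_add] at this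
    exact this
  have e2 : ∫ t in x..(T + x), GR A s0 t ≤ ∫ t in (-(2 * T))..(2 * T), GR A s0 t := by
    rw [← intervalIntegral.integral_add_adjacent_intervals
        (hsub (-(2 * T)) x (by linarith) (by linarith) (by linarith) (by linarith))
        (hsub x (2 * T) (by linarith) (by linarith) (by linarith) (by linarith)),
      ← intervalIntegral.integral_add_adjacent_intervals
        (hsub x (T + x) (by linarith) (by linarith) (by linarith) (by linarith))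
        (hsub (T + x) (2 * T) (by linarith) (by linarith) (by linarith) (by linarith))]
    have b1 : 0 ≤ ∫ t in (-(2 * T))..x, GR A s0 t :=
      intervalIntegral.integral_nonneg (by linarith) fun t _ => v1_nonneg A s0 t
    have b2 : 0 ≤ ∫ t in (T + x)..(2 * T), GR A s0 t :=
      intervalIntegral.integral_nonneg (by linarith) fun t _ => v1_nonneg A s0 t
    linarith
  have e3 : ∫ t in (-(2 * T))..(2 * T), GR A s0 t = 2 * ∫ t in (0 : ℝ)..(2 * T), GR A s0 t := by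
    rw [← intervalIntegral.integral_add_adjacent_intervals g3 g1]
    have h3 : ∫ t in (-(2 * T))..0, GR A s0 t = ∫ t in (0 : ℝ)..(2 * T), GR A s0 t := by
      have h4 := intervalIntegral.integral_comp_neg (a := 0) (b := 2 * T) (fun u : ℝ => GR A s0 u)
      rw [neg_zero] at h4
      rw [← h4]
      congr 1
      funext t
      exact v1_even A s0 t
    rw [h3]
    ring
  rw [e1]
  refine e2.trans ?_
  rw [e3]
  calc 2 * ∫ t in (0 : ℝ)..(2 * T), GR A s0 t ≤ 2 * (C * (2 * T) ^ (1 + e)) := by linarith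
    _ = 2 * (C * 2 ^ (1 + e)) * T ^ (1 + e) := by
        rw [Real.mul_rpow (by norm_num) hT0.le]
        ring

/-- part 2. PROOF: pattern `M4_diff` (`R8/M4.lean`) and `K7_diff` (`OL/K7.lean`). By `smoothing_unif` (`R8/M4a.lean`) at `X = T^δ`, `β = s0`:
`‖ζ - Sx‖ ≤ C (X^(1-σ1) e^{-|t+x|} + X^(s0-σ1) Zl s0 (t+x))`, the `A`-th power is `≤ (2C)^A (X^((1-σ1)A) e^{-A|t+x|} + X^(-(σ1-s0)A) Zl^A)`,
`e^{-A|.|} ≤ e^{-|.|}`, `M4_exp`, `Zl^A ≤ 2^(A-1) GR` (`K6_Zl`), part 1 with `e = δ (σ1-s0) A / 2`. First term: `T^(δ(1-σ1)A - 1) ≤ T^(-1/2)`. -/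
theorem V1_diff {A s0 σ1 σ2 δ : ℝ} (hA : 1 ≤ A) (h0 : 1 / 2 ≤ s0) (h1 : s0 < σ1) (h12 : σ1 ≤ σ2)
    (h2 : σ2 < 1) (hδ : 0 < δ) (hδA : δ * A ≤ 1 / 2) (h : MB s0 A) :
    ∃ r C : ℝ, 0 < r ∧ 0 ≤ C ∧ ∀ σ : ℝ, σ1 ≤ σ → σ ≤ σ2 → ∀ T : ℝ, 1 ≤ T → ∀ x : ℝ, |x| ≤ T →
      T⁻¹ * (∫ t in (0 : ℝ)..T, ‖riemannZeta (σ + (t + x : ℝ) * I) - Sx σ (T ^ δ) (t + x)‖ ^ A) ≤
        C * T ^ (-r) := by
  have hA0 : 0 < A := by linarith
  have h01 : s0 < 1 := by linarith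
  obtain ⟨e, he⟩ : ∃ e : ℝ, e = δ * (σ1 - s0) * A / 2 := ⟨_, rfl⟩
  have he0 : 0 < e := by
    rw [he]
    have : 0 < σ1 - s0 := by linarith
    positivity
  obtain ⟨D, hD0, hD⟩ := V1_GR h0 h01 hA0.le h e he0
  obtain ⟨C, hC0, hC⟩ := smoothing_unif h0 h1 h12 h2
  obtain ⟨K, hK⟩ : ∃ K : ℝ, K = 2 ^ A * C ^ A := ⟨_, rfl⟩
  have hK0 : 0 ≤ K := by
    rw [hK]
    exact mul_nonneg (Real.rpow_nonneg (by norm_num) A) (Real.rpow_nonneg hC0.le A)
  have h2A : (0 : ℝ) ≤ 2 ^ (A - 1) := Real.rpow_nonneg (by norm_num) _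
  refine ⟨min e (1 / 2), K * (2 + 2 ^ (A - 1) * D), lt_min he0 (by norm_num), by positivity,
    fun σ hσ1 hσ2 T hT x hx => ?_⟩
  have hT0 : 0 < T := by linarith
  obtain ⟨g1, g2⟩ := hD T hT x hx
  have hX1 : 1 ≤ T ^ δ := Real.one_le_rpow hT hδ.le
  obtain ⟨X, hX⟩ : ∃ X : ℝ, X = T ^ δ := ⟨_, rfl⟩
  rw [← hX] at hX1 ⊢
  have hX0 : 0 < X := by linarith
  have hpt : ∀ t ∈ Icc 0 T, ‖riemannZeta (σ + (t + x : ℝ) * I) - Sx σ X (t + x)‖ ^ A ≤
      K * (X ^ (1 - σ1)) ^ A * Real.exp (-|t + x|) +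
        K * (X ^ (s0 - σ1)) ^ A * (2 ^ (A - 1) * GR A s0 (t + x)) := by
    intro t _
    have b1 := hC σ hσ1 hσ2 X (t + x) hX1
    have hZ0 : 0 ≤ Zl s0 (t + x) := by
      unfold Zl
      exact integral_nonneg fun y => by positivity
    rw [hK]
    exact v1_pt hA hC0 (Real.rpow_nonneg hX0.le _) (Real.rpow_nonneg hX0.le _) hZ0 (abs_nonneg _)
      (norm_nonneg _) b1 (K6_Zl h0 h01 hA (t + x))
  have hσ : σ < 1 := by linarith
  have hi1 : IntervalIntegrable (fun t : ℝ => ‖riemannZeta (σ + (t + x : ℝ) * I) -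
      Sx σ X (t + x)‖ ^ A) volume 0 T := by
    refine Continuous.intervalIntegrable ?_ _ _
    exact (((zeta_cont hσ).comp (continuous_id.add continuous_const)).sub
      ((Sx_cont hX0 σ).comp (continuous_id.add continuous_const))).norm.rpow_const fun t => Or.inr hA0.le
  have hi2 : IntervalIntegrable (fun t : ℝ => K * (X ^ (1 - σ1)) ^ A * Real.exp (-|t + x|)) volume 0 T :=
    (Continuous.intervalIntegrable (by fun_prop) _ _)
  have hi3 : IntervalIntegrable (fun t : ℝ => K * (X ^ (s0 - σ1)) ^ A * (2 ^ (A - 1) * GR A s0 (t + x)))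
      volume 0 T := (g1.const_mul _).const_mul _
  have hI := intervalIntegral.integral_mono_on hT0.le hi1 (hi2.add hi3) hpt
  rw [intervalIntegral.integral_add hi2 hi3, intervalIntegral.integral_const_mul,
    intervalIntegral.integral_const_mul, intervalIntegral.integral_const_mul] at hI
  have hexp := M4_exp hT0.le x
  have x1 : (X ^ (1 - σ1)) ^ A ≤ T ^ (1 / 2 : ℝ) := by
    rw [← Real.rpow_mul hX0.le, hX, ← Real.rpow_mul hT0.le]
    refine Real.rpow_le_rpow_of_exponent_le hT ?_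
    have h3 : δ * A * (1 - σ1) ≤ δ * A * 1 :=
      mul_le_mul_of_nonneg_left (by linarith) (mul_pos hδ hA0).le
    calc δ * ((1 - σ1) * A) = δ * A * (1 - σ1) := by ring
      _ ≤ δ * A * 1 := h3
      _ ≤ 1 / 2 := by linarith
  have x2 : (X ^ (s0 - σ1)) ^ A = T ^ (-(2 * e)) := by
    rw [← Real.rpow_mul hX0.le, hX, ← Real.rpow_mul hT0.le, he]
    congr 1
    ring
  rw [x2] at hI
  have n1 : 0 ≤ T ^ (1 / 2 : ℝ) := Real.rpow_nonneg hT0.le _
  have n3 : 0 ≤ T ^ (-(2 * e)) := Real.rpow_nonneg hT0.le _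
  have hfin : ∫ t in (0 : ℝ)..T, ‖riemannZeta (σ + (t + x : ℝ) * I) - Sx σ X (t + x)‖ ^ A ≤
      K * (2 * T ^ (1 / 2 : ℝ) + 2 ^ (A - 1) * D * (T ^ (-(2 * e)) * T ^ (1 + e))) := by
    refine hI.trans ?_
    have hex0 : 0 ≤ ∫ t in (0 : ℝ)..T, Real.exp (-|t + x|) :=
      intervalIntegral.integral_nonneg hT0.le fun t _ => (Real.exp_pos _).le
    have c1 : K * (X ^ (1 - σ1)) ^ A * (∫ t in (0 : ℝ)..T, Real.exp (-|t + x|)) ≤ K * T ^ (1 / 2 : ℝ) * 2 :=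
      mul_le_mul (mul_le_mul_of_nonneg_left x1 hK0) hexp hex0 (mul_nonneg hK0 n1)
    have c2 : K * T ^ (-(2 * e)) * (2 ^ (A - 1) * ∫ t in (0 : ℝ)..T, GR A s0 (t + x)) ≤
        K * T ^ (-(2 * e)) * (2 ^ (A - 1) * (D * T ^ (1 + e))) :=
      mul_le_mul_of_nonneg_left (mul_le_mul_of_nonneg_left g2 h2A) (mul_nonneg hK0 n3)
    calc _ ≤ K * T ^ (1 / 2 : ℝ) * 2 + K * T ^ (-(2 * e)) * (2 ^ (A - 1) * (D * T ^ (1 + e))) :=
          add_le_add c1 c2
      _ = _ := by ring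
  have y1 : T⁻¹ * T ^ (1 / 2 : ℝ) = T ^ (-(1 / 2) : ℝ) := by
    rw [← Real.rpow_neg_one, ← Real.rpow_add hT0]
    congr 1
    norm_num
  have y2 : T⁻¹ * (T ^ (-(2 * e)) * T ^ (1 + e)) = T ^ (-e) := by
    rw [← Real.rpow_neg_one, ← Real.rpow_add hT0, ← Real.rpow_add hT0]
    congr 1
    ring
  calc _ ≤ T⁻¹ * (K * (2 * T ^ (1 / 2 : ℝ) + 2 ^ (A - 1) * D * (T ^ (-(2 * e)) * T ^ (1 + e)))) :=
        mul_le_mul_of_nonneg_left hfin (inv_pos.2 hT0).le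
    _ = K * (2 * (T⁻¹ * T ^ (1 / 2 : ℝ)) + 2 ^ (A - 1) * D * (T⁻¹ * (T ^ (-(2 * e)) * T ^ (1 + e)))) := by
        ring
    _ = K * (2 * T ^ (-(1 / 2) : ℝ) + 2 ^ (A - 1) * D * T ^ (-e)) := by rw [y1, y2]
    _ ≤ K * (2 * T ^ (-(min e (1 / 2))) + 2 ^ (A - 1) * D * T ^ (-(min e (1 / 2)))) := by
        have z1 : T ^ (-(1 / 2) : ℝ) ≤ T ^ (-(min e (1 / 2))) :=
          Real.rpow_le_rpow_of_exponent_le hT (neg_le_neg (min_le_right _ _))
        have z2 : T ^ (-e) ≤ T ^ (-(min e (1 / 2))) :=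
          Real.rpow_le_rpow_of_exponent_le hT (neg_le_neg (min_le_left _ _))
        apply mul_le_mul_of_nonneg_left _ hK0
        exact add_le_add (mul_le_mul_of_nonneg_left z1 (by norm_num))
          (mul_le_mul_of_nonneg_left z2 (mul_nonneg h2A hD0))
    _ = _ := by ring

end OL
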