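import Pool.Agent.Lib.MP_069854_nt.R9.V0

/-! # Partial summation -/

set_option autoImplicit false

open Complex MeasureTheory Set Filter Topology
open scoped ComplexConjugate

namespace OL

theorem v10_pt_eq (t : ℝ) (w : ℂ) : pt t w = ((t : ℂ) / (2 * Real.pi)) ^ w := by
  unfold pt
  push_cast
  rfl

theorem v10_deriv {t : ℝ} (ht : 0 < t) (w : ℂ) :
    HasDerivAt (fun y : ℝ => pt y w) (w / t * pt t w) t := by
  have hpi : (0 : ℝ) < 2 * Real.pi := by positivity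
  have hpos : (0 : ℝ) < t / (2 * Real.pi) := div_pos ht hpi
  have hz : ((t : ℂ) / (2 * Real.pi)) ∈ slitPlane := by
    have h1 : ((t / (2 * Real.pi) : ℝ) : ℂ) ∈ slitPlane := Complex.ofReal_mem_slitPlane.2 hpos
    push_cast at h1
    exact h1
  have h1 : HasDerivAt (fun z : ℂ => (z / (2 * Real.pi)) ^ w)
      (w * ((t : ℂ) / (2 * Real.pi)) ^ (w - 1) * (1 / (2 * Real.pi))) (t : ℂ) :=
    ((hasDerivAt_id (t : ℂ)).div_const _).cpow_const hz
  have h2 := h1.comp_ofReal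
  have hne : ((t : ℂ) / (2 * Real.pi)) ≠ 0 := Complex.slitPlane_ne_zero hz
  have htne : (t : ℂ) ≠ 0 := by exact_mod_cast ht.ne'
  have hpne : (2 * (Real.pi : ℂ)) ≠ 0 := by
    have := hpi.ne'
    exact_mod_cast this
  have h3 : w * ((t : ℂ) / (2 * Real.pi)) ^ (w - 1) * (1 / (2 * Real.pi)) = w / t * pt t w := by
    rw [v10_pt_eq, Complex.cpow_sub _ _ hne, Complex.cpow_one]
    generalize ((t : ℂ) / (2 * Real.pi)) ^ w = X
    field_simp
  rw [h3] at h2
  have h4 : (fun y : ℝ => pt y w) = fun y : ℝ => ((y : ℂ) / (2 * Real.pi)) ^ w := by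
    funext y
    exact v10_pt_eq y w
  rw [h4]
  exact h2

theorem v10_norm {t : ℝ} (ht : 0 < t) {w : ℂ} (hw : 0 ≤ w.re) : ‖pt t w‖ ≤ t ^ w.re := by
  have hpi : (1 : ℝ) ≤ 2 * Real.pi := by linarith [Real.pi_gt_three]
  have hpos : (0 : ℝ) < t / (2 * Real.pi) := div_pos ht (by linarith)
  unfold pt
  rw [Complex.norm_cpow_eq_rpow_re_of_pos hpos]
  exact Real.rpow_le_rpow hpos.le (div_le_self ht.le hpi) hw

theorem v10_meas (w : ℂ) : Measurable fun t : ℝ => pt t w := by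
  unfold pt
  exact (Complex.measurable_ofReal.comp (measurable_id.div_const _)).pow_const w

theorem v10_one {w : ℂ} (hw : 0 ≤ w.re) : ‖pt 1 w‖ ≤ 1 := by
  have := v10_norm one_pos hw
  rwa [Real.one_rpow] at this

theorem v10_le_one {t : ℝ} (ht : 0 < t) (ht1 : t ≤ 1) {w : ℂ} (hw : 0 ≤ w.re) : ‖pt t w‖ ≤ 1 :=
  (v10_norm ht hw).trans (Real.rpow_le_one ht.le ht1 hw)

theorem v10_int01 {P : ℝ → ℂ} (hP : Continuous P) {w : ℂ} (hw : 0 ≤ w.re) :
    IntervalIntegrable (fun t => pt t w * P t) volume 0 1 := by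
  have h1 : IntervalIntegrable (fun t => pt t w) volume 0 1 := by
    rw [intervalIntegrable_iff_integrableOn_Ioc_of_le zero_le_one]
    refine Measure.integrableOn_of_bounded (M := 1) (by simp) (v10_meas w).aestronglyMeasurable ?_
    refine (ae_restrict_mem measurableSet_Ioc).mono fun t ht => ?_
    exact v10_le_one ht.1 ht.2 hw
  exact h1.mul_continuousOn hP.continuousOn

theorem v10_parts {P : ℝ → ℂ} (hP : Continuous P) (D w : ℂ) (hw : (1 : ℂ) + w ≠ 0) {T : ℝ} (hT : 1 ≤ T) :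
    ∫ t in (1 : ℝ)..T, pt t w * P t = D * ((T : ℂ) * pt T w - pt 1 w) / (1 + w) +
      pt T w * ((∫ u in (0 : ℝ)..T, P u) - T * D) - pt 1 w * ((∫ u in (0 : ℝ)..1, P u) - D) -
      ∫ t in (1 : ℝ)..T, (w / t * pt t w) * ((∫ u in (0 : ℝ)..t, P u) - t * D) := by
  have hpos : ∀ x ∈ Set.uIcc (1 : ℝ) T, 0 < x := by
    intro x hx
    rw [Set.uIcc_of_le hT] at hx
    linarith [hx.1]
  have hu : ∀ x ∈ Set.uIcc (1 : ℝ) T, HasDerivAt (fun y : ℝ => pt y w) (w / x * pt x w) x :=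
    fun x hx => v10_deriv (hpos x hx) w
  have hcu : ContinuousOn (fun y : ℝ => pt y w) (Set.uIcc (1 : ℝ) T) :=
    fun x hx => (hu x hx).continuousAt.continuousWithinAt
  have hcu' : ContinuousOn (fun y : ℝ => w / y * pt y w) (Set.uIcc (1 : ℝ) T) := by
    refine ContinuousOn.mul (ContinuousOn.div continuousOn_const
      Complex.continuous_ofReal.continuousOn fun x hx => ?_) hcu
    have := (hpos x hx).ne'
    exact_mod_cast this
  have hv : ∀ x ∈ Set.uIcc (1 : ℝ) T, HasDerivAt (fun y : ℝ => (∫ u in (0 : ℝ)..y, P u) - y * D)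
      (P x - D) x := by
    intro x _
    have h1 := (hP.integral_hasStrictDerivAt 0 x).hasDerivAt
    have h2 : HasDerivAt (fun y : ℝ => (y : ℂ) * D) (1 * D) x :=
      (hasDerivAt_id x).ofReal_comp.mul_const D
    rw [one_mul] at h2
    exact h1.sub h2
  have hv' : Continuous fun x => P x - D := hP.sub continuous_const
  have h3 := intervalIntegral.integral_mul_deriv_eq_deriv_mul hu hv hcu'.intervalIntegrable
    (hv'.intervalIntegrable _ _)
  have h4 : ∀ x ∈ Set.uIcc (1 : ℝ) T, HasDerivAt (fun y : ℝ => D * ((y : ℂ) * pt y w) / (1 + w))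
      (pt x w * D) x := by
    intro x hx
    have h5 : HasDerivAt (fun y : ℝ => (y : ℂ) * pt y w) (1 * pt x w + x * (w / x * pt x w)) x :=
      (hasDerivAt_id x).ofReal_comp.mul (hu x hx)
    have h6 := (h5.const_mul D).div_const (1 + w)
    have hxne : (x : ℂ) ≠ 0 := by
      have := (hpos x hx).ne'
      exact_mod_cast this
    have h7 : D * (1 * pt x w + x * (w / x * pt x w)) / (1 + w) = pt x w * D := by
      field_simp
    rw [h7] at h6
    exact h6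
  have h8 := intervalIntegral.integral_eq_sub_of_hasDerivAt h4
    ((hcu.mul continuousOn_const).intervalIntegrable)
  have h9 : ∫ t in (1 : ℝ)..T, pt t w * P t =
      (∫ t in (1 : ℝ)..T, pt t w * (P t - D)) + ∫ t in (1 : ℝ)..T, pt t w * D := by
    rw [← intervalIntegral.integral_add]
    · congr 1
      funext t
      ring
    · exact (hcu.mul hv'.continuousOn).intervalIntegrable
    · exact (hcu.mul continuousOn_const).intervalIntegrable
  rw [h9, h3, h8]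
  push_cast
  ring

/-- Row `v-10`, part 1. PROOF: on `[0,1]`: `‖pt t w‖ ≤ 1` (`0 ≤ t ≤ 1`, `Re w ≥ 0`; at `t = 0` it is `0` or `1`), `∫_0^1 ‖P‖ ≤ C0`. On `[1,T]`, with
`G t = ∫_0^t P`: integration by parts (`intervalIntegral.integral_mul_deriv_eq_deriv_mul`), `(pt t w)' = (w/t) pt t w`,
`∫_1^T pt t w * P = pt T w * G T - pt 1 w * G 1 - ∫_1^T (w/t) pt t w * G t`. Insert `G t = t D + E t`, `‖E t‖ ≤ C0 t^(1-η)`:
`∫_1^T w pt t w dt = w/(1+w) (T pt T w - pt 1 w)`. The main term is `T pt T w D (1 - w/(1+w)) = T pt T w D/(1+w)`; the errors are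
`O(T^(Re w + 1 - η))` with constants depending on `K, C0, η` only (`‖1+w‖ ≥ 1`, `‖pt t w‖ ≤ t^(Re w)`, `η ≤ 1`, `Re w ≤ K`). -/
theorem V10_ps {η K C0 : ℝ} (hη : 0 < η) (hη1 : η ≤ 1 / 2) (hK : 0 ≤ K) (hC0 : 0 ≤ C0) :
    ∃ C : ℝ, 0 ≤ C ∧ ∀ (P : ℝ → ℂ) (D w : ℂ), Continuous P → 0 ≤ w.re → ‖w‖ ≤ K → ‖D‖ ≤ C0 →
    (∀ t : ℝ, 1 ≤ t → ‖(t : ℂ)⁻¹ * (∫ u in (0 : ℝ)..t, P u) - D‖ ≤ C0 * t ^ (-η)) →
    (∀ t : ℝ, 1 ≤ t → t⁻¹ * (∫ u in (0 : ℝ)..t, ‖P u‖) ≤ C0) →
    ∀ T : ℝ, 1 ≤ T → ‖(T : ℂ)⁻¹ * (∫ t in (0 : ℝ)..T, pt t w * P t) - pt T w / (1 + w) * D‖ ≤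
      C * T ^ (w.re - η) := by
  refine ⟨C0 * (4 + 2 * K), by positivity, ?_⟩
  intro P D w hP hre hw hD hG hN T hT
  have hT0 : 0 < T := by linarith
  have h1w : (1 : ℝ) ≤ ‖(1 : ℂ) + w‖ := by
    have h1 := Complex.re_le_norm ((1 : ℂ) + w)
    simp only [Complex.add_re, Complex.one_re] at h1
    linarith
  have hne : (1 : ℂ) + w ≠ 0 := by
    intro h0
    rw [h0, norm_zero] at h1w
    linarith
  have hE : ∀ t : ℝ, 1 ≤ t → ‖(∫ u in (0 : ℝ)..t, P u) - t * D‖ ≤ C0 * t ^ (1 - η) := by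
    intro t ht
    have ht0 : 0 < t := by linarith
    have htne : (t : ℂ) ≠ 0 := by exact_mod_cast ht0.ne'
    have h1 : (∫ u in (0 : ℝ)..t, P u) - t * D = t * ((t : ℂ)⁻¹ * (∫ u in (0 : ℝ)..t, P u) - D) := by
      field_simp
    rw [h1, norm_mul, Complex.norm_real, Real.norm_of_nonneg ht0.le]
    have h2 := mul_le_mul_of_nonneg_left (hG t ht) ht0.le
    refine h2.trans (le_of_eq ?_)
    rw [sub_eq_add_neg, Real.rpow_add ht0, Real.rpow_one]
    ring
  have hone : (1 : ℝ) ≤ T ^ (w.re + 1 - η) := Real.one_le_rpow hT (by linarith)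
  -- the pieces
  have b1 : ‖∫ t in (0 : ℝ)..1, pt t w * P t‖ ≤ C0 := by
    have h1 : ‖∫ t in (0 : ℝ)..1, pt t w * P t‖ ≤ ∫ t in (0 : ℝ)..1, ‖P t‖ := by
      refine intervalIntegral.norm_integral_le_of_norm_le zero_le_one
        (Filter.Eventually.of_forall fun t ht => ?_) (hP.norm.intervalIntegrable _ _)
      rw [norm_mul]
      exact mul_le_of_le_one_left (norm_nonneg _) (v10_le_one ht.1 ht.2 hre)
    have h2 := hN 1 le_rfl
    rw [inv_one, one_mul] at h2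
    exact h1.trans h2
  have b2 : ‖D * pt 1 w / (1 + w)‖ ≤ C0 := by
    rw [norm_div, norm_mul]
    have h1 : ‖D‖ * ‖pt 1 w‖ ≤ C0 * 1 :=
      mul_le_mul hD (v10_one hre) (norm_nonneg _) hC0
    rw [mul_one] at h1
    exact (div_le_self (by positivity) h1w).trans h1
  have b3 : ‖pt T w * ((∫ u in (0 : ℝ)..T, P u) - T * D)‖ ≤ C0 * T ^ (w.re + 1 - η) := by
    rw [norm_mul]
    have h1 := mul_le_mul (v10_norm hT0 hre) (hE T hT) (norm_nonneg _)
      (Real.rpow_nonneg hT0.le _)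
    refine h1.trans (le_of_eq ?_)
    rw [show w.re + 1 - η = w.re + (1 - η) by ring, Real.rpow_add hT0]
    ring
  have b4 : ‖pt 1 w * ((∫ u in (0 : ℝ)..1, P u) - D)‖ ≤ C0 := by
    have h0 := hE 1 le_rfl
    rw [Real.one_rpow, mul_one, Complex.ofReal_one, one_mul] at h0
    rw [norm_mul]
    exact (mul_le_of_le_one_left (norm_nonneg _) (v10_one hre)).trans h0
  have b5 : ‖∫ t in (1 : ℝ)..T, (w / t * pt t w) * ((∫ u in (0 : ℝ)..t, P u) - t * D)‖ ≤
      2 * K * C0 * T ^ (w.re + 1 - η) := by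
    have hexp : -1 < w.re - η := by linarith
    have h1 : ‖∫ t in (1 : ℝ)..T, (w / t * pt t w) * ((∫ u in (0 : ℝ)..t, P u) - t * D)‖ ≤
        ∫ t in (1 : ℝ)..T, K * C0 * t ^ (w.re - η) := by
      refine intervalIntegral.norm_integral_le_of_norm_le hT
        (Filter.Eventually.of_forall fun t ht => ?_)
        ((intervalIntegral.intervalIntegrable_rpow' hexp).const_mul _)
      have ht1 : 1 ≤ t := ht.1.le
      have ht0 : 0 < t := by linarith
      rw [norm_mul, norm_mul, norm_div, Complex.norm_real, Real.norm_of_nonneg ht0.le]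
      have e1 : ‖w‖ / t ≤ K / t := div_le_div_of_nonneg_right hw ht0.le
      have e2 : ‖w‖ / t * ‖pt t w‖ ≤ K / t * t ^ w.re :=
        mul_le_mul e1 (v10_norm ht0 hre) (norm_nonneg _) (by positivity)
      have e3 := mul_le_mul e2 (hE t ht1) (norm_nonneg _) (by positivity)
      refine e3.trans (le_of_eq ?_)
      have e4 : t ^ (w.re - η) = t⁻¹ * t ^ w.re * t ^ (1 - η) := by
        rw [show w.re - η = -1 + w.re + (1 - η) by ring, Real.rpow_add ht0, Real.rpow_add ht0,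
          Real.rpow_neg_one]
      rw [e4]
      ring
    refine h1.trans ?_
    rw [intervalIntegral.integral_const_mul, integral_rpow (Or.inl hexp)]
    have hden : (1 : ℝ) / 2 ≤ w.re - η + 1 := by linarith
    have hden0 : 0 < w.re - η + 1 := by linarith
    have e5 : (T ^ (w.re - η + 1) - 1 ^ (w.re - η + 1)) / (w.re - η + 1) ≤
        2 * T ^ (w.re + 1 - η) := by
      rw [div_le_iff₀ hden0, Real.one_rpow, show w.re - η + 1 = w.re + 1 - η by ring]
      have hpos : 0 ≤ T ^ (w.re + 1 - η) := by linarith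
      nlinarith [mul_nonneg hpos (by linarith : (0 : ℝ) ≤ 2 * (w.re + 1 - η) - 1)]
    have hKC : 0 ≤ K * C0 := mul_nonneg hK hC0
    calc K * C0 * ((T ^ (w.re - η + 1) - 1 ^ (w.re - η + 1)) / (w.re - η + 1))
        ≤ K * C0 * (2 * T ^ (w.re + 1 - η)) := mul_le_mul_of_nonneg_left e5 hKC
      _ = 2 * K * C0 * T ^ (w.re + 1 - η) := by ring
  have hI1 : IntervalIntegrable (fun t => pt t w * P t) volume 1 T := by
    have hcu : ContinuousOn (fun y : ℝ => pt y w) (Set.uIcc (1 : ℝ) T) := by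
      intro x hx
      rw [Set.uIcc_of_le hT] at hx
      exact (v10_deriv (by linarith [hx.1]) w).continuousAt.continuousWithinAt
    exact (hcu.mul hP.continuousOn).intervalIntegrable
  have hsum := intervalIntegral.integral_add_adjacent_intervals (v10_int01 hP hre) hI1
  have hTne : (T : ℂ) ≠ 0 := by exact_mod_cast hT0.ne'
  have hkey : (T : ℂ)⁻¹ * (∫ t in (0 : ℝ)..T, pt t w * P t) - pt T w / (1 + w) * D =
      (T : ℂ)⁻¹ * ((∫ t in (0 : ℝ)..1, pt t w * P t) - D * pt 1 w / (1 + w) +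
        pt T w * ((∫ u in (0 : ℝ)..T, P u) - T * D) - pt 1 w * ((∫ u in (0 : ℝ)..1, P u) - D) -
        ∫ t in (1 : ℝ)..T, (w / t * pt t w) * ((∫ u in (0 : ℝ)..t, P u) - t * D)) := by
    rw [← hsum, v10_parts hP D w hne hT]
    generalize (∫ t in (0 : ℝ)..1, pt t w * P t) = A1
    generalize (∫ u in (0 : ℝ)..T, P u) = A2
    generalize (∫ u in (0 : ℝ)..1, P u) = A3
    generalize (∫ t in (1 : ℝ)..T, (w / t * pt t w) * ((∫ u in (0 : ℝ)..t, P u) - t * D)) = A4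
    field_simp
    ring
  rw [hkey, norm_mul, norm_inv, Complex.norm_real, Real.norm_of_nonneg hT0.le]
  have htot : ‖(∫ t in (0 : ℝ)..1, pt t w * P t) - D * pt 1 w / (1 + w) +
        pt T w * ((∫ u in (0 : ℝ)..T, P u) - T * D) - pt 1 w * ((∫ u in (0 : ℝ)..1, P u) - D) -
        ∫ t in (1 : ℝ)..T, (w / t * pt t w) * ((∫ u in (0 : ℝ)..t, P u) - t * D)‖ ≤
      C0 * (4 + 2 * K) * T ^ (w.re + 1 - η) := by
    refine (norm_sub_le _ _).trans ?_
    refine (add_le_add (norm_sub_le _ _) le_rfl).trans ?_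
    refine (add_le_add (add_le_add (norm_add_le _ _) le_rfl) le_rfl).trans ?_
    refine (add_le_add (add_le_add (add_le_add (norm_sub_le _ _) le_rfl) le_rfl) le_rfl).trans ?_
    have hc : C0 ≤ C0 * T ^ (w.re + 1 - η) := le_mul_of_one_le_right hC0 hone
    linarith
  have hfin := mul_le_mul_of_nonneg_left htot (inv_nonneg.2 hT0.le)
  refine hfin.trans (le_of_eq ?_)
  rw [show w.re + 1 - η = (w.re - η) + 1 by ring, Real.rpow_add hT0, Real.rpow_one]
  field_simp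

/-- part 2. PROOF: `t^(E-1) ≤ T^E t⁻¹` for `1 ≤ t ≤ T`, `E ≥ 0`; `∫_1^T t⁻¹ ‖P t‖ dt ≤ C0 (1 + log T)` by integration by parts from
`∫_0^t ‖P‖ ≤ C0 t`; `1 + log T ≤ C T^(1/2)`. So the left side is `≤ C1 C0 T^(E-1) (1 + log T) ≤ C T^(E - 1/2)`. -/
theorem V10_err {C0 C1 : ℝ} (hC0 : 0 ≤ C0) (hC1 : 0 ≤ C1) : ∃ C : ℝ, 0 ≤ C ∧
    ∀ (P Y : ℝ → ℂ) (E T0 : ℝ), Continuous P → Continuous Y → 0 ≤ E → 1 ≤ T0 →
    (∀ t : ℝ, 1 ≤ t → t⁻¹ * (∫ u in (0 : ℝ)..t, ‖P u‖) ≤ C0) →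
    (∀ t : ℝ, T0 ≤ t → ‖Y t‖ ≤ C1 * t ^ (E - 1)) →
    ∀ T : ℝ, T0 ≤ T → ‖(T : ℂ)⁻¹ * ∫ t in T0..T, Y t * P t‖ ≤ C * T ^ (E - 1 / 2) := by
  refine ⟨3 * C0 * C1, by positivity, ?_⟩
  intro P Y E T0 hP hY hE hT0 hN hYb T hT
  have hT1 : 1 ≤ T := by linarith
  have hTpos : 0 < T := by linarith
  have hT0pos : 0 < T0 := by linarith
  have hpos : ∀ x ∈ Set.uIcc T0 T, 0 < x := by
    intro x hx
    rw [Set.uIcc_of_le hT] at hx
    linarith [hx.1]
  have hH : ∀ t : ℝ, 1 ≤ t → (∫ u in (0 : ℝ)..t, ‖P u‖) ≤ C0 * t := by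
    intro t ht
    have ht0 : 0 < t := by linarith
    have h1 := mul_le_mul_of_nonneg_left (hN t ht) ht0.le
    rw [← mul_assoc, mul_inv_cancel₀ ht0.ne', one_mul] at h1
    linarith
  have hH0 : ∀ t : ℝ, 0 ≤ t → 0 ≤ ∫ u in (0 : ℝ)..t, ‖P u‖ := fun t ht =>
    intervalIntegral.integral_nonneg ht fun _ _ => norm_nonneg _
  -- integration by parts
  have hu : ∀ x ∈ Set.uIcc T0 T, HasDerivAt (fun y : ℝ => y⁻¹) (-(x ^ 2)⁻¹) x :=
    fun x hx => hasDerivAt_inv (hpos x hx).ne'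
  have hv : ∀ x ∈ Set.uIcc T0 T, HasDerivAt (fun y : ℝ => ∫ u in (0 : ℝ)..y, ‖P u‖) (‖P x‖) x :=
    fun x _ => (hP.norm.integral_hasStrictDerivAt 0 x).hasDerivAt
  have hcu' : ContinuousOn (fun x : ℝ => -(x ^ 2)⁻¹) (Set.uIcc T0 T) := by
    refine ((continuous_id.pow 2).continuousOn.inv₀ fun x hx => ?_).neg
    exact pow_ne_zero 2 (hpos x hx).ne'
  have hcinv : ContinuousOn (fun x : ℝ => x⁻¹) (Set.uIcc T0 T) :=
    continuousOn_id.inv₀ fun x hx => (hpos x hx).ne'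
  have hcH : ContinuousOn (fun y : ℝ => ∫ u in (0 : ℝ)..y, ‖P u‖) (Set.uIcc T0 T) :=
    fun x hx => (hv x hx).continuousAt.continuousWithinAt
  have hparts := intervalIntegral.integral_mul_deriv_eq_deriv_mul hu hv hcu'.intervalIntegrable
    (hP.norm.intervalIntegrable _ _)
  have hlog : (∫ t in T0..T, t⁻¹ * ‖P t‖) ≤ C0 * (1 + Real.log T) := by
    rw [hparts]
    have h1 : -(∫ x in T0..T, -(x ^ 2)⁻¹ * ∫ u in (0 : ℝ)..x, ‖P u‖) ≤
        ∫ x in T0..T, C0 * x⁻¹ := by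
      rw [← intervalIntegral.integral_neg]
      refine intervalIntegral.integral_mono_on hT ((hcu'.mul hcH).neg.intervalIntegrable)
        ((continuousOn_const.mul hcinv).intervalIntegrable) fun x hx => ?_
      have hx1 : 1 ≤ x := by linarith [hx.1]
      have hx0 : 0 < x := by linarith
      have h2 := mul_le_mul_of_nonneg_left (hH x hx1) (inv_nonneg.2 (pow_nonneg hx0.le 2))
      have h3 : (x ^ 2)⁻¹ * (C0 * x) = C0 * x⁻¹ := by
        field_simp
      rw [h3] at h2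
      linarith
    rw [intervalIntegral.integral_const_mul, integral_inv_of_pos hT0pos hTpos] at h1
    have h4 : T⁻¹ * (∫ u in (0 : ℝ)..T, ‖P u‖) ≤ C0 := hN T hT1
    have h5 : 0 ≤ T0⁻¹ * ∫ u in (0 : ℝ)..T0, ‖P u‖ :=
      mul_nonneg (inv_nonneg.2 hT0pos.le) (hH0 T0 hT0pos.le)
    have h6 : Real.log (T / T0) ≤ Real.log T :=
      Real.log_le_log (div_pos hTpos hT0pos) (div_le_self hTpos.le hT0)
    have h7 := mul_le_mul_of_nonneg_left h6 hC0
    linarith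
  have hsqrt : 1 + Real.log T ≤ 3 * T ^ (1 / 2 : ℝ) := by
    have h1 : (1 : ℝ) ≤ T ^ (1 / 2 : ℝ) := Real.one_le_rpow hT1 (by norm_num)
    have h2 := Real.log_le_sub_one_of_pos (Real.rpow_pos_of_pos hTpos (1 / 2 : ℝ))
    rw [Real.log_rpow hTpos] at h2
    linarith
  have hb : ‖∫ t in T0..T, Y t * P t‖ ≤ ∫ t in T0..T, C1 * T ^ E * (t⁻¹ * ‖P t‖) := by
    refine intervalIntegral.norm_integral_le_of_norm_le hT
      (Filter.Eventually.of_forall fun t ht => ?_)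
      ((continuousOn_const.mul (hcinv.mul hP.norm.continuousOn)).intervalIntegrable)
    have ht0 : 0 < t := by linarith [ht.1]
    rw [norm_mul]
    have h1 := mul_le_mul_of_nonneg_right (hYb t ht.1.le) (norm_nonneg (P t))
    refine h1.trans ?_
    have h2 : t ^ (E - 1) ≤ T ^ E * t⁻¹ := by
      rw [Real.rpow_sub ht0, Real.rpow_one, div_eq_mul_inv]
      exact mul_le_mul_of_nonneg_right (Real.rpow_le_rpow ht0.le ht.2 hE) (inv_nonneg.2 ht0.le)
    have h3 := mul_le_mul_of_nonneg_right (mul_le_mul_of_nonneg_left h2 hC1) (norm_nonneg (P t))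
    refine h3.trans (le_of_eq ?_)
    ring
  rw [intervalIntegral.integral_const_mul] at hb
  have hTE : 0 ≤ C1 * T ^ E := mul_nonneg hC1 (Real.rpow_nonneg hTpos.le _)
  have h8 : ‖∫ t in T0..T, Y t * P t‖ ≤ C1 * T ^ E * (C0 * (3 * T ^ (1 / 2 : ℝ))) :=
    hb.trans (mul_le_mul_of_nonneg_left (hlog.trans (mul_le_mul_of_nonneg_left hsqrt hC0)) hTE)
  rw [norm_mul, norm_inv, Complex.norm_real, Real.norm_of_nonneg hTpos.le]
  have h9 := mul_le_mul_of_nonneg_left h8 (inv_nonneg.2 hTpos.le)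
  refine h9.trans (le_of_eq ?_)
  have h10 : T ^ (E - 1 / 2) = T⁻¹ * T ^ E * T ^ (1 / 2 : ℝ) := by
    rw [show E - 1 / 2 = -1 + E + 1 / 2 by ring, Real.rpow_add hTpos, Real.rpow_add hTpos,
      Real.rpow_neg_one]
  rw [h10]
  ring

end OL
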