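import Pool.Agent.Lib.MP_069854_nt.R9.V5
import Pool.Agent.Lib.MP_069854_nt.R9.V9
import Pool.Agent.Lib.MP_069854_nt.R9.V10

/-! # Shifted moments off the critical line with swaps -/

set_option autoImplicit false

open Complex MeasureTheory Set Filter Topology
open scoped ComplexConjugate

namespace OL

variable {k : ℕ}

/-- the first row of shifts after the swap -/
def swA (S : Finset (Fin k)) (α β : Fin k → ℂ) (j : Fin k) : ℂ := if j ∈ S then -β j else α j

/-- the second row of shifts after the swap -/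
def swB (S : Finset (Fin k)) (α β : Fin k → ℂ) (j : Fin k) : ℂ := if j ∈ S then -α j else β j

/-- zeta is bounded on compact subsets of the strip -/
lemma v11_zb {d : ℝ} (hd : 0 < d) (R : ℝ) : ∃ B : ℝ, 1 ≤ B ∧ ∀ z : ℂ, d ≤ z.re → z.re ≤ 1 - d →
    |z.im| ≤ R → ‖riemannZeta z‖ ≤ B := by
  have hK : IsCompact ((Set.uIcc d (1 - d)) ×ℂ (Set.uIcc (-R) R)) := isCompact_uIcc.reProdIm isCompact_uIcc
  have hK2 : IsCompact (((Set.uIcc d (1 - d)) ×ℂ (Set.uIcc (-R) R)) ∩ {z : ℂ | z.re ≤ 1 - d}) :=
    hK.inter_right (isClosed_le Complex.continuous_re continuous_const)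
  have hc : ContinuousOn riemannZeta (((Set.uIcc d (1 - d)) ×ℂ (Set.uIcc (-R) R)) ∩ {z : ℂ | z.re ≤ 1 - d}) := by
    intro z hz
    have h1 : z ≠ 1 := by
      rintro rfl
      have := hz.2
      simp only [Set.mem_ofPred_eq, Complex.one_re] at this
      linarith
    exact (differentiableAt_riemannZeta h1).continuousAt.continuousWithinAt
  obtain ⟨B, hB⟩ := hK2.exists_bound_of_continuousOn hc
  refine ⟨max B 1, le_max_right _ _, fun z h1 h2 h3 => (hB z ⟨?_, h2⟩).trans (le_max_left _ _)⟩
  rw [Complex.mem_reProdIm]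
  have h4 := abs_le.1 h3
  exact ⟨Set.mem_uIcc.2 (Or.inl ⟨h1, h2⟩), Set.mem_uIcc.2 (Or.inl ⟨h4.1, h4.2⟩)⟩

lemma v11_cont {α β : Fin k → ℂ} (ha : ∀ j, (α j).re < 1 / 2) (hb : ∀ j, (β j).re < 1 / 2) :
    Continuous fun t : ℝ => ∏ j, (riemannZeta (1 / 2 + α j + t * I) * riemannZeta (1 / 2 + β j - t * I)) := by
  refine continuous_finsetProd _ fun j _ => Continuous.mul ?_ ?_
  · rw [continuous_iff_continuousAt]
    intro y
    have hne : (1 / 2 + α j + (y : ℝ) * I : ℂ) ≠ 1 := by
      intro h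
      have := congrArg Complex.re h
      simp at this
      linarith [ha j]
    exact ContinuousAt.comp (f := fun y : ℝ => (1 / 2 + α j + (y : ℝ) * I : ℂ)) (g := riemannZeta)
      (differentiableAt_riemannZeta hne).continuousAt (by fun_prop)
  · rw [continuous_iff_continuousAt]
    intro y
    have hne : (1 / 2 + β j - (y : ℝ) * I : ℂ) ≠ 1 := by
      intro h
      have := congrArg Complex.re h
      simp at this
      linarith [hb j]
    exact ContinuousAt.comp (f := fun y : ℝ => (1 / 2 + β j - (y : ℝ) * I : ℂ)) (g := riemannZeta)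
      (differentiableAt_riemannZeta hne).continuousAt (by fun_prop)

/-- the product is bounded on `[0, R]` -/
lemma v11_pb {d L : ℝ} (hd : 0 < d) (R : ℝ) : ∃ B : ℝ, 1 ≤ B ∧ ∀ α β : Fin k → ℂ,
    (∀ j, |(α j).re| ≤ 1 / 2 - d ∧ |(α j).im| ≤ L) → (∀ j, |(β j).re| ≤ 1 / 2 - d ∧ |(β j).im| ≤ L) →
    ∀ t : ℝ, 0 ≤ t → t ≤ R →
    ‖∏ j, (riemannZeta (1 / 2 + α j + t * I) * riemannZeta (1 / 2 + β j - t * I))‖ ≤ B := by
  obtain ⟨B, hB1, hB⟩ := v11_zb hd (L + R)
  refine ⟨(B * B) ^ k, one_le_pow₀ (one_le_mul_of_one_le_of_one_le hB1 hB1), fun α β ha hb t ht hR => ?_⟩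
  rw [norm_prod]
  have h1 : ∀ j ∈ (Finset.univ : Finset (Fin k)), ‖riemannZeta (1 / 2 + α j + t * I) *
      riemannZeta (1 / 2 + β j - t * I)‖ ≤ B * B := by
    intro j _
    rw [norm_mul]
    have a1 := abs_le.1 (ha j).1
    have a2 := abs_le.1 (ha j).2
    have b1 := abs_le.1 (hb j).1
    have b2 := abs_le.1 (hb j).2
    refine mul_le_mul (hB _ ?_ ?_ ?_) (hB _ ?_ ?_ ?_) (norm_nonneg _) (by linarith)
    · simp; linarith
    · simp; linarith
    · have e : (1 / 2 + α j + t * I : ℂ).im = (α j).im + t := by simp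
      rw [e, abs_le]
      constructor <;> linarith
    · simp; linarith
    · simp; linarith
    · have e : (1 / 2 + β j - t * I : ℂ).im = (β j).im - t := by simp
      rw [e, abs_le]
      constructor <;> linarith
  calc _ ≤ ∏ _j : Fin k, B * B := Finset.prod_le_prod (fun j _ => norm_nonneg _) h1
    _ = _ := by rw [Finset.prod_const, Finset.card_univ, Fintype.card_fin]

/-- the functional equation for the product -/
lemma v11_fe (S : Finset (Fin k)) {α β : Fin k → ℂ} (ha : ∀ j, |(α j).re| < 1 / 2)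
    (hb : ∀ j, |(β j).re| < 1 / 2) (t : ℝ) :
    ∏ j, (riemannZeta (1 / 2 + α j + t * I) * riemannZeta (1 / 2 + β j - t * I)) =
    (∏ j ∈ S, (cH (1 / 2 + swB S α β j - t * I) * cH (1 / 2 + swA S α β j + t * I))) *
    ∏ j, (riemannZeta (1 / 2 + swA S α β j + t * I) * riemannZeta (1 / 2 + swB S α β j - t * I)) := by
  have h1 : ∏ j ∈ S, (cH (1 / 2 + swB S α β j - t * I) * cH (1 / 2 + swA S α β j + t * I)) =
      ∏ j, if j ∈ S then (cH (1 / 2 + swB S α β j - t * I) * cH (1 / 2 + swA S α β j + t * I)) else 1 := by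
    rw [Finset.prod_ite_mem, Finset.univ_inter]
  rw [h1, ← Finset.prod_mul_distrib]
  refine Finset.prod_congr rfl fun j _ => ?_
  by_cases hj : j ∈ S
  · have a1 := abs_lt.1 (ha j)
    have b1 := abs_lt.1 (hb j)
    have e1 : swA S α β j = -β j := if_pos hj
    have e2 : swB S α β j = -α j := if_pos hj
    rw [if_pos hj, e1, e2]
    have f1 : riemannZeta (1 / 2 + α j + t * I) =
        cH (1 / 2 + -α j - t * I) * riemannZeta (1 / 2 + -α j - t * I) := by
      rw [← zeta_cH (by simp; linarith) (by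
        intro h
        have := congrArg Complex.re h
        simp at this
        linarith)]
      congr 1
      ring
    have f2 : riemannZeta (1 / 2 + β j - t * I) =
        cH (1 / 2 + -β j + t * I) * riemannZeta (1 / 2 + -β j + t * I) := by
      rw [← zeta_cH (by simp; linarith) (by
        intro h
        have := congrArg Complex.re h
        simp at this
        linarith)]
      congr 1
      ring
    rw [f1, f2]
    ring
  · have e1 : swA S α β j = α j := if_neg hj
    have e2 : swB S α β j = β j := if_neg hj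
    rw [if_neg hj, e1, e2, one_mul]

end OL
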