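import Pool.Agent.Lib.MP_069854_nt.R9.V11

/-! # Shifted moments off the critical line with swaps: the asymptotic formula -/

set_option autoImplicit false

open Complex MeasureTheory Set Filter Topology
open scoped ComplexConjugate

namespace OL

variable {k : ℕ}

/-- sums of `1/A` are not changed by the exchange on `S` -/
lemma v12_sum (S : Finset (Fin k)) (f g : Fin k → ℝ) :
    ∑ j, (if j ∈ S then g j else f j) + ∑ j, (if j ∈ S then f j else g j) = ∑ j, f j + ∑ j, g j := by
  rw [← Finset.sum_add_distrib, ← Finset.sum_add_distrib]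
  refine Finset.sum_congr rfl fun j _ => ?_
  by_cases h : j ∈ S
  · rw [if_pos h, if_pos h, add_comm]
  · rw [if_neg h, if_neg h]

lemma v12_ite (S : Finset (Fin k)) (f g : Fin k → ℝ) (j : Fin k) :
    1 / (if j ∈ S then g j else f j) = if j ∈ S then 1 / g j else 1 / f j := by
  by_cases h : j ∈ S
  · rw [if_pos h, if_pos h]
  · rw [if_neg h, if_neg h]

/-- abstract step: from the bounds for `P` and `X` to the mean of `O = X P` -/
lemma v12_step {η K C0 C1 B R : ℝ} (hη : 0 < η) (hη1 : η ≤ 1 / 2) (hK : 0 ≤ K) (hC0 : 0 ≤ C0) (hC1 : 0 ≤ C1)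
    (hB : 0 ≤ B) (hR : 1 ≤ R) : ∃ C : ℝ, 0 ≤ C ∧ ∀ (O P X : ℝ → ℂ) (D w : ℂ), Continuous O → Continuous P →
    ContinuousOn X (Ici R) → (∀ t, 0 ≤ t → O t = X t * P t) → 0 ≤ w.re → ‖w‖ ≤ K → ‖D‖ ≤ C0 →
    (∀ t : ℝ, 1 ≤ t → ‖(t : ℂ)⁻¹ * (∫ u in (0 : ℝ)..t, P u) - D‖ ≤ C0 * t ^ (-η)) →
    (∀ t : ℝ, 1 ≤ t → t⁻¹ * (∫ u in (0 : ℝ)..t, ‖P u‖) ≤ C0) →
    (∀ t : ℝ, 0 ≤ t → t ≤ R → ‖O t‖ ≤ B) → (∀ t : ℝ, 0 ≤ t → t ≤ R → ‖P t‖ ≤ B) →
    (∀ t : ℝ, R ≤ t → ‖X t - pt t w‖ ≤ C1 * t ^ (w.re - 1)) →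
    ∀ T : ℝ, 1 ≤ T → ‖(T : ℂ)⁻¹ * (∫ t in (0 : ℝ)..T, O t) - pt T w / (1 + w) * D‖ ≤ C * T ^ (w.re - η) := by
  obtain ⟨C2, hC2, h2⟩ := V10_ps hη hη1 hK hC0
  obtain ⟨C3, hC3, h3⟩ := V10_err hC0 hC1
  refine ⟨C2 + C3 + R * B + R * (R ^ K * B) + (B + R ^ K * C0) * R ^ η, by positivity,
    fun O P X D w hO hP hX hOXP hw0 hwK hD hrec hL1 hOB hPB hXp T hT => ?_⟩
  have hT0 : 0 < T := by linarith
  have hTC : (T : ℂ) ≠ 0 := by exact_mod_cast hT0.ne'
  have hR0 : 0 < R := by linarith
  have hwr : w.re ≤ K := (Complex.re_le_norm w).trans hwK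
  have hpi : 1 ≤ 2 * Real.pi := by linarith [Real.pi_gt_three]
  have h1w : 1 ≤ ‖1 + w‖ := by
    have a1 := Complex.abs_re_le_norm (1 + w)
    rw [Complex.add_re, Complex.one_re, abs_of_nonneg (by linarith)] at a1
    linarith
  have hptn : ∀ t : ℝ, 0 < t → ‖pt t w‖ ≤ t ^ w.re := by
    intro t ht
    rw [pt_norm ht]
    exact Real.rpow_le_rpow (by positivity) (div_le_self ht.le hpi) hw0
  have hTη : 1 ≤ T ^ w.re := Real.one_le_rpow hT hw0
  rcases le_or_gt T R with hle | hgt
  · -- small `T`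
    have e1 : ‖∫ t in (0 : ℝ)..T, O t‖ ≤ T * B := by
      have := intervalIntegral.norm_integral_le_of_norm_le_const (a := (0 : ℝ)) (b := T) (f := O) (C := B)
        (fun t ht => by
          rw [Set.uIoc_of_le hT0.le] at ht
          exact hOB t ht.1.le (ht.2.trans hle))
      rw [sub_zero, abs_of_pos hT0] at this
      linarith
    have e2 : ‖(T : ℂ)⁻¹ * (∫ t in (0 : ℝ)..T, O t)‖ ≤ B := by
      rw [norm_mul, norm_inv, Complex.norm_real, Real.norm_of_nonneg hT0.le, inv_mul_le_iff₀ hT0]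
      exact e1
    have e3 : ‖pt T w / (1 + w) * D‖ ≤ R ^ K * C0 := by
      rw [norm_mul, norm_div]
      have a1 : ‖pt T w‖ / ‖1 + w‖ ≤ R ^ K := by
        calc ‖pt T w‖ / ‖1 + w‖ ≤ ‖pt T w‖ := div_le_self (norm_nonneg _) h1w
          _ ≤ T ^ w.re := hptn T hT0
          _ ≤ R ^ w.re := Real.rpow_le_rpow hT0.le hle hw0
          _ ≤ R ^ K := Real.rpow_le_rpow_of_exponent_le hR hwr
      exact mul_le_mul a1 hD (norm_nonneg _) (by positivity)
    have e4 : 1 ≤ R ^ η * T ^ (w.re - η) := by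
      have a1 : T ^ (-η) ≤ T ^ (w.re - η) := Real.rpow_le_rpow_of_exponent_le hT (by linarith)
      have a2 : 1 ≤ R ^ η * T ^ (-η) := by
        rw [Real.rpow_neg hT0.le, ← div_eq_mul_inv, le_div_iff₀ (by positivity), one_mul]
        exact Real.rpow_le_rpow hT0.le hle hη.le
      calc (1 : ℝ) ≤ R ^ η * T ^ (-η) := a2
        _ ≤ _ := mul_le_mul_of_nonneg_left a1 (by positivity)
    have e5 : 0 ≤ (C2 + C3 + R * B + R * (R ^ K * B)) * T ^ (w.re - η) := by positivity
    calc _ ≤ B + R ^ K * C0 := (norm_sub_le _ _).trans (add_le_add e2 e3)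
      _ ≤ (B + R ^ K * C0) * (R ^ η * T ^ (w.re - η)) := le_mul_of_one_le_right (by positivity) e4
      _ ≤ _ := by linarith
  · -- large `T`
    obtain ⟨Y, hY⟩ : ∃ Y : ℝ → ℂ, Y = fun t => X (max t R) - pt (max t R) w := ⟨_, rfl⟩
    have hYc : Continuous Y := by
      rw [hY]
      have hm : Continuous fun t : ℝ => max t R := continuous_id.max continuous_const
      refine Continuous.sub ?_ ?_
      · exact hX.comp_continuous hm fun t => Set.mem_Ici.2 (le_max_right _ _)
      · rw [continuous_iff_continuousAt]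
        intro y
        unfold pt
        refine ContinuousAt.cpow ?_ continuousAt_const ?_
        · exact (Complex.continuous_ofReal.comp (hm.div_const _)).continuousAt
        · left
          rw [Complex.ofReal_re]
          have : 0 < max y R := lt_of_lt_of_le hR0 (le_max_right _ _)
          positivity
    have hYb : ∀ t : ℝ, R ≤ t → ‖Y t‖ ≤ C1 * t ^ (w.re - 1) := by
      intro t ht
      rw [hY]
      simp only [max_eq_left ht]
      exact hXp t ht
    have g3 := h3 P Y w.re R hP hYc hw0 hR hL1 hYb T hgt.le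
    have g2 := h2 P D w hP hw0 hwK hD hrec hL1 T hT
    have hptc : ∀ a b : ℝ, 0 < a → 0 < b → IntervalIntegrable (fun t => pt t w * P t) volume a b := by
      intro a b ha hb
      refine ContinuousOn.intervalIntegrable (ContinuousOn.mul ?_ hP.continuousOn)
      intro y hy
      have hy0 : 0 < y := by
        have := hy.1
        exact lt_of_lt_of_le (lt_min ha hb) this
      unfold pt
      refine ContinuousAt.continuousWithinAt (ContinuousAt.cpow ?_ continuousAt_const ?_)
      · exact (Complex.continuous_ofReal.comp (continuous_id.div_const _)).continuousAt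
      · left
        rw [Complex.ofReal_re]
        show 0 < y / (2 * Real.pi)
        positivity
    have hpt0 : IntervalIntegrable (fun t => pt t w * P t) volume 0 R := by
      rw [intervalIntegrable_iff, Set.uIoc_of_le hR0.le]
      refine Integrable.of_bound (μ := volume.restrict (Ioc 0 R)) ?_ (R ^ w.re * B) ?_
      · refine ContinuousOn.aestronglyMeasurable (ContinuousOn.mul ?_ hP.continuousOn) measurableSet_Ioc
        intro y hy
        unfold pt
        refine ContinuousAt.continuousWithinAt (ContinuousAt.cpow ?_ continuousAt_const ?_)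
        · exact (Complex.continuous_ofReal.comp (continuous_id.div_const _)).continuousAt
        · left
          rw [Complex.ofReal_re]
          have := hy.1
          show 0 < y / (2 * Real.pi)
          positivity
      · refine (ae_restrict_iff' measurableSet_Ioc).2 (Eventually.of_forall fun t ht => ?_)
        rw [norm_mul]
        refine mul_le_mul ((hptn t ht.1).trans (Real.rpow_le_rpow ht.1.le ht.2 hw0))
          (hPB t ht.1.le ht.2) (norm_nonneg _) (by positivity)
    -- decomposition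
    have d1 : ∫ t in (0 : ℝ)..T, O t = (∫ t in (0 : ℝ)..R, O t) + ∫ t in R..T, O t :=
      (intervalIntegral.integral_add_adjacent_intervals (hO.intervalIntegrable _ _)
        (hO.intervalIntegrable _ _)).symm
    have d2 : ∫ t in (0 : ℝ)..T, pt t w * P t = (∫ t in (0 : ℝ)..R, pt t w * P t) + ∫ t in R..T, pt t w * P t :=
      (intervalIntegral.integral_add_adjacent_intervals hpt0 (hptc _ _ hR0 hT0)).symm
    have d3 : ∫ t in R..T, O t = (∫ t in R..T, Y t * P t) + ∫ t in R..T, pt t w * P t := by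
      have hYP : IntervalIntegrable (fun t => Y t * P t) volume R T := (hYc.mul hP).intervalIntegrable _ _
      rw [← intervalIntegral.integral_add hYP (hptc _ _ hR0 hT0)]
      refine intervalIntegral.integral_congr fun t ht => ?_
      rw [Set.uIcc_of_le hgt.le] at ht
      simp only [hY, max_eq_left ht.1]
      rw [hOXP t (by linarith [ht.1])]
      ring
    have d4 : (T : ℂ)⁻¹ * (∫ t in (0 : ℝ)..T, O t) - pt T w / (1 + w) * D =
        ((T : ℂ)⁻¹ * (∫ t in (0 : ℝ)..T, pt t w * P t) - pt T w / (1 + w) * D) +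
        (T : ℂ)⁻¹ * (∫ t in R..T, Y t * P t) + (T : ℂ)⁻¹ * (∫ t in (0 : ℝ)..R, O t) -
        (T : ℂ)⁻¹ * ∫ t in (0 : ℝ)..R, pt t w * P t := by
      rw [d1, d2, d3]
      ring
    have hTi : ‖(T : ℂ)⁻¹‖ = T⁻¹ := by
      rw [norm_inv, Complex.norm_real, Real.norm_of_nonneg hT0.le]
    have f1 : ‖(T : ℂ)⁻¹ * (∫ t in (0 : ℝ)..R, O t)‖ ≤ R * B * T⁻¹ := by
      have := intervalIntegral.norm_integral_le_of_norm_le_const (a := (0 : ℝ)) (b := R) (f := O) (C := B)
        (fun t ht => by
          rw [Set.uIoc_of_le hR0.le] at ht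
          exact hOB t ht.1.le ht.2)
      rw [sub_zero, abs_of_pos hR0] at this
      rw [norm_mul, hTi]
      calc T⁻¹ * _ ≤ T⁻¹ * (B * R) := mul_le_mul_of_nonneg_left this (by positivity)
        _ = _ := by ring
    have f2 : ‖(T : ℂ)⁻¹ * (∫ t in (0 : ℝ)..R, pt t w * P t)‖ ≤ R * (R ^ K * B) * T⁻¹ := by
      have := intervalIntegral.norm_integral_le_of_norm_le_const (a := (0 : ℝ)) (b := R)
        (f := fun t => pt t w * P t) (C := R ^ K * B)
        (fun t ht => by
          rw [Set.uIoc_of_le hR0.le] at ht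
          rw [norm_mul]
          refine mul_le_mul ?_ (hPB t ht.1.le ht.2) (norm_nonneg _) (by positivity)
          exact (hptn t ht.1).trans ((Real.rpow_le_rpow ht.1.le ht.2 hw0).trans
            (Real.rpow_le_rpow_of_exponent_le hR hwr)))
      rw [sub_zero, abs_of_pos hR0] at this
      rw [norm_mul, hTi]
      calc T⁻¹ * _ ≤ T⁻¹ * (R ^ K * B * R) := mul_le_mul_of_nonneg_left this (by positivity)
        _ = _ := by ring
    have f3 : T⁻¹ ≤ T ^ (w.re - η) := by
      rw [← Real.rpow_neg_one]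
      exact Real.rpow_le_rpow_of_exponent_le hT (by linarith)
    have f4 : T ^ (w.re - 1 / 2) ≤ T ^ (w.re - η) := Real.rpow_le_rpow_of_exponent_le hT (by linarith)
    rw [d4]
    have hRB : 0 ≤ R * B := by positivity
    have hRB2 : 0 ≤ R * (R ^ K * B) := by positivity
    have hz : 0 ≤ (B + R ^ K * C0) * R ^ η * T ^ (w.re - η) := by positivity
    calc _ ≤ C2 * T ^ (w.re - η) + C3 * T ^ (w.re - 1 / 2) + R * B * T⁻¹ + R * (R ^ K * B) * T⁻¹ := by
          refine (norm_sub_le _ _).trans (add_le_add ((norm_add_le _ _).trans (add_le_add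
            ((norm_add_le _ _).trans (add_le_add g2 g3)) f1)) f2)
      _ ≤ C2 * T ^ (w.re - η) + C3 * T ^ (w.re - η) + R * B * T ^ (w.re - η) +
          R * (R ^ K * B) * T ^ (w.re - η) := by gcongr
      _ ≤ _ := by linarith

end OL
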