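import Pool.Agent.Lib.MP_069854_nt.R9.V13
import Pool.Agent.Lib.MP_39df77_nt.OL.MainK

/-! # The recipe off the critical line: all balanced sign patterns without relabelling; the region -/

set_option autoImplicit false

open Complex MeasureTheory Set Filter Topology
open scoped ComplexConjugate

namespace OL

variable {k : ℕ}

/-- the arithmetic function of the first row after the swap: the `α j`, `j ∉ S`, and the `-β j`, `j ∈ S'` -/
noncomputable def rowA (S S' : Finset (Fin k)) (α β : Fin k → ℂ) : ArithmeticFunction ℂ :=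
  (∏ j ∈ Sᶜ, pwA (α j)) * ∏ j ∈ S', pwA (-β j)

lemma v14_perm {S S' : Finset (Fin k)} (h : S.card = S'.card) :
    ∃ π : Equiv.Perm (Fin k), ∀ j, j ∈ S ↔ π j ∈ S' := by
  classical
  have e1 : {x // x ∈ S} ≃ {x // x ∈ S'} := Fintype.equivOfCardEq (by simpa using h)
  refine ⟨e1.extendSubtype, fun j => ⟨fun hj => e1.extendSubtype_mem j hj, fun hj => ?_⟩⟩
  by_contra hn
  exact e1.extendSubtype_not_mem j hn hj

lemma v14_ite (S : Finset (Fin k)) (f g : Fin k → ArithmeticFunction ℂ) :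
    ∏ j, (if j ∈ S then g j else f j) = (∏ j ∈ Sᶜ, f j) * ∏ j ∈ S, g j := by
  rw [Finset.prod_ite]
  rw [mul_comm]
  congr 1
  · refine Finset.prod_congr ?_ fun _ _ => rfl
    ext j; simp
  · refine Finset.prod_congr ?_ fun _ _ => rfl
    ext j; simp

/-- **the recipe with swaps**, patterns `S`, `S'` of the same size -/
theorem V14_swap (hk : 1 ≤ k) {d : ℝ} (hd : 0 < d) {s s' A A' r r' : Fin k → ℝ}
    (hs : ∀ j, 1 / 2 ≤ s j ∧ 1 ≤ A j ∧ MB (s j) (A j) ∧ s j < 1 / 2 + r j)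
    (hs' : ∀ j, 1 / 2 ≤ s' j ∧ 1 ≤ A' j ∧ MB (s' j) (A' j) ∧ s' j < 1 / 2 + r' j)
    (hsum : ∑ j, 1 / A j + ∑ j, 1 / A' j ≤ 1) {L : ℝ} (hL : 0 ≤ L) (S S' : Finset (Fin k))
    (hSS : S.card = S'.card) :
    ∃ η C : ℝ, 0 < η ∧ 0 ≤ C ∧ ∀ T : ℝ, 1 ≤ T → ∀ α β : Fin k → ℂ,
      (∀ j, |(α j).im| ≤ L ∧ |(β j).im| ≤ L) →
      (∀ j, r j ≤ |(α j).re| ∧ |(α j).re| ≤ 1 / 2 - d ∧ r' j ≤ |(β j).re| ∧ |(β j).re| ≤ 1 / 2 - d) →
      (∀ j, (j ∈ S ↔ (α j).re < 0) ∧ (j ∈ S' ↔ (β j).re < 0)) →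
      (Summable fun n : ℕ => ‖rowA S S' α β n * rowA S' S β α n / (n : ℂ)‖) ∧
      ‖(T : ℂ)⁻¹ * (∫ t in (0 : ℝ)..T, ∏ j, (riemannZeta (1 / 2 + α j + t * I) *
        riemannZeta (1 / 2 + β j - t * I))) -
        pt T (-(∑ j ∈ S, α j + ∑ j ∈ S', β j)) / (1 - (∑ j ∈ S, α j + ∑ j ∈ S', β j)) *
          ∑' n : ℕ, rowA S S' α β n * rowA S' S β α n / (n : ℂ)‖ ≤
        C * T ^ (-(∑ j ∈ S, α j + ∑ j ∈ S', β j).re - η) := by
  obtain ⟨π, hπ⟩ := v14_perm hSS
  obtain ⟨η, C, hη, hC, h⟩ := V13_swap hk hd (s := s) (s' := fun j => s' (π j)) (A := A)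
    (A' := fun j => A' (π j)) (r := r) (r' := fun j => r' (π j)) hs (fun j => hs' (π j))
    (by rw [Equiv.sum_comp π (fun j => 1 / A' j)]; exact hsum) hL S
  refine ⟨η, C, hη, hC, fun T hT α β him hre hsg => ?_⟩
  have hm := h T hT α (fun j => β (π j)) (fun j => ⟨(him j).1, (him (π j)).2⟩)
    (fun j hj => by
      have a1 : 0 ≤ (α j).re := not_lt.1 fun hlt => hj ((hsg j).1.2 hlt)
      have a2 : 0 ≤ (β (π j)).re := not_lt.1 fun hlt => hj ((hπ j).2 ((hsg (π j)).2.2 hlt))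
      have b1 := hre j
      have b2 := hre (π j)
      rw [abs_of_nonneg a1] at b1
      refine ⟨b1.1, b1.2.1, ?_⟩
      rw [abs_of_nonneg a2] at b2
      exact ⟨b2.2.2.1, b2.2.2.2⟩)
    (fun j hj => by
      have a1 : (α j).re < 0 := (hsg j).1.1 hj
      have a2 : (β (π j)).re < 0 := (hsg (π j)).2.1 ((hπ j).1 hj)
      have b1 := hre j
      have b2 := hre (π j)
      rw [abs_of_neg a1] at b1
      refine ⟨b1.1, b1.2.1, ?_⟩
      rw [abs_of_neg a2] at b2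
      exact ⟨b2.2.2.1, b2.2.2.2⟩)
  have hS' : S' = S.map π.toEmbedding := by
    ext i
    rw [Finset.mem_map_equiv]
    have := hπ (π.symm i)
    rw [Equiv.apply_symm_apply] at this
    exact this.symm
  have e1 : ∑ j ∈ S, (α j + β (π j)) = ∑ j ∈ S, α j + ∑ j ∈ S', β j := by
    rw [Finset.sum_add_distrib, hS', Finset.sum_map]
    rfl
  have e2 : DA (swA S α fun j => β (π j)) = rowA S S' α β := by
    unfold DA rowA swA
    have : ∀ j, pwA (if j ∈ S then -β (π j) else α j) = if j ∈ S then pwA (-β (π j)) else pwA (α j) := by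
      intro j
      split_ifs <;> rfl
    simp only [this]
    rw [v14_ite S (fun j => pwA (α j)) (fun j => pwA (-β (π j))), hS', Finset.prod_map]
    rfl
  have e3 : DA (swB S α fun j => β (π j)) = rowA S' S β α := by
    unfold DA rowA swB
    have : ∀ j, pwA (if j ∈ S then -α j else β (π j)) = if j ∈ S then pwA (-α j) else pwA (β (π j)) := by
      intro j
      split_ifs <;> rfl
    simp only [this]
    rw [v14_ite S (fun j => pwA (β (π j))) (fun j => pwA (-α j))]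
    congr 1
    have e4 : S'ᶜ = Sᶜ.map π.toEmbedding := by
      ext i
      rw [Finset.mem_map_equiv, Finset.mem_compl, Finset.mem_compl]
      have := hπ (π.symm i)
      rw [Equiv.apply_symm_apply] at this
      rw [this]
    rw [e4, Finset.prod_map]
    rfl
  have e5 : ∀ t : ℝ, ∏ j, (riemannZeta (1 / 2 + α j + t * I) * riemannZeta (1 / 2 + β (π j) - t * I)) =
      ∏ j, (riemannZeta (1 / 2 + α j + t * I) * riemannZeta (1 / 2 + β j - t * I)) := by
    intro t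
    rw [Finset.prod_mul_distrib, Finset.prod_mul_distrib]
    congr 1
    exact Equiv.prod_comp π (fun j => riemannZeta (1 / 2 + β j - t * I))
  rw [e2, e3, e1] at hm
  simp only [e5] at hm
  refine ⟨hm.1, ?_⟩
  have h2 := hm.2
  rw [Complex.neg_re] at h2
  rw [sub_eq_add_neg (1 : ℂ)]
  exact h2

/-! ### the region -/

lemma v14_conv1 {x : ℝ} (h0 : 0 ≤ x) (h1 : x ≤ 733 / 8940) : MB (1 / 2 + x) (1 / (1 / 4 - 745 / 733 * x)) := by
  have hp : 0 < 1 / 4 - 745 / 733 * x := by linarith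
  have hMB := convexP (s0 := 1 / 2) (s1 := 7 / 12 - 1 / 745) (θ := x * (8940 / 733)) (A0 := 4) (A1 := 6)
    (A := 1 / (1 / 4 - 745 / 733 * x)) le_rfl (by norm_num) (by norm_num)
    (by positivity) (by linarith) (by norm_num) (by norm_num) (by positivity) (by
      rw [one_div_one_div]
      ring) mb_half mb_six0
  have e1 : (1 - x * (8940 / 733)) * (1 / 2) + x * (8940 / 733) * (7 / 12 - 1 / 745) = 1 / 2 + x := by
    ring
  rwa [e1] at hMB

lemma v14_conv2 {x : ℝ} (h0 : 733 / 8940 ≤ x) (h1 : x ≤ 1 / 8) :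
    MB (1 / 2 + x) (1 / (1 / 8 + 745 / 769 * (1 / 8 - x))) := by
  have hp : 0 < 1 / 8 + 745 / 769 * (1 / 8 - x) := by
    have : 0 ≤ 745 / 769 * (1 / 8 - x) := mul_nonneg (by norm_num) (by linarith)
    linarith
  have hMB := convexP (s0 := 7 / 12 - 1 / 745) (s1 := 5 / 8) (θ := (x - 733 / 8940) * (17880 / 769)) (A0 := 6)
    (A1 := 8) (A := 1 / (1 / 8 + 745 / 769 * (1 / 8 - x))) (by norm_num) (by norm_num) (by norm_num)
    (mul_nonneg (by linarith) (by norm_num)) (by linarith) (by norm_num) (by norm_num)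
    (by positivity) (by
      rw [one_div_one_div]
      ring) mb_six0 mb_eight
  have e1 : (1 - (x - 733 / 8940) * (17880 / 769)) * (7 / 12 - 1 / 745) +
      (x - 733 / 8940) * (17880 / 769) * (5 / 8) = 1 / 2 + x := by
    ring
  rwa [e1] at hMB

/-- the region: every `y > qq r` is admissible -/
theorem V14_qq {r y : ℝ} (hr : 0 < r) (hy : qq r < y) :
    ∃ s A : ℝ, 1 / 2 ≤ s ∧ 1 ≤ A ∧ MB s A ∧ s < 1 / 2 + r ∧ 1 / A ≤ y := by
  unfold qq at hy
  rw [max_lt_iff, max_lt_iff] at hy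
  obtain ⟨⟨h1, h2⟩, h3⟩ := hy
  rcases le_or_gt r (733 / 8940) with hr1 | hr1
  · obtain ⟨x, hx1, hx2, hx3⟩ := left_pt (f := fun x : ℝ => -(1 / 4 - 745 / 733 * x)) (σ := r) (a := 0) (A := -y)
      (by fun_prop) hr (by linarith)
    have hp : 0 < 1 / 4 - 745 / 733 * x := by linarith
    refine ⟨1 / 2 + x, 1 / (1 / 4 - 745 / 733 * x), by linarith, ?_, v14_conv1 hx1.le (by linarith),
      by linarith, ?_⟩
    · rw [le_div_iff₀ hp]; linarith
    · rw [one_div_one_div]; linarith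
  · rcases le_or_gt r (1 / 8) with hr2 | hr2
    · obtain ⟨x, hx1, hx2, hx3⟩ := left_pt (f := fun x : ℝ => -(1 / 8 + 745 / 769 * (1 / 8 - x))) (σ := r)
        (a := 733 / 8940) (A := -y) (by fun_prop) hr1 (by linarith)
      have hp0 : 0 ≤ 745 / 769 * (1 / 8 - x) := mul_nonneg (by norm_num) (by linarith)
      have hp : 0 < 1 / 8 + 745 / 769 * (1 / 8 - x) := by linarith
      refine ⟨1 / 2 + x, 1 / (1 / 8 + 745 / 769 * (1 / 8 - x)), by linarith, ?_, v14_conv2 hx1.le (by linarith),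
        by linarith, ?_⟩
      · rw [le_div_iff₀ hp]; linarith
      · rw [one_div_one_div]; linarith
    · exact ⟨5 / 8, 8, by norm_num, by norm_num, mb_eight, by linarith, h3.le⟩

/-- the choice of lines and orders in the region -/
theorem V14_choice (hk : 1 ≤ k) {r r' : Fin k → ℝ} (hr : ∀ j, 0 < r j) (hr' : ∀ j, 0 < r' j)
    (h : ∑ j, qq (r j) + ∑ j, qq (r' j) < 1) : ∃ s s' A A' : Fin k → ℝ,
    (∀ j, 1 / 2 ≤ s j ∧ 1 ≤ A j ∧ MB (s j) (A j) ∧ s j < 1 / 2 + r j) ∧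
    (∀ j, 1 / 2 ≤ s' j ∧ 1 ≤ A' j ∧ MB (s' j) (A' j) ∧ s' j < 1 / 2 + r' j) ∧
    ∑ j, 1 / A j + ∑ j, 1 / A' j ≤ 1 := by
  have hk0 : (0 : ℝ) < k := by exact_mod_cast hk
  obtain ⟨δ, hδ⟩ : ∃ δ, δ = (1 - (∑ j, qq (r j) + ∑ j, qq (r' j))) / (2 * k) := ⟨_, rfl⟩
  have hδ0 : 0 < δ := by rw [hδ]; exact div_pos (by linarith) (by positivity)
  have h1 := fun j => V14_qq (hr j) (show qq (r j) < qq (r j) + δ by linarith)
  have h2 := fun j => V14_qq (hr' j) (show qq (r' j) < qq (r' j) + δ by linarith)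
  choose s A a1 a2 a3 a4 a5 using h1
  choose s' A' b1 b2 b3 b4 b5 using h2
  refine ⟨s, s', A, A', fun j => ⟨a1 j, a2 j, a3 j, a4 j⟩, fun j => ⟨b1 j, b2 j, b3 j, b4 j⟩, ?_⟩
  have c1 : ∑ j, 1 / A j ≤ ∑ j, (qq (r j) + δ) := Finset.sum_le_sum fun j _ => a5 j
  have c2 : ∑ j, 1 / A' j ≤ ∑ j, (qq (r' j) + δ) := Finset.sum_le_sum fun j _ => b5 j
  rw [Finset.sum_add_distrib, Finset.sum_const, Finset.card_univ, Fintype.card_fin, nsmul_eq_mul] at c1 c2
  have c3 : 2 * (k * δ) = 1 - (∑ j, qq (r j) + ∑ j, qq (r' j)) := by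
    rw [hδ]
    field_simp
  linarith

end OL
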