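import Pool.Agent.Lib.MP_069854_nt.R8.M6
import Pool.Agent.Lib.MP_39df77_nt.OL.K14

/-! # mean values of products of smoothed series, all short lengths -/

set_option autoImplicit false

open Complex MeasureTheory Set Filter Topology
open scoped ComplexConjugate

namespace OL

/-- Row `v-2`, part 1. PROOF: this is `M3_mean` (`R8/M3b.lean`) with `X = T^δ`, `δ ≤ 1/(4k)`, in place of `X = T^(1/(4k))`: the error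
of `M1_mv` is `4 (X^k) (4X^2)^k = 4^(k+1) X^(3k) ≤ 4^(k+1) T^(3/4)`, the rate is `M3_rate` with `X^(-η) = T^(-δη)`. Copy the proof. -/
theorem V2_mean {k : ℕ} (hk : 1 ≤ k) {σ : ℝ} (hσ : 1 / 2 < σ) (hσ1 : σ < 1) {δ : ℝ} (hδ : 0 < δ)
    (hδ1 : δ ≤ 1 / (4 * k)) : ∃ η C : ℝ, 0 < η ∧ 0 ≤ C ∧
    ∀ T : ℝ, 1 ≤ T → ∀ z w : Fin k → ℂ, (∀ j, 0 ≤ (z j).re) → (∀ j, 0 ≤ (w j).re) →
    ‖(T : ℂ)⁻¹ * (∫ t in (0 : ℝ)..T,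
        (∏ j, Sx (σ + (z j).re) (T ^ δ) (t + (z j).im)) *
        (starRingEnd ℂ) (∏ j, Sx (σ + (w j).re) (T ^ δ) (t + -(w j).im))) -
      ∑' n : ℕ, dT σ z w n‖ ≤ C * T ^ (-η) := by
  obtain ⟨η, C, hη, hC, h⟩ := M3_rate k hσ hσ1
  have hk0 : (0 : ℝ) < k := by exact_mod_cast hk
  refine ⟨min (1 / 4) (δ * η), 4 * 4 ^ k + C, lt_min (by norm_num) (by positivity), by positivity,
    fun T hT z w hz hw => ?_⟩
  have hT0 : 0 < T := by linarith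
  have hX0 : 0 < T ^ δ := by positivity
  have k1 := h _ hX0 z w hz hw
  set X : ℝ := T ^ δ with hXdef
  have s0 := (M3_real (k := k) hX0 σ).1
  have b0 := M3_sum0 (k := k) (σ := σ) (by linarith) hX0
  obtain ⟨s1, b1⟩ := M3_sum1 (k := k) (σ := σ) (by linarith) hX0
  have hc0 : ∀ n : ℕ, 0 ≤ (ER X ^ k) (n + 1) * (n + 1 : ℝ) ^ (-σ) := fun n =>
    mul_nonneg (af_pow_nonneg (ER_nonneg X) _ _) (by positivity)
  have hn1 : ∀ (c : Fin k → ℂ) (_ : ∀ j, 0 ≤ (c j).re) (n : ℕ),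
      ‖EK X c (n + 1) * (((n + 1 : ℝ) ^ (-σ) : ℝ) : ℂ)‖ ≤
      (ER X ^ k) (n + 1) * (n + 1 : ℝ) ^ (-σ) := by
    intro c hc n
    rw [norm_mul, Complex.norm_real, Real.norm_of_nonneg (by positivity)]
    exact mul_le_mul_of_nonneg_right (EK_norm X hc (n + 1)) (by positivity)
  have hw' : ∀ j, 0 ≤ ((starRingEnd ℂ) (w j)).re := fun j => by
    rw [Complex.conj_re]; exact hw j
  have h4 := M1_mv hc0 (hn1 z hz) (hn1 (fun j => (starRingEnd ℂ) (w j)) hw') s0 s1 hT0.le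
  simp_rw [← M3_prod hX0 σ, Complex.conj_re, Complex.conj_im] at h4
  have h5 : 4 * ((∑' n : ℕ, (ER X ^ k) (n + 1) * (n + 1 : ℝ) ^ (-σ)) *
      ∑' n : ℕ, (n + 1 : ℝ) * ((ER X ^ k) (n + 1) * (n + 1 : ℝ) ^ (-σ))) ≤ 4 * 4 ^ k * X ^ (3 * k) := by
    have n1 : 0 ≤ ∑' n : ℕ, (n + 1 : ℝ) * ((ER X ^ k) (n + 1) * (n + 1 : ℝ) ^ (-σ)) :=
      tsum_nonneg fun n => mul_nonneg (by positivity) (hc0 n)
    calc 4 * ((∑' n : ℕ, (ER X ^ k) (n + 1) * (n + 1 : ℝ) ^ (-σ)) *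
          ∑' n : ℕ, (n + 1 : ℝ) * ((ER X ^ k) (n + 1) * (n + 1 : ℝ) ^ (-σ)))
        ≤ 4 * (X ^ k * (4 * X ^ 2) ^ k) := by gcongr
      _ = _ := by
          rw [mul_pow, ← pow_mul, show 3 * k = k + 2 * k by ring, pow_add]
          ring
  have h6 : T⁻¹ * X ^ (3 * k) ≤ T ^ (-(1 / 4 : ℝ)) := by
    rw [hXdef, ← Real.rpow_natCast, ← Real.rpow_mul hT0.le, ← Real.rpow_neg_one,
      ← Real.rpow_add hT0]
    apply Real.rpow_le_rpow_of_exponent_le hT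
    have hk4 : δ * (4 * k) ≤ 1 := by
      rwa [le_div_iff₀ (by positivity)] at hδ1
    push_cast
    linarith
  have k2 : ‖(T : ℂ)⁻¹ * (∫ t in (0 : ℝ)..T, (∏ j, Sx (σ + (z j).re) X (t + (z j).im)) *
        (starRingEnd ℂ) (∏ j, Sx (σ + (w j).re) X (t + -(w j).im))) -
      (∑' n : ℕ, (EK X z (n + 1) * (((n + 1 : ℝ) ^ (-σ) : ℝ) : ℂ)) *
      (starRingEnd ℂ) (EK X (fun j => (starRingEnd ℂ) (w j)) (n + 1) *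
        (((n + 1 : ℝ) ^ (-σ) : ℝ) : ℂ)))‖ ≤
      4 * 4 ^ k * T ^ (-(1 / 4 : ℝ)) := by
    have hTc : (T : ℂ) ≠ 0 := by exact_mod_cast hT0.ne'
    have e2 : ∀ u v : ℂ, (T : ℂ)⁻¹ * u - v = (T : ℂ)⁻¹ * (u - T * v) := by
      intro u v
      field_simp
    rw [e2, norm_mul, norm_inv, Complex.norm_real, Real.norm_of_nonneg hT0.le]
    calc T⁻¹ * _ ≤ T⁻¹ * (4 * 4 ^ k * X ^ (3 * k)) :=
          mul_le_mul_of_nonneg_left (h4.trans h5) (inv_pos.2 hT0).le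
      _ = 4 * 4 ^ k * (T⁻¹ * X ^ (3 * k)) := by ring
      _ ≤ _ := by gcongr
  have k3 : X ^ (-η) = T ^ (-(δ * η)) := by
    rw [hXdef, ← Real.rpow_mul hT0.le]
    congr 1
    ring
  rw [k3] at k1
  have k4 : T ^ (-(1 / 4 : ℝ)) ≤ T ^ (-(min (1 / 4) (δ * η))) :=
    Real.rpow_le_rpow_of_exponent_le hT (neg_le_neg (min_le_left _ _))
  have k5 : T ^ (-(δ * η)) ≤ T ^ (-(min (1 / 4) (δ * η))) :=
    Real.rpow_le_rpow_of_exponent_le hT (neg_le_neg (min_le_right _ _))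
  refine (norm_sub_le_norm_sub_add_norm_sub _ _ _).trans ((add_le_add k2 k1).trans ?_)
  calc 4 * 4 ^ k * T ^ (-(1 / 4 : ℝ)) + C * T ^ (-(δ * η))
      ≤ 4 * 4 ^ k * T ^ (-(min (1 / 4) (δ * η))) + C * T ^ (-(min (1 / 4) (δ * η))) := by
        gcongr
    _ = _ := by ring

/-- the `2k`-th moment of the shifted smoothed series is bounded -/
theorem v2_S {k : ℕ} (hk : 1 ≤ k) {σ1 : ℝ} (hσ : 1 / 2 < σ1) (hσ1 : σ1 < 1) {δ : ℝ} (hδ : 0 < δ)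
    (hδ1 : δ ≤ 1 / (4 * k)) : ∃ C : ℝ, 0 ≤ C ∧
    ∀ σ : ℝ, σ1 ≤ σ → ∀ T : ℝ, 1 ≤ T → ∀ x : ℝ,
    T⁻¹ * (∫ t in (0 : ℝ)..T, ‖Sx σ (T ^ δ) (t + x)‖ ^ (2 * k)) ≤ C := by
  obtain ⟨η, C, hη, hC, h⟩ := V2_mean hk hσ hσ1 hδ hδ1
  refine ⟨C + ∑' n : ℕ, (oneR ^ k) (n + 1) ^ 2 * (n + 1 : ℝ) ^ (-(2 * σ1)),
    add_nonneg hC (tsum_nonneg fun n => by positivity), fun σ hs1 T hT x => ?_⟩
  have hT0 : 0 < T := by linarith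
  have q1 : ∀ _ : Fin k, 0 ≤ (((σ - σ1 : ℝ) : ℂ) + (x : ℝ) * I).re := fun _ => by simp; linarith
  have q2 : ∀ _ : Fin k, 0 ≤ (((σ - σ1 : ℝ) : ℂ) + ((-x : ℝ) : ℂ) * I).re := fun _ => by
    simp; linarith
  have h1 := h T hT (fun _ => ((σ - σ1 : ℝ) : ℂ) + (x : ℝ) * I)
    (fun _ => ((σ - σ1 : ℝ) : ℂ) + ((-x : ℝ) : ℂ) * I) q1 q2
  have h2 := dT_tsum_norm (k := k) hσ q1 q2
  have r1 : (((σ - σ1 : ℝ) : ℂ) + (x : ℝ) * I).re = σ - σ1 := by simp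
  have r2 : (((σ - σ1 : ℝ) : ℂ) + ((-x : ℝ) : ℂ) * I).re = σ - σ1 := by simp
  have r3 : (((σ - σ1 : ℝ) : ℂ) + (x : ℝ) * I).im = x := by simp
  have r4 : (((σ - σ1 : ℝ) : ℂ) + ((-x : ℝ) : ℂ) * I).im = -x := by simp
  have r5 : σ1 + (σ - σ1) = σ := by ring
  simp only [r1, r2, r3, r4, r5, neg_neg] at h1
  have e1 : ∀ t : ℝ, (∏ _j : Fin k, Sx σ (T ^ δ) (t + x)) *
        (starRingEnd ℂ) (∏ _j : Fin k, Sx σ (T ^ δ) (t + x)) =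
      ((‖Sx σ (T ^ δ) (t + x)‖ ^ (2 * k) : ℝ) : ℂ) := by
    intro t
    rw [Complex.mul_conj, Finset.prod_const, Finset.card_univ, Fintype.card_fin, map_pow,
      Complex.normSq_eq_norm_sq, ← pow_mul]
  simp_rw [e1] at h1
  rw [intervalIntegral.integral_ofReal] at h1
  have e2 : (T : ℂ)⁻¹ * ((∫ t in (0 : ℝ)..T, ‖Sx σ (T ^ δ) (t + x)‖ ^ (2 * k) : ℝ) : ℂ) =
      ((T⁻¹ * (∫ t in (0 : ℝ)..T, ‖Sx σ (T ^ δ) (t + x)‖ ^ (2 * k)) : ℝ) : ℂ) := by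
    push_cast
    rfl
  rw [e2] at h1
  have h3 := norm_sub_norm_le (((T⁻¹ * (∫ t in (0 : ℝ)..T, ‖Sx σ (T ^ δ) (t + x)‖ ^ (2 * k)) : ℝ) : ℂ))
    (∑' n : ℕ, dT σ1 (fun _ : Fin k => ((σ - σ1 : ℝ) : ℂ) + (x : ℝ) * I)
    (fun _ => ((σ - σ1 : ℝ) : ℂ) + ((-x : ℝ) : ℂ) * I) n)
  rw [Complex.norm_real, Real.norm_eq_abs] at h3
  have h4 := le_abs_self (T⁻¹ * (∫ t in (0 : ℝ)..T, ‖Sx σ (T ^ δ) (t + x)‖ ^ (2 * k)))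
  have h5 : T ^ (-η) ≤ 1 := Real.rpow_le_one_of_one_le_of_nonpos hT (by linarith)
  have h6 : C * T ^ (-η) ≤ C := mul_le_of_le_one_right hC h5
  linarith

/-- part 2. PROOF: for the exponent `2m` as `M6_S` (`R8/M6.lean`) from part 1 (with `k = m`); for `1 ≤ A ≤ 2m` by `pmean` (`OL/K14.lean`):
`T⁻¹ ∫ f^A ≤ (T⁻¹ ∫ f^(2m))^(A/(2m)) ≤ (C+1)^(A/(2m)) ≤ C+1`. -/
theorem V2_S {m : ℕ} (hm : 1 ≤ m) {σ1 : ℝ} (hσ : 1 / 2 < σ1) (hσ1 : σ1 < 1) {δ : ℝ} (hδ : 0 < δ)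
    (hδ1 : δ ≤ 1 / (4 * m)) : ∃ C : ℝ, 0 ≤ C ∧
    ∀ A : ℝ, 1 ≤ A → A ≤ 2 * m → ∀ σ : ℝ, σ1 ≤ σ → ∀ T : ℝ, 1 ≤ T → ∀ x : ℝ,
    T⁻¹ * (∫ t in (0 : ℝ)..T, ‖Sx σ (T ^ δ) (t + x)‖ ^ A) ≤ C := by
  obtain ⟨C, hC, h⟩ := v2_S hm hσ hσ1 hδ hδ1
  refine ⟨C + 1, by linarith, fun A hA1 hA σ hs T hT x => ?_⟩
  have hT0 : 0 < T := by linarith
  have hX0 : 0 < T ^ δ := by positivity
  have hm0 : (0 : ℝ) < 2 * m := by
    have : (0 : ℝ) < m := by exact_mod_cast hm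
    linarith
  have c2 : Continuous fun t : ℝ => Sx σ (T ^ δ) (t + x) :=
    (Sx_cont hX0 σ).comp (continuous_id.add continuous_const)
  have h1 := pmean c2.norm (fun t => norm_nonneg _) (show 0 < A by linarith) hA hT0
  have h2 := h σ hs T hT x
  have e1 : ∀ t : ℝ, ‖Sx σ (T ^ δ) (t + x)‖ ^ (2 * (m : ℝ)) = ‖Sx σ (T ^ δ) (t + x)‖ ^ (2 * m) := by
    intro t
    rw [← Real.rpow_natCast]
    push_cast
    rfl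
  simp_rw [e1] at h1
  have h3 : 0 ≤ T⁻¹ * (∫ t in (0 : ℝ)..T, ‖Sx σ (T ^ δ) (t + x)‖ ^ (2 * m)) :=
    mul_nonneg (inv_nonneg.2 hT0.le) (intervalIntegral.integral_nonneg hT0.le fun t _ => by positivity)
  have h4 : (T⁻¹ * (∫ t in (0 : ℝ)..T, ‖Sx σ (T ^ δ) (t + x)‖ ^ (2 * m))) ^ (A / (2 * (m : ℝ))) ≤
      (C + 1) ^ (A / (2 * (m : ℝ))) :=
    Real.rpow_le_rpow h3 (by linarith) (by positivity)
  have h5 : (C + 1) ^ (A / (2 * (m : ℝ))) ≤ (C + 1) ^ (1 : ℝ) :=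
    Real.rpow_le_rpow_of_exponent_le (by linarith) ((div_le_one hm0).2 hA)
  rw [Real.rpow_one] at h5
  exact h1.trans (h4.trans h5)

end OL
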