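import Mathlib

/-! # Products in mean: Hoelder with different exponents -/

set_option autoImplicit false

open Complex MeasureTheory Set Filter Topology
open scoped ComplexConjugate

namespace OL

/-- the mean over `[0, T]` -/
noncomputable def v3J (T : ℝ) (f : ℝ → ℝ) : ℝ := T⁻¹ * ∫ t in (0 : ℝ)..T, f t

lemma v3J_add (T : ℝ) {f g : ℝ → ℝ} (hf : Continuous f) (hg : Continuous g) :
    v3J T (fun t => f t + g t) = v3J T f + v3J T g := by
  unfold v3J
  rw [intervalIntegral.integral_add (hf.intervalIntegrable _ _) (hg.intervalIntegrable _ _), mul_add]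

lemma v3J_mul (T c : ℝ) (f : ℝ → ℝ) : v3J T (fun t => c * f t) = c * v3J T f := by
  unfold v3J
  rw [intervalIntegral.integral_const_mul]
  ring

lemma v3J_sum (T : ℝ) {ι : Type*} [Fintype ι] {f : ι → ℝ → ℝ} (hf : ∀ i, Continuous (f i)) :
    v3J T (fun t => ∑ i, f i t) = ∑ i, v3J T (f i) := by
  unfold v3J
  rw [intervalIntegral.integral_finsetSum (fun i _ => (hf i).intervalIntegrable _ _), Finset.mul_sum]

lemma v3J_const {T : ℝ} (hT : 0 < T) (c : ℝ) : v3J T (fun _ => c) = c := by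
  unfold v3J
  rw [intervalIntegral.integral_const, smul_eq_mul, sub_zero, ← mul_assoc, inv_mul_cancel₀ hT.ne', one_mul]

lemma v3J_mono {T : ℝ} (hT : 0 < T) {f g : ℝ → ℝ} (hf : Continuous f) (hg : Continuous g)
    (h : ∀ t, f t ≤ g t) : v3J T f ≤ v3J T g := by
  unfold v3J
  exact mul_le_mul_of_nonneg_left (intervalIntegral.integral_mono_on hT.le (hf.intervalIntegrable _ _)
    (hg.intervalIntegrable _ _) fun t _ => h t) (inv_nonneg.2 hT.le)

/-- Row `v-3`, part 1: weighted arithmetic and geometric means. PROOF: Young: `∏ x_i ≤ ∑ (1/p_i) x_i^{p_i} + (1 - ∑ 1/p_i)`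
(`Real.geom_mean_le_arith_mean_weighted` with the extra index of value `1`, on `Option ι`), and `1/p_i ≤ 1`. -/
theorem V3_young {ι : Type*} [Fintype ι] {p : ι → ℝ} (hp : ∀ i, 1 ≤ p i) (hs : ∑ i, 1 / p i ≤ 1)
    {x : ι → ℝ} (hx : ∀ i, 0 ≤ x i) : ∏ i, x i ≤ ∑ i, x i ^ p i + 1 := by
  classical
  have h := Real.geom_mean_le_arith_mean_weighted (Finset.univ : Finset (Option ι))
    (fun o => Option.elim o (1 - ∑ i, 1 / p i) (fun i => 1 / p i))
    (fun o => Option.elim o 1 (fun i => x i ^ p i))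
    (by
      rintro (_ | i) _
      · exact sub_nonneg.2 hs
      · exact div_nonneg zero_le_one (zero_le_one.trans (hp i)))
    (by
      rw [Fintype.sum_option]
      simp only [Option.elim_none, Option.elim_some]
      ring)
    (by
      rintro (_ | i) _
      · exact zero_le_one
      · exact Real.rpow_nonneg (hx i) _)
  rw [Fintype.prod_option, Fintype.sum_option] at h
  simp only [Option.elim_none, Option.elim_some, Real.one_rpow, one_mul, mul_one] at h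
  have e1 : ∏ i, (x i ^ p i) ^ (1 / p i) = ∏ i, x i := by
    refine Finset.prod_congr rfl fun i _ => ?_
    rw [← Real.rpow_mul (hx i), mul_one_div_cancel (by linarith [hp i]), Real.rpow_one]
  have e2 : ∑ i, 1 / p i * x i ^ p i ≤ ∑ i, x i ^ p i := by
    refine Finset.sum_le_sum fun i _ => mul_le_of_le_one_left (Real.rpow_nonneg (hx i) _) ?_
    rw [div_le_one (by linarith [hp i])]
    exact hp i
  have e3 : 0 ≤ ∑ i, 1 / p i := Finset.sum_nonneg fun i _ => div_nonneg zero_le_one (zero_le_one.trans (hp i))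
  rw [e1] at h
  linarith

/-- telescoping -/
lemma v3_tel {ι : Type*} [DecidableEq ι] (a b : ι → ℂ) (s : Finset ι) :
    ‖∏ i ∈ s, a i - ∏ i ∈ s, b i‖ ≤ ∑ i ∈ s, ‖a i - b i‖ * ∏ j ∈ s.erase i, max ‖a j‖ ‖b j‖ := by
  induction s using Finset.induction_on with
  | empty => simp
  | insert k s hk ih =>
    rw [Finset.prod_insert hk, Finset.prod_insert hk, Finset.sum_insert hk, Finset.erase_insert hk]
    have e1 : a k * ∏ i ∈ s, a i - b k * ∏ i ∈ s, b i =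
        (a k - b k) * ∏ i ∈ s, a i + b k * (∏ i ∈ s, a i - ∏ i ∈ s, b i) := by ring
    rw [e1]
    refine (norm_add_le _ _).trans (add_le_add ?_ ?_)
    · rw [norm_mul, norm_prod]
      exact mul_le_mul_of_nonneg_left
        (Finset.prod_le_prod (fun i _ => norm_nonneg _) fun i _ => le_max_left _ _) (norm_nonneg _)
    · rw [norm_mul]
      refine (mul_le_mul_of_nonneg_left ih (norm_nonneg _)).trans ?_
      rw [Finset.mul_sum]
      refine Finset.sum_le_sum fun i hi => ?_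
      have hki : k ≠ i := fun h => hk (h ▸ hi)
      have e2 : (insert k s).erase i = insert k (s.erase i) := Finset.erase_insert_of_ne hki
      rw [e2, Finset.prod_insert (fun h => hk (Finset.mem_of_mem_erase h))]
      have h0 : 0 ≤ ∏ j ∈ s.erase i, max ‖a j‖ ‖b j‖ :=
        Finset.prod_nonneg fun j _ => (norm_nonneg _).trans (le_max_left _ _)
      calc ‖b k‖ * (‖a i - b i‖ * ∏ j ∈ s.erase i, max ‖a j‖ ‖b j‖)
          = ‖a i - b i‖ * (‖b k‖ * ∏ j ∈ s.erase i, max ‖a j‖ ‖b j‖) := by ring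
        _ ≤ ‖a i - b i‖ * (max ‖a k‖ ‖b k‖ * ∏ j ∈ s.erase i, max ‖a j‖ ‖b j‖) :=
            mul_le_mul_of_nonneg_left (mul_le_mul_of_nonneg_right (le_max_right _ _) h0) (norm_nonneg _)

/-- one term of the telescoping sum -/
lemma v3_term {ι : Type*} [Fintype ι] [DecidableEq ι] {p : ι → ℝ} (hp : ∀ i, 1 ≤ p i)
    (hs : ∑ i, 1 / p i ≤ 1) {P D : ℝ} (hP : ∀ i, p i ≤ P) (hP0 : 0 < P) (hD : 0 < D) (hD1 : D ≤ 1)
    (a b : ι → ℂ) (i : ι) :
    ‖a i - b i‖ * ∏ j ∈ Finset.univ.erase i, max ‖a j‖ ‖b j‖ ≤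
      D ^ (1 / P) * (D⁻¹ * ‖a i - b i‖ ^ p i + ∑ j, (‖a j‖ ^ p j + ‖b j‖ ^ p j) + 1) := by
  obtain ⟨lam, hlam⟩ : ∃ lam, lam = D ^ (1 / P) := ⟨_, rfl⟩
  have hl0 : 0 < lam := by rw [hlam]; positivity
  obtain ⟨x, hx⟩ : ∃ x : ι → ℝ, x = Function.update (fun j => max ‖a j‖ ‖b j‖) i (‖a i - b i‖ / lam) :=
    ⟨_, rfl⟩
  have hxi : x i = ‖a i - b i‖ / lam := by rw [hx, Function.update_self]
  have hxj : ∀ j, j ≠ i → x j = max ‖a j‖ ‖b j‖ := fun j hj => by rw [hx, Function.update_of_ne hj]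
  have hm : ∀ j, 0 ≤ max ‖a j‖ ‖b j‖ := fun j => (norm_nonneg _).trans (le_max_left _ _)
  have hx0 : ∀ j, 0 ≤ x j := by
    intro j
    by_cases hj : j = i
    · rw [hj, hxi]; positivity
    · rw [hxj j hj]; exact hm j
  have e1 : ‖a i - b i‖ * ∏ j ∈ Finset.univ.erase i, max ‖a j‖ ‖b j‖ = lam * ∏ j, x j := by
    rw [← Finset.mul_prod_erase Finset.univ x (Finset.mem_univ i), hxi,
      Finset.prod_congr rfl (fun j hj => hxj j (Finset.ne_of_mem_erase hj))]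
    field_simp
  have hmj : ∀ j, max ‖a j‖ ‖b j‖ ^ p j ≤ ‖a j‖ ^ p j + ‖b j‖ ^ p j := by
    intro j
    have q1 : 0 ≤ ‖a j‖ ^ p j := Real.rpow_nonneg (norm_nonneg _) _
    have q2 : 0 ≤ ‖b j‖ ^ p j := Real.rpow_nonneg (norm_nonneg _) _
    rcases le_total ‖a j‖ ‖b j‖ with h | h
    · rw [max_eq_right h]; linarith
    · rw [max_eq_left h]; linarith
  have e2 : ∑ j, x j ^ p j ≤ D⁻¹ * ‖a i - b i‖ ^ p i + ∑ j, (‖a j‖ ^ p j + ‖b j‖ ^ p j) := by
    rw [← Finset.add_sum_erase Finset.univ _ (Finset.mem_univ i)]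
    refine add_le_add ?_ ?_
    · rw [hxi, Real.div_rpow (norm_nonneg _) hl0.le, div_eq_mul_inv, mul_comm]
      refine mul_le_mul_of_nonneg_right ?_ (Real.rpow_nonneg (norm_nonneg _) _)
      refine inv_anti₀ hD ?_
      rw [hlam, ← Real.rpow_mul hD.le]
      calc D = D ^ (1 : ℝ) := (Real.rpow_one D).symm
        _ ≤ D ^ (1 / P * p i) := by
            refine Real.rpow_le_rpow_of_exponent_ge hD hD1 ?_
            rw [one_div, inv_mul_le_iff₀ hP0, mul_one]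
            exact hP i
    · calc ∑ j ∈ Finset.univ.erase i, x j ^ p j
          = ∑ j ∈ Finset.univ.erase i, max ‖a j‖ ‖b j‖ ^ p j :=
            Finset.sum_congr rfl fun j hj => by rw [hxj j (Finset.ne_of_mem_erase hj)]
        _ ≤ ∑ j ∈ Finset.univ.erase i, (‖a j‖ ^ p j + ‖b j‖ ^ p j) := Finset.sum_le_sum fun j _ => hmj j
        _ ≤ ∑ j, (‖a j‖ ^ p j + ‖b j‖ ^ p j) :=
            Finset.sum_le_sum_of_subset_of_nonneg (Finset.erase_subset _ _) fun j _ _ =>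
              add_nonneg (Real.rpow_nonneg (norm_nonneg _) _) (Real.rpow_nonneg (norm_nonneg _) _)
  rw [e1, ← hlam]
  refine mul_le_mul_of_nonneg_left ((V3_young hp hs hx0).trans ?_) hl0.le
  linarith

/-- part 2. PROOF: telescoping: for an enumeration, `∏ A - ∏ B = ∑_i (∏_{j<i} B_j) (A_i - B_i) (∏_{j>i} A_j)`, or the inequality
`|∏ a - ∏ b| ≤ ∑_i |a_i - b_i| ∏_{j≠i} max(|a_j|, |b_j|)` (induction on the finset). With `λ = D^(1/P)`, `P ≥ p_i` for all `i`, the `i`-th term is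
`λ * (|a_i - b_i|/λ) ∏_{j≠i} max(|a_j|,|b_j|) ≤ λ (|a_i - b_i|^{p_i} λ^{-p_i} + ∑_{j≠i} (|a_j|^{p_j} + |b_j|^{p_j}) + 1)` by part 1, and
`λ^{-p_i} D ≤ 1`. Integrate: the mean is `≤ n λ (1 + 2 n M + 1)`. So `q = 1/P`. (Pattern: `M5_prod`, `R8/M5.lean`.) -/
theorem V3_prod {ι : Type*} [Fintype ι] [DecidableEq ι] {p : ι → ℝ} (hp : ∀ i, 1 ≤ p i)
    (hs : ∑ i, 1 / p i ≤ 1) {M : ℝ} (hM : 1 ≤ M) :
    ∃ C q : ℝ, 0 ≤ C ∧ 0 < q ∧ ∀ (A B : ι → ℝ → ℂ), (∀ i, Continuous (A i)) → (∀ i, Continuous (B i)) →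
      ∀ (T D : ℝ), 0 < T → 0 < D → D ≤ 1 →
      (∀ i, T⁻¹ * (∫ t in (0 : ℝ)..T, ‖A i t - B i t‖ ^ p i) ≤ D) →
      (∀ i, T⁻¹ * (∫ t in (0 : ℝ)..T, ‖A i t‖ ^ p i) ≤ M) →
      (∀ i, T⁻¹ * (∫ t in (0 : ℝ)..T, ‖B i t‖ ^ p i) ≤ M) →
      ‖(T : ℂ)⁻¹ * (∫ t in (0 : ℝ)..T, ∏ i, A i t) - (T : ℂ)⁻¹ * ∫ t in (0 : ℝ)..T, ∏ i, B i t‖ ≤
        C * D ^ q := by
  obtain ⟨P, hPdef⟩ : ∃ P, P = 1 + ∑ i, p i := ⟨_, rfl⟩
  have hpp : ∀ i, 0 ≤ p i := fun i => zero_le_one.trans (hp i)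
  have hsum : 0 ≤ ∑ i, p i := Finset.sum_nonneg fun i _ => hpp i
  have hP0 : 0 < P := by rw [hPdef]; linarith
  have hP : ∀ i, p i ≤ P := by
    intro i
    have := Finset.single_le_sum (f := p) (fun j _ => hpp j) (Finset.mem_univ i)
    rw [hPdef]; linarith
  obtain ⟨n, hn⟩ : ∃ n : ℝ, n = Fintype.card ι := ⟨_, rfl⟩
  have hn0 : 0 ≤ n := by rw [hn]; positivity
  have hM0 : 0 ≤ M := by linarith
  refine ⟨n * (2 + n * (2 * M)), 1 / P, by positivity, by positivity, ?_⟩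
  intro A B hA hB T D hT hD hD1 h1 h2 h3
  have cA : ∀ i, Continuous fun t => ‖A i t‖ ^ p i := fun i => (hA i).norm.rpow_const fun _ => Or.inr (hpp i)
  have cB : ∀ i, Continuous fun t => ‖B i t‖ ^ p i := fun i => (hB i).norm.rpow_const fun _ => Or.inr (hpp i)
  have cAB : ∀ i, Continuous fun t => ‖A i t - B i t‖ ^ p i := fun i =>
    ((hA i).sub (hB i)).norm.rpow_const fun _ => Or.inr (hpp i)
  have pA : Continuous fun t => ∏ i, A i t := continuous_finsetProd _ fun i _ => hA i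
  have pB : Continuous fun t => ∏ i, B i t := continuous_finsetProd _ fun i _ => hB i
  rw [← mul_sub, ← intervalIntegral.integral_sub (pA.intervalIntegrable _ _) (pB.intervalIntegrable _ _),
    norm_mul, norm_inv, Complex.norm_real, Real.norm_of_nonneg hT.le]
  have s1 : T⁻¹ * ‖∫ t in (0 : ℝ)..T, (∏ i, A i t - ∏ i, B i t)‖ ≤
      v3J T fun t => ‖∏ i, A i t - ∏ i, B i t‖ :=
    mul_le_mul_of_nonneg_left (intervalIntegral.norm_integral_le_integral_norm hT.le) (inv_nonneg.2 hT.le)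
  have cS : Continuous fun t => ∑ j, (‖A j t‖ ^ p j + ‖B j t‖ ^ p j) :=
    continuous_finsetSum _ fun j _ => (cA j).add (cB j)
  have cG : ∀ i, Continuous fun t => D ^ (1 / P) * (D⁻¹ * ‖A i t - B i t‖ ^ p i +
      ∑ j, (‖A j t‖ ^ p j + ‖B j t‖ ^ p j) + 1) := fun i =>
    continuous_const.mul (((continuous_const.mul (cAB i)).add cS).add continuous_const)
  have s2 : v3J T (fun t => ‖∏ i, A i t - ∏ i, B i t‖) ≤ v3J T fun t => ∑ i, D ^ (1 / P) *
      (D⁻¹ * ‖A i t - B i t‖ ^ p i + ∑ j, (‖A j t‖ ^ p j + ‖B j t‖ ^ p j) + 1) := by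
    refine v3J_mono hT (pA.sub pB).norm (continuous_finsetSum _ fun i _ => cG i) fun t => ?_
    refine (v3_tel (fun i => A i t) (fun i => B i t) Finset.univ).trans ?_
    exact Finset.sum_le_sum fun i _ => v3_term hp hs hP hP0 hD hD1 (fun i => A i t) (fun i => B i t) i
  rw [v3J_sum T cG] at s2
  have s3 : ∀ i, v3J T (fun t => D ^ (1 / P) * (D⁻¹ * ‖A i t - B i t‖ ^ p i +
      ∑ j, (‖A j t‖ ^ p j + ‖B j t‖ ^ p j) + 1)) ≤ D ^ (1 / P) * (2 + n * (2 * M)) := by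
    intro i
    have cD : Continuous fun t => D⁻¹ * ‖A i t - B i t‖ ^ p i := continuous_const.mul (cAB i)
    have cE : Continuous fun t => D⁻¹ * ‖A i t - B i t‖ ^ p i + ∑ j, (‖A j t‖ ^ p j + ‖B j t‖ ^ p j) :=
      cD.add cS
    have cF : ∀ j, Continuous fun t => ‖A j t‖ ^ p j + ‖B j t‖ ^ p j := fun j => (cA j).add (cB j)
    rw [v3J_mul, v3J_add T (g := fun _ => 1) cE continuous_const, v3J_add T cD cS, v3J_mul, v3J_sum T cF,
      v3J_const hT]
    refine mul_le_mul_of_nonneg_left ?_ (Real.rpow_nonneg hD.le _)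
    have q1 : D⁻¹ * v3J T (fun t => ‖A i t - B i t‖ ^ p i) ≤ 1 := by
      rw [inv_mul_le_iff₀ hD, mul_one]
      exact h1 i
    have q2 : ∑ j, v3J T (fun t => ‖A j t‖ ^ p j + ‖B j t‖ ^ p j) ≤ n * (2 * M) := by
      rw [hn]
      calc ∑ j, v3J T (fun t => ‖A j t‖ ^ p j + ‖B j t‖ ^ p j) ≤ ∑ _j : ι, 2 * M := by
            refine Finset.sum_le_sum fun j _ => ?_
            rw [v3J_add T (cA j) (cB j)]
            have := h2 j
            have := h3 j
            unfold v3J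
            linarith
        _ = (Fintype.card ι : ℝ) * (2 * M) := by
            rw [Finset.sum_const, Finset.card_univ, nsmul_eq_mul]
    linarith
  calc T⁻¹ * ‖∫ t in (0 : ℝ)..T, (∏ i, A i t - ∏ i, B i t)‖
      ≤ ∑ i, v3J T (fun t => D ^ (1 / P) * (D⁻¹ * ‖A i t - B i t‖ ^ p i +
          ∑ j, (‖A j t‖ ^ p j + ‖B j t‖ ^ p j) + 1)) := s1.trans s2
    _ ≤ ∑ _i : ι, D ^ (1 / P) * (2 + n * (2 * M)) := Finset.sum_le_sum fun i _ => s3 i
    _ = n * (2 + n * (2 * M)) * D ^ (1 / P) := by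
        rw [Finset.sum_const, Finset.card_univ, nsmul_eq_mul, hn]
        ring

/-- part 3. PROOF: part 1 and integration. -/
theorem V3_L1 {ι : Type*} [Fintype ι] {p : ι → ℝ} (hp : ∀ i, 1 ≤ p i)
    (hs : ∑ i, 1 / p i ≤ 1) {M : ℝ} {A : ι → ℝ → ℂ} (hA : ∀ i, Continuous (A i)) {T : ℝ} (hT : 0 < T)
    (h : ∀ i, T⁻¹ * (∫ t in (0 : ℝ)..T, ‖A i t‖ ^ p i) ≤ M) :
    T⁻¹ * (∫ t in (0 : ℝ)..T, ‖∏ i, A i t‖) ≤ Fintype.card ι * M + 1 := by
  have cA : ∀ i, Continuous fun t => ‖A i t‖ ^ p i := fun i =>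
    (hA i).norm.rpow_const fun _ => Or.inr (zero_le_one.trans (hp i))
  have pA : Continuous fun t => ∏ i, A i t := continuous_finsetProd _ fun i _ => hA i
  have s1 : v3J T (fun t => ‖∏ i, A i t‖) ≤ v3J T fun t => ∑ i, ‖A i t‖ ^ p i + 1 := by
    refine v3J_mono hT pA.norm ((continuous_finsetSum _ fun i _ => cA i).add continuous_const) fun t => ?_
    rw [norm_prod]
    exact V3_young hp hs fun i => norm_nonneg _
  rw [v3J_add T (continuous_finsetSum _ fun i _ => cA i) continuous_const, v3J_sum T cA, v3J_const hT] at s1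
  refine s1.trans (add_le_add ?_ le_rfl)
  calc ∑ i, v3J T (fun t => ‖A i t‖ ^ p i) ≤ ∑ _i : ι, M := Finset.sum_le_sum fun i _ => h i
    _ = Fintype.card ι * M := by rw [Finset.sum_const, Finset.card_univ, nsmul_eq_mul]

end OL
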