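import Pool.Agent.Lib.MP_069854_nt.R9.V1
import Pool.Agent.Lib.MP_069854_nt.R9.V2
import Pool.Agent.Lib.MP_069854_nt.R9.V3

/-! # Shifted moments off the critical line, mixed real parts -/

set_option autoImplicit false

open Complex MeasureTheory Set Filter Topology
open scoped ComplexConjugate

namespace OL

lemma v4_add_rpow {x y A : ℝ} (hx : 0 ≤ x) (hy : 0 ≤ y) (hA : 1 ≤ A) :
    (x + y) ^ A ≤ 2 ^ A * (x ^ A + y ^ A) := by
  have h0 : 0 ≤ A := by linarith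
  have hxA := Real.rpow_nonneg hx A
  have hyA := Real.rpow_nonneg hy A
  rcases le_total x y with h | h
  · have h1 : (x + y) ^ A ≤ (2 * y) ^ A := Real.rpow_le_rpow (by linarith) (by linarith) h0
    rw [Real.mul_rpow (by norm_num) hy] at h1
    exact h1.trans (mul_le_mul_of_nonneg_left (by linarith) (by positivity))
  · have h1 : (x + y) ^ A ≤ (2 * x) ^ A := Real.rpow_le_rpow (by linarith) (by linarith) h0
    rw [Real.mul_rpow (by norm_num) hx] at h1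
    exact h1.trans (mul_le_mul_of_nonneg_left (by linarith) (by positivity))

lemma v4_delta {m : ℕ} (hm : 1 ≤ m) {A : ℝ} (hA : A ≤ 2 * m) : 1 / (4 * m : ℝ) * A ≤ 1 / 2 := by
  have hm0 : (0 : ℝ) < m := by exact_mod_cast hm
  rw [div_mul_eq_mul_div, div_le_div_iff₀ (by positivity) (by norm_num)]
  linarith

lemma v4_exists_nat (k : ℕ) {ι : Type*} [Fintype ι] (p : ι → ℝ) :
    ∃ m : ℕ, 1 ≤ m ∧ k ≤ m ∧ ∀ i, p i ≤ 2 * m := by
  obtain ⟨n, hn⟩ := exists_nat_ge (∑ i, |p i|)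
  refine ⟨n + k + 1, by omega, by omega, fun i => ?_⟩
  have h1 : |p i| ≤ ∑ i, |p i| :=
    Finset.single_le_sum (f := fun i => |p i|) (fun i _ => abs_nonneg _) (Finset.mem_univ i)
  have h2 := le_abs_self (p i)
  have h3 : (0 : ℝ) ≤ n := Nat.cast_nonneg n
  have h4 : (0 : ℝ) ≤ k := Nat.cast_nonneg k
  push_cast
  linarith

/-- Row `v-4`, part 1. PROOF: `ζ = (ζ - Sx) + Sx`, `‖u+v‖^A ≤ 2^(A-1) (‖u‖^A + ‖v‖^A)` (or `2^A`), `V1_diff` (`T^(-r) ≤ 1`) and `V2_S`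
with any `m ≥ 1`, `A ≤ 2m` and `δ = 1/(4m)` (`δ A ≤ 1/2`). (Pattern `M6_zeta`, `R8/M6.lean`.) -/
theorem V4_zeta {A s0 σ1 σ2 : ℝ} (hA : 1 ≤ A) (h0 : 1 / 2 ≤ s0) (h1 : s0 < σ1) (h12 : σ1 ≤ σ2)
    (h2 : σ2 < 1) (h : MB s0 A) : ∃ C : ℝ, 0 ≤ C ∧
    ∀ σ : ℝ, σ1 ≤ σ → σ ≤ σ2 → ∀ T : ℝ, 1 ≤ T → ∀ x : ℝ, |x| ≤ T →
    T⁻¹ * (∫ t in (0 : ℝ)..T, ‖riemannZeta (σ + (t + x : ℝ) * I)‖ ^ A) ≤ C := by
  obtain ⟨m, hm, -, hAm⟩ := v4_exists_nat 0 (fun _ : Unit => A)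
  have hAm : A ≤ 2 * m := hAm ()
  have hm0 : (0 : ℝ) < m := by exact_mod_cast hm
  have hA0 : 0 ≤ A := by linarith
  obtain ⟨r, C, hr, hC, hd⟩ := V1_diff hA h0 h1 h12 h2 (δ := 1 / (4 * m)) (by positivity)
    (v4_delta hm hAm) h
  obtain ⟨D, hD, hb⟩ := V2_S hm (show 1 / 2 < σ1 by linarith) (by linarith)
    (δ := 1 / (4 * m)) (by positivity) le_rfl
  refine ⟨2 ^ A * (C + D), by positivity, fun σ hσ1 hσ2 T hT x hx => ?_⟩
  have hT0 : 0 < T := by linarith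
  have hX0 : 0 < T ^ (1 / (4 * m : ℝ)) := by positivity
  have a1 := hd σ hσ1 hσ2 T hT x hx
  have a2 := hb A hA hAm σ hσ1 T hT x
  set X : ℝ := T ^ (1 / (4 * m : ℝ)) with hX
  have c1 : Continuous fun t : ℝ => riemannZeta (σ + (t + x : ℝ) * I) :=
    (zeta_cont (by linarith : σ < 1)).comp (continuous_id.add continuous_const)
  have c2 : Continuous fun t : ℝ => Sx σ X (t + x) :=
    (Sx_cont hX0 σ).comp (continuous_id.add continuous_const)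
  have hpt : ∀ t : ℝ, ‖riemannZeta (σ + (t + x : ℝ) * I)‖ ^ A ≤
      2 ^ A * (‖riemannZeta (σ + (t + x : ℝ) * I) - Sx σ X (t + x)‖ ^ A +
        ‖Sx σ X (t + x)‖ ^ A) := by
    intro t
    have b1 : ‖riemannZeta (σ + (t + x : ℝ) * I)‖ ≤
        ‖riemannZeta (σ + (t + x : ℝ) * I) - Sx σ X (t + x)‖ + ‖Sx σ X (t + x)‖ := by
      simpa using norm_add_le (riemannZeta (σ + (t + x : ℝ) * I) - Sx σ X (t + x)) (Sx σ X (t + x))
    exact (Real.rpow_le_rpow (norm_nonneg _) b1 hA0).trans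
      (v4_add_rpow (norm_nonneg _) (norm_nonneg _) hA)
  have i1 : IntervalIntegrable (fun t : ℝ => ‖riemannZeta (σ + (t + x : ℝ) * I) - Sx σ X (t + x)‖ ^ A)
      volume 0 T := ((c1.sub c2).norm.rpow_const fun t => Or.inr hA0).intervalIntegrable _ _
  have i2 : IntervalIntegrable (fun t : ℝ => ‖Sx σ X (t + x)‖ ^ A) volume 0 T :=
    (c2.norm.rpow_const fun t => Or.inr hA0).intervalIntegrable _ _
  have h2 := intervalIntegral.integral_mono_on hT0.le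
    ((c1.norm.rpow_const fun t => Or.inr hA0).intervalIntegrable 0 T)
    ((i1.add i2).const_mul (2 ^ A)) (fun t _ => hpt t)
  rw [intervalIntegral.integral_const_mul, intervalIntegral.integral_add i1 i2] at h2
  have h5 : T ^ (-r) ≤ 1 := Real.rpow_le_one_of_one_le_of_nonpos hT (by linarith)
  have h6 : C * T ^ (-r) ≤ C := mul_le_of_le_one_right hC h5
  calc T⁻¹ * (∫ t in (0 : ℝ)..T, ‖riemannZeta (σ + (t + x : ℝ) * I)‖ ^ A)
      ≤ T⁻¹ * (2 ^ A * ((∫ t in (0 : ℝ)..T,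
        ‖riemannZeta (σ + (t + x : ℝ) * I) - Sx σ X (t + x)‖ ^ A) +
          ∫ t in (0 : ℝ)..T, ‖Sx σ X (t + x)‖ ^ A)) :=
        mul_le_mul_of_nonneg_left h2 (inv_pos.2 hT0).le
    _ = 2 ^ A * ((T⁻¹ * ∫ t in (0 : ℝ)..T,
        ‖riemannZeta (σ + (t + x : ℝ) * I) - Sx σ X (t + x)‖ ^ A) +
          T⁻¹ * ∫ t in (0 : ℝ)..T, ‖Sx σ X (t + x)‖ ^ A) := by ring
    _ ≤ _ := by
        refine mul_le_mul_of_nonneg_left ?_ (by positivity)
        linarith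

lemma v4_scale {M p T : ℝ} (hM : 1 ≤ M) (hp : 1 ≤ p) (hT : 0 < T) {f : ℝ → ℂ}
    {E : ℝ} (h : T⁻¹ * (∫ t in (0 : ℝ)..T, ‖f t‖ ^ p) ≤ M * E) :
    T⁻¹ * (∫ t in (0 : ℝ)..T, ‖((M : ℝ) : ℂ)⁻¹ * f t‖ ^ p) ≤ E := by
  have hM0 : 0 < M := by linarith
  have hp0 : 0 ≤ p := by linarith
  have e : ∀ t, ‖((M : ℝ) : ℂ)⁻¹ * f t‖ ^ p = (M⁻¹) ^ p * ‖f t‖ ^ p := by
    intro t
    rw [norm_mul, norm_inv, Complex.norm_real, Real.norm_of_nonneg hM0.le,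
      Real.mul_rpow (inv_nonneg.2 hM0.le) (norm_nonneg _)]
  simp_rw [e]
  rw [intervalIntegral.integral_const_mul]
  have h0 : 0 ≤ T⁻¹ * (∫ t in (0 : ℝ)..T, ‖f t‖ ^ p) :=
    mul_nonneg (inv_pos.2 hT).le (intervalIntegral.integral_nonneg hT.le fun t _ => by positivity)
  have h1 : (M⁻¹) ^ p ≤ M⁻¹ := by
    have := Real.rpow_le_rpow_of_exponent_ge (inv_pos.2 hM0) (inv_le_one_of_one_le₀ hM) hp
    rwa [Real.rpow_one] at this
  calc T⁻¹ * ((M⁻¹) ^ p * ∫ t in (0 : ℝ)..T, ‖f t‖ ^ p)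
      = (M⁻¹) ^ p * (T⁻¹ * ∫ t in (0 : ℝ)..T, ‖f t‖ ^ p) := by ring
    _ ≤ M⁻¹ * (T⁻¹ * ∫ t in (0 : ℝ)..T, ‖f t‖ ^ p) := mul_le_mul_of_nonneg_right h1 h0
    _ ≤ M⁻¹ * (M * E) := mul_le_mul_of_nonneg_left h (inv_pos.2 hM0).le
    _ = E := by field_simp

/-- part 2. PROOF: pattern `recipe_rel` (`R8/M6.lean`). Let `m` be a natural number with `m ≥ k`, `2m ≥ A j, A' j` for all `j`, `δ = 1/(4m)`.
On `ι = Fin k ⊕ Fin k` with the exponents `A j`, `A' j`: the functions `ζ(σ1 + z_j + it)` and `Sx (σ1 + Re z_j) (T^δ) (t + Im z_j)`, and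
`ζ(σ1 + w_j - it)`, `conj (Sx (σ1 + Re w_j) (T^δ) (t - Im w_j))`; differences by `V1_diff` at `s j < σ1 + ρ j ≤ σ1 + Re z_j ≤ σ2` (finitely many `j`: take the
minimum of the `r`, the maximum of the `C`; if `σ1 + ρ j > σ2` for some `j` there is no such `z`), bounds by `V4_zeta`, `V2_S`. `V3_prod` needs differences `≤ D ≤ 1`: apply it to the functions divided by
a constant `l ≥ 1` with `C/l ≤ 1` (as in `recipe_rel`), `D = T^(-r)`. Main term: `V2_mean` with this `δ`. The mean of `‖∏‖`: `V3_L1`. -/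
theorem V4_rel {k : ℕ} (hk : 1 ≤ k) {σ1 σ2 : ℝ} (hσ : 1 / 2 < σ1) (h12 : σ1 ≤ σ2) (hs1 : σ2 < 1)
    {s s' A A' ρ ρ' : Fin k → ℝ}
    (hs : ∀ j, 1 / 2 ≤ s j ∧ 1 ≤ A j ∧ MB (s j) (A j) ∧ s j < σ1 + ρ j ∧ 0 ≤ ρ j)
    (hs' : ∀ j, 1 / 2 ≤ s' j ∧ 1 ≤ A' j ∧ MB (s' j) (A' j) ∧ s' j < σ1 + ρ' j ∧ 0 ≤ ρ' j)
    (hsum : ∑ j, 1 / A j + ∑ j, 1 / A' j ≤ 1) :
    ∃ η C : ℝ, 0 < η ∧ 0 ≤ C ∧ ∀ T : ℝ, 1 ≤ T → ∀ z w : Fin k → ℂ,
      (∀ j, ρ j ≤ (z j).re ∧ σ1 + (z j).re ≤ σ2 ∧ |(z j).im| ≤ T) →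
      (∀ j, ρ' j ≤ (w j).re ∧ σ1 + (w j).re ≤ σ2 ∧ |(w j).im| ≤ T) →
      ‖(T : ℂ)⁻¹ * (∫ t in (0 : ℝ)..T, ∏ j, (riemannZeta (σ1 + z j + t * I) *
        riemannZeta (σ1 + w j - t * I))) - ∑' n : ℕ, dT σ1 z w n‖ ≤ C * T ^ (-η) ∧
      T⁻¹ * (∫ t in (0 : ℝ)..T, ‖∏ j, (riemannZeta (σ1 + z j + t * I) *
        riemannZeta (σ1 + w j - t * I))‖) ≤ C := by
  classical
  by_cases hall : (∀ j, σ1 + ρ j ≤ σ2) ∧ ∀ j, σ1 + ρ' j ≤ σ2
  swap
  · refine ⟨1, 0, one_pos, le_rfl, fun T hT z w hz hw => ?_⟩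
    exfalso
    apply hall
    exact ⟨fun j => by linarith [(hz j).1, (hz j).2.1], fun j => by linarith [(hw j).1, (hw j).2.1]⟩
  obtain ⟨hρ, hρ'⟩ := hall
  -- one index set
  set ι := Fin k ⊕ Fin k with hι
  set S : ι → ℝ := Sum.elim s s' with hS
  set p : ι → ℝ := Sum.elim A A' with hp
  set P : ι → ℝ := Sum.elim ρ ρ' with hP
  have H : ∀ i, 1 / 2 ≤ S i ∧ 1 ≤ p i ∧ MB (S i) (p i) ∧ S i < σ1 + P i ∧ 0 ≤ P i := by
    rintro (j | j)
    · exact hs j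
    · exact hs' j
  have HP : ∀ i, σ1 + P i ≤ σ2 := by
    rintro (j | j)
    · exact hρ j
    · exact hρ' j
  have hp1 : ∀ i, 1 ≤ p i := fun i => (H i).2.1
  have hps : ∑ i, 1 / p i ≤ 1 := by
    rw [Fintype.sum_sum_type]
    exact hsum
  obtain ⟨m, hm, hkm, hpm⟩ := v4_exists_nat k p
  have hm0 : (0 : ℝ) < m := by exact_mod_cast hm
  have hk0 : (0 : ℝ) < k := by exact_mod_cast hk
  have hkmR : (k : ℝ) ≤ m := by exact_mod_cast hkm
  have hδ0 : (0 : ℝ) < 1 / (4 * m) := by positivity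
  have hδk : (1 : ℝ) / (4 * m) ≤ 1 / (4 * k) := one_div_le_one_div_of_le (by positivity) (by linarith)
  have hD := fun i => V1_diff (hp1 i) (H i).1 (H i).2.2.2.1 (HP i) hs1 hδ0 (v4_delta hm (hpm i))
    (H i).2.2.1
  choose r C1 hr hC1 hd using hD
  have hZ := fun i => V4_zeta (hp1 i) (H i).1 (H i).2.2.2.1 (HP i) hs1 (H i).2.2.1
  choose C2 hC2 hz using hZ
  obtain ⟨C3, hC3, hSx⟩ := V2_S hm hσ (by linarith) hδ0 le_rfl
  obtain ⟨η, C4, hη, hC4, hmean⟩ := V2_mean hk hσ (by linarith) hδ0 hδk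
  have hne : (Finset.univ : Finset ι).Nonempty := ⟨Sum.inl ⟨0, hk⟩, Finset.mem_univ _⟩
  obtain ⟨i0, -, hi0⟩ := Finset.exists_min_image Finset.univ r hne
  have hr0 := hr i0
  set r0 := r i0 with hr0def
  set M : ℝ := ∑ i, (C1 i + C2 i) + C3 + 1 with hM
  have hsingle : ∀ i, C1 i + C2 i ≤ ∑ i, (C1 i + C2 i) := fun i =>
    Finset.single_le_sum (f := fun i => C1 i + C2 i) (fun i _ => add_nonneg (hC1 i) (hC2 i))
      (Finset.mem_univ i)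
  have hM1 : 1 ≤ M := by
    have := hsingle i0
    have h1 := hC1 i0
    have h2 := hC2 i0
    rw [hM]
    linarith
  have hM0 : 0 < M := by linarith
  have hC1M : ∀ i, C1 i ≤ M := fun i => by
    have := hsingle i
    have h2 := hC2 i
    rw [hM]; linarith
  have hC2M : ∀ i, C2 i ≤ M := fun i => by
    have := hsingle i
    have h2 := hC1 i
    rw [hM]; linarith
  have hC3M : C3 ≤ M := by
    have := hsingle i0
    have h1 := hC1 i0
    have h2 := hC2 i0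
    rw [hM]
    linarith
  obtain ⟨C5, q, hC5, hq, h5⟩ := V3_prod hp1 hps (le_refl (1 : ℝ))
  refine ⟨min (r0 * q) η, M ^ (2 * k) * C5 + C4 + (Fintype.card ι * M + 1),
    lt_min (by positivity) hη, by positivity, fun T hT z w hzj hwj => ?_⟩
  have hT0 : 0 < T := by linarith
  have hX0 : 0 < T ^ (1 / (4 * m : ℝ)) := by positivity
  have hz0 : ∀ j, 0 ≤ (z j).re := fun j => (hs j).2.2.2.2.trans (hzj j).1
  have hw0 : ∀ j, 0 ≤ (w j).re := fun j => (hs' j).2.2.2.2.trans (hwj j).1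
  have m1 := hmean T hT z w hz0 hw0
  have z1 : ∀ j, σ1 + ρ j ≤ σ1 + (z j).re := fun j => by linarith [(hzj j).1]
  have w1 : ∀ j, σ1 + ρ' j ≤ σ1 + (w j).re := fun j => by linarith [(hwj j).1]
  have z2 : ∀ j, σ1 + (z j).re ≤ σ2 := fun j => (hzj j).2.1
  have w2 : ∀ j, σ1 + (w j).re ≤ σ2 := fun j => (hwj j).2.1
  have hb' : ∀ j, |-((w j).im)| ≤ T := fun j => by rw [abs_neg]; exact (hwj j).2.2
  have ha1 := fun j => hd (Sum.inl j) _ (z1 j) (z2 j) T hT (z j).im (hzj j).2.2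
  have hb1 := fun j => hd (Sum.inr j) _ (w1 j) (w2 j) T hT (-((w j).im)) (hb' j)
  have ha2 := fun j => hz (Sum.inl j) _ (z1 j) (z2 j) T hT (z j).im (hzj j).2.2
  have hb2 := fun j => hz (Sum.inr j) _ (w1 j) (w2 j) T hT (-((w j).im)) (hb' j)
  have ha3 := fun j => hSx (p (Sum.inl j)) (hp1 _) (hpm _) (σ1 + (z j).re)
    (by linarith [hz0 j]) T hT (z j).im
  have hb3 := fun j => hSx (p (Sum.inr j)) (hp1 _) (hpm _) (σ1 + (w j).re)
    (by linarith [hw0 j]) T hT (-((w j).im))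
  set X : ℝ := T ^ (1 / (4 * m : ℝ)) with hX
  set F : ι → ℝ → ℂ := Sum.elim
    (fun j t => riemannZeta ((σ1 + (z j).re : ℝ) + (t + (z j).im : ℝ) * I))
    (fun j t => (starRingEnd ℂ) (riemannZeta ((σ1 + (w j).re : ℝ) + (t + -((w j).im) : ℝ) * I))) with hF
  set B : ι → ℝ → ℂ := Sum.elim (fun j t => Sx (σ1 + (z j).re) X (t + (z j).im))
    (fun j t => (starRingEnd ℂ) (Sx (σ1 + (w j).re) X (t + -((w j).im)))) with hB
  have cz : ∀ σ x : ℝ, σ ≤ σ2 → Continuous fun t : ℝ => riemannZeta (σ + (t + x : ℝ) * I) :=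
    fun σ x hσ => (zeta_cont (by linarith : σ < 1)).comp (continuous_id.add continuous_const)
  have cs : ∀ σ x : ℝ, Continuous fun t : ℝ => Sx σ X (t + x) := fun σ x =>
    (Sx_cont hX0 σ).comp (continuous_id.add continuous_const)
  have cF : ∀ i, Continuous (F i) := by
    rintro (j | j)
    · exact cz _ _ (z2 j)
    · exact Complex.continuous_conj.comp (cz _ _ (w2 j))
  have cB : ∀ i, Continuous (B i) := by
    rintro (j | j)
    · exact cs _ _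
    · exact Complex.continuous_conj.comp (cs _ _)
  have hMc : ((M : ℝ) : ℂ) ≠ 0 := by exact_mod_cast hM0.ne'
  have hconj : ∀ σ x : ℝ, ∀ t : ℝ, ‖(starRingEnd ℂ) (riemannZeta ((σ : ℝ) + (t + x : ℝ) * I)) -
      (starRingEnd ℂ) (Sx σ X (t + x))‖ = ‖riemannZeta ((σ : ℝ) + (t + x : ℝ) * I) - Sx σ X (t + x)‖ := by
    intro σ x t
    rw [← map_sub, Complex.norm_conj]
  have hTr1 : T ^ (-r0) ≤ 1 := Real.rpow_le_one_of_one_le_of_nonpos hT (by linarith)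
  -- the three bounds
  have b1 : ∀ i, T⁻¹ * (∫ t in (0 : ℝ)..T, ‖F i t - B i t‖ ^ p i) ≤ M * T ^ (-r0) := by
    intro i
    have e1 : T ^ (-(r i)) ≤ T ^ (-r0) :=
      Real.rpow_le_rpow_of_exponent_le hT (neg_le_neg (hi0 i (Finset.mem_univ i)))
    have e2 : C1 i * T ^ (-(r i)) ≤ M * T ^ (-r0) :=
      mul_le_mul (hC1M i) e1 (by positivity) hM0.le
    refine le_trans ?_ e2
    rcases i with j | j
    · exact ha1 j
    · simp only [hF, hB, Sum.elim_inr, hconj]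
      exact hb1 j
  have b2 : ∀ i, T⁻¹ * (∫ t in (0 : ℝ)..T, ‖F i t‖ ^ p i) ≤ M := by
    intro i
    refine le_trans ?_ (hC2M i)
    rcases i with j | j
    · exact ha2 j
    · simp only [hF, Sum.elim_inr, Complex.norm_conj]
      exact hb2 j
  have b3 : ∀ i, T⁻¹ * (∫ t in (0 : ℝ)..T, ‖B i t‖ ^ p i) ≤ M := by
    intro i
    refine le_trans ?_ hC3M
    rcases i with j | j
    · exact ha3 j
    · simp only [hB, Sum.elim_inr, Complex.norm_conj]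
      exact hb3 j
  have k5 := h5 (fun i t => ((M : ℝ) : ℂ)⁻¹ * F i t) (fun i t => ((M : ℝ) : ℂ)⁻¹ * B i t)
    (fun i => continuous_const.mul (cF i)) (fun i => continuous_const.mul (cB i))
    T (T ^ (-r0)) hT0 (by positivity) hTr1
    (by
      intro i
      have e : ∀ t, ((M : ℝ) : ℂ)⁻¹ * F i t - ((M : ℝ) : ℂ)⁻¹ * B i t =
          ((M : ℝ) : ℂ)⁻¹ * (F i t - B i t) := fun t => by ring
      simp_rw [e]
      exact v4_scale hM1 (hp1 i) hT0 (b1 i))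
    (by
      intro i
      exact v4_scale hM1 (hp1 i) hT0 (by rw [mul_one]; exact b2 i))
    (by
      intro i
      exact v4_scale hM1 (hp1 i) hT0 (by rw [mul_one]; exact b3 i))
  -- undo the scaling
  have hprod : ∀ G : ι → ℝ → ℂ, (∫ t in (0 : ℝ)..T, ∏ i, ((M : ℝ) : ℂ)⁻¹ * G i t) =
      (((M ^ (2 * k) : ℝ)) : ℂ)⁻¹ * ∫ t in (0 : ℝ)..T, ∏ i, G i t := by
    intro G
    have e : ∀ t, ∏ i, ((M : ℝ) : ℂ)⁻¹ * G i t = (((M ^ (2 * k) : ℝ)) : ℂ)⁻¹ * ∏ i, G i t := by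
      intro t
      rw [Finset.prod_mul_distrib, Finset.prod_const, Finset.card_univ, Fintype.card_sum,
        Fintype.card_fin, ← two_mul, inv_pow]
      push_cast
      rfl
    simp_rw [e]
    rw [intervalIntegral.integral_const_mul]
  rw [hprod, hprod] at k5
  have k6 : ‖(T : ℂ)⁻¹ * (∫ t in (0 : ℝ)..T, ∏ i, F i t) - (T : ℂ)⁻¹ * ∫ t in (0 : ℝ)..T, ∏ i, B i t‖ ≤
      M ^ (2 * k) * C5 * T ^ (-(r0 * q)) := by
    have e : (T : ℂ)⁻¹ * ((((M ^ (2 * k) : ℝ)) : ℂ)⁻¹ * (∫ t in (0 : ℝ)..T, ∏ i, F i t)) -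
        (T : ℂ)⁻¹ * ((((M ^ (2 * k) : ℝ)) : ℂ)⁻¹ * (∫ t in (0 : ℝ)..T, ∏ i, B i t)) =
        (((M ^ (2 * k) : ℝ)) : ℂ)⁻¹ *
        ((T : ℂ)⁻¹ * (∫ t in (0 : ℝ)..T, ∏ i, F i t) - (T : ℂ)⁻¹ * ∫ t in (0 : ℝ)..T, ∏ i, B i t) := by
      ring
    have hMk : 0 < M ^ (2 * k) := by positivity
    rw [e, norm_mul, norm_inv, Complex.norm_real, Real.norm_of_nonneg hMk.le,
      inv_mul_le_iff₀ hMk, ← Real.rpow_mul hT0.le] at k5
    refine k5.trans (le_of_eq ?_)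
    rw [← mul_assoc]
    congr 2
    ring
  have e1 : ∀ t : ℝ, ∏ i, F i t = ∏ j, (riemannZeta (σ1 + z j + t * I) *
        riemannZeta (σ1 + w j - t * I)) := by
    intro t
    rw [Fintype.prod_sum_type, ← Finset.prod_mul_distrib]
    refine Finset.prod_congr rfl fun j _ => ?_
    simp only [hF, Sum.elim_inl, Sum.elim_inr]
    rw [← riemannZeta_conj]
    congr 2
    · conv_rhs => rw [← Complex.re_add_im (z j)]
      push_cast
      ring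
    · conv_rhs => rw [← Complex.re_add_im (w j)]
      simp only [map_add, map_mul, conj_ofReal, conj_I]
      push_cast
      ring
  have e2 : ∀ t : ℝ, ∏ i, B i t = (∏ j, Sx (σ1 + (z j).re) X (t + (z j).im)) *
        (starRingEnd ℂ) (∏ j, Sx (σ1 + (w j).re) X (t + -((w j).im))) := by
    intro t
    rw [Fintype.prod_sum_type, map_prod]
    rfl
  have k7 := V3_L1 hp1 hps cF hT0 b2
  simp_rw [e1] at k7
  simp_rw [e1, e2] at k6
  have k4 : T ^ (-(r0 * q)) ≤ T ^ (-(min (r0 * q) η)) :=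
    Real.rpow_le_rpow_of_exponent_le hT (neg_le_neg (min_le_left _ _))
  have k8 : T ^ (-η) ≤ T ^ (-(min (r0 * q) η)) :=
    Real.rpow_le_rpow_of_exponent_le hT (neg_le_neg (min_le_right _ _))
  have hMC : 0 ≤ M ^ (2 * k) * C5 := by positivity
  have hcard : (0 : ℝ) ≤ Fintype.card ι * M + 1 := by positivity
  have hTm : 0 ≤ T ^ (-(min (r0 * q) η)) := by positivity
  refine ⟨?_, ?_⟩
  · refine (norm_sub_le_norm_sub_add_norm_sub _ _ _).trans ((add_le_add k6 m1).trans ?_)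
    calc M ^ (2 * k) * C5 * T ^ (-(r0 * q)) + C4 * T ^ (-η)
        ≤ M ^ (2 * k) * C5 * T ^ (-(min (r0 * q) η)) + C4 * T ^ (-(min (r0 * q) η)) := by
          gcongr
      _ ≤ _ := by
          have h1 : 0 ≤ (Fintype.card ι * M + 1) * T ^ (-(min (r0 * q) η)) := mul_nonneg hcard hTm
          nlinarith
  · refine k7.trans ?_
    linarith

end OL
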