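import Pool.Agent.Lib.MP_069854_nt.R9.V4
import Pool.Agent.Lib.MP_069854_nt.R8.M7

/-! # Shifted moments off the critical line, mixed real parts, absolute shifts -/

set_option autoImplicit false

open Complex MeasureTheory Set Filter Topology
open scoped ComplexConjugate

namespace OL

/-- a positive lower bound of finitely many positive numbers -/
lemma v5_min {k : ℕ} {r : Fin k → ℝ} (hr : ∀ j, 0 < r j) : ∃ m : ℝ, 0 < m ∧ ∀ j, m ≤ r j := by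
  classical
  induction k with
  | zero => exact ⟨1, one_pos, fun j => j.elim0⟩
  | succ k ih =>
    obtain ⟨m, hm, h⟩ := ih (r := fun j => r j.succ) (fun j => hr _)
    refine ⟨min m (r 0), lt_min hm (hr 0), fun j => ?_⟩
    refine Fin.cases (min_le_right _ _) (fun i => (min_le_left _ _).trans (h i)) j

/-- **shifted moments off the critical line, mixed real parts** -/
theorem V5_abs {k : ℕ} (hk : 1 ≤ k) {d : ℝ} (hd : 0 < d) {s s' A A' r r' : Fin k → ℝ}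
    (hs : ∀ j, 1 / 2 ≤ s j ∧ 1 ≤ A j ∧ MB (s j) (A j) ∧ s j < 1 / 2 + r j)
    (hs' : ∀ j, 1 / 2 ≤ s' j ∧ 1 ≤ A' j ∧ MB (s' j) (A' j) ∧ s' j < 1 / 2 + r' j)
    (hsum : ∑ j, 1 / A j + ∑ j, 1 / A' j ≤ 1) :
    ∃ η C : ℝ, 0 < η ∧ 0 ≤ C ∧ ∀ T : ℝ, 1 ≤ T → ∀ α β : Fin k → ℂ,
      (∀ j, r j ≤ (α j).re ∧ (α j).re ≤ 1 / 2 - d ∧ |(α j).im| ≤ T) →
      (∀ j, r' j ≤ (β j).re ∧ (β j).re ≤ 1 / 2 - d ∧ |(β j).im| ≤ T) →
      (Summable fun n : ℕ => ‖DA α n * DA β n / (n : ℂ)‖) ∧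
      ‖(T : ℂ)⁻¹ * (∫ t in (0 : ℝ)..T, ∏ j, (riemannZeta (1 / 2 + α j + t * I) *
        riemannZeta (1 / 2 + β j - t * I))) - ∑' n : ℕ, DA α n * DA β n / (n : ℂ)‖ ≤ C * T ^ (-η) ∧
      T⁻¹ * (∫ t in (0 : ℝ)..T, ‖∏ j, (riemannZeta (1 / 2 + α j + t * I) *
        riemannZeta (1 / 2 + β j - t * I))‖) ≤ C ∧
      ‖∑' n : ℕ, DA α n * DA β n / (n : ℂ)‖ ≤ C := by
  have hr : ∀ j, 0 < r j := fun j => by linarith [(hs j).1, (hs j).2.2.2]
  have hr' : ∀ j, 0 < r' j := fun j => by linarith [(hs' j).1, (hs' j).2.2.2]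
  obtain ⟨m1, hm1, h1⟩ := v5_min hr
  obtain ⟨m2, hm2, h2⟩ := v5_min hr'
  obtain ⟨m, hm⟩ : ∃ m, m = min m1 m2 := ⟨_, rfl⟩
  have hm0 : 0 < m := by rw [hm]; exact lt_min hm1 hm2
  have hmr : ∀ j, m ≤ r j := fun j => by rw [hm]; exact (min_le_left _ _).trans (h1 j)
  have hmr' : ∀ j, m ≤ r' j := fun j => by rw [hm]; exact (min_le_right _ _).trans (h2 j)
  obtain ⟨σ1, hσ1⟩ : ∃ σ1, σ1 = 1 / 2 + m := ⟨_, rfl⟩
  have hσ : 1 / 2 < σ1 := by rw [hσ1]; linarith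
  rcases le_or_gt σ1 (1 - d) with hle | hgt
  swap
  · refine ⟨1, 0, one_pos, le_rfl, fun T _ α β ha _ => ?_⟩
    have h3 := ha ⟨0, hk⟩
    have h4 := hmr ⟨0, hk⟩
    exfalso
    linarith [h3.1, h3.2.1]
  obtain ⟨η, C, hη, hC, hmain⟩ := V4_rel hk (σ1 := σ1) (σ2 := 1 - d) hσ hle (by linarith)
    (s := s) (s' := s') (A := A) (A' := A') (ρ := fun j => r j - m) (ρ' := fun j => r' j - m)
    (fun j => ⟨(hs j).1, (hs j).2.1, (hs j).2.2.1, by linarith [(hs j).2.2.2], by linarith [hmr j]⟩)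
    (fun j => ⟨(hs' j).1, (hs' j).2.1, (hs' j).2.2.1, by linarith [(hs' j).2.2.2], by linarith [hmr' j]⟩)
    hsum
  obtain ⟨B, hB⟩ : ∃ B, B = ∑' n : ℕ, (oneR ^ k) (n + 1) ^ 2 * (n + 1 : ℝ) ^ (-(2 * σ1)) := ⟨_, rfl⟩
  have hB0 : 0 ≤ B := by rw [hB]; exact tsum_nonneg fun n => by positivity
  refine ⟨η, C + B, hη, by positivity, fun T hT α β ha hb => ?_⟩
  have hT0 : 0 < T := by linarith
  have hre : ∀ (γ : Fin k → ℂ) (q : Fin k → ℝ),
      (∀ j, q j ≤ (γ j).re ∧ (γ j).re ≤ 1 / 2 - d ∧ |(γ j).im| ≤ T) →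
      ∀ j, q j - m ≤ (γ j - ((m : ℝ) : ℂ)).re ∧ σ1 + (γ j - ((m : ℝ) : ℂ)).re ≤ 1 - d ∧
        |(γ j - ((m : ℝ) : ℂ)).im| ≤ T := by
    intro γ q hγ j
    obtain ⟨g1, g2, g3⟩ := hγ j
    rw [Complex.sub_re, Complex.ofReal_re, Complex.sub_im, Complex.ofReal_im, sub_zero]
    exact ⟨by linarith, by linarith, g3⟩
  obtain ⟨key, key2⟩ := hmain T hT (fun j => α j - ((m : ℝ) : ℂ)) (fun j => β j - ((m : ℝ) : ℂ))
    (hre α r ha) (hre β r' hb)
  have e1 : ∀ t : ℝ, ∏ j, (riemannZeta (σ1 + (α j - ((m : ℝ) : ℂ)) + t * I) *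
      riemannZeta (σ1 + (β j - ((m : ℝ) : ℂ)) - t * I)) =
      ∏ j, (riemannZeta (1 / 2 + α j + t * I) * riemannZeta (1 / 2 + β j - t * I)) := by
    intro t
    refine Finset.prod_congr rfl fun j _ => ?_
    congr 2
    · rw [hσ1]; push_cast
      ring
    · rw [hσ1]; push_cast
      ring
  have hsum0 := M7_summable hk hσ (α := α) (β := β) (fun j => by linarith [(ha j).1, hmr j])
    (fun j => by linarith [(hb j).1, hmr' j])
  have hsum1 := hsum0.of_norm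
  have e2 : ∑' n : ℕ, DA α n * DA β n / (n : ℂ) =
      ∑' n : ℕ, dT σ1 (fun j => α j - ((m : ℝ) : ℂ)) (fun j => β j - ((m : ℝ) : ℂ)) n := by
    rw [hsum1.tsum_eq_zero_add]
    simp only [ArithmeticFunction.map_zero, zero_mul, Nat.cast_zero, div_zero, zero_add]
    refine tsum_congr fun n => ?_
    have := M7_term hk σ1 α β n
    rw [show σ1 - 1 / 2 = m by rw [hσ1]; ring] at this
    exact this
  simp_rw [e1] at key key2
  refine ⟨hsum0, ?_, ?_, ?_⟩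
  · rw [e2]
    refine key.trans ?_
    exact mul_le_mul_of_nonneg_right (by linarith) (by positivity)
  · linarith
  · rw [e2]
    have h5 := dT_tsum_norm (k := k) hσ (z := fun j => α j - ((m : ℝ) : ℂ)) (w := fun j => β j - ((m : ℝ) : ℂ))
      (fun j => by
        have := (hre α r ha j).1
        linarith [hmr j]) (fun j => by
        have := (hre β r' hb j).1
        linarith [hmr' j])
    rw [← hB] at h5
    linarith

end OL
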